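import Pool.Agent.K1H12.SL.Slot

/-!
# Transport along isomorphisms of varieties
-/

open CategoryTheory AlgebraicGeometry Finset

universe u v

namespace Pool.Agent.K1H12.SL

open Pool.Agent.H914 Pool.Agent.H914.VarClass Pool.Agent.H914.VarClass.Obj
  Pool.Agent.H914.WeilCohomology Pool.Agent.H281R3.HT Pool.Agent.W552 Pool.Agent.W539.Ker

variable {k : Type u} [Field k] {𝒱 : VarClass k} {ops : CycleOps 𝒱}
  {W : WeilCohomology.{u, v} ops} {X Y Z A P Z₁ Z₂ Z₃ : 𝒱.Obj}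

/-- An isomorphism of varieties compatible with the forms. -/
structure Tr (W : WeilCohomology.{u, v} ops) {Z₁ Z₂ : 𝒱.Obj} (D₁ : Z₁.Cycles)
    (f₁ : Module.End W.K (W.H Z₁)) (D₂ : Z₂.Cycles) (f₂ : Module.End W.K (W.H Z₂))
    (φ : Z₁ ⟶ Z₂) (ψ : Z₂ ⟶ Z₁) : Prop where
  l : ∀ x, W.map φ (W.map ψ x) = x
  r : ∀ y, W.map ψ (W.map φ y) = y
  dim : Z₁.dim = Z₂.dim
  tr : ∀ x, W.tr Z₁ (W.map φ x) = W.tr Z₂ x
  bf : ∀ x y, bf W Z₁ D₁ f₁ (W.map φ x) (W.map φ y) = bf W Z₂ D₂ f₂ x y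

namespace Tr

variable {D₁ : Z₁.Cycles} {f₁ : Module.End W.K (W.H Z₁)} {D₂ : Z₂.Cycles}
  {f₂ : Module.End W.K (W.H Z₂)} {D₃ : Z₃.Cycles} {f₃ : Module.End W.K (W.H Z₃)}
  {φ : Z₁ ⟶ Z₂} {ψ : Z₂ ⟶ Z₁} {φ' : Z₂ ⟶ Z₃} {ψ' : Z₃ ⟶ Z₂}

lemma symm (h : Tr W D₁ f₁ D₂ f₂ φ ψ) : Tr W D₂ f₂ D₁ f₁ ψ φ where
  l := h.r
  r := h.l
  dim := h.dim.symm
  tr x := by rw [← h.tr, h.l]
  bf x y := by rw [← h.bf, h.l, h.l]

lemma refl (D : X.Cycles) (f : Module.End W.K (W.H X)) : Tr W D f D f (𝟙 X) (𝟙 X) where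
  l x := by rw [W.map_id, W.map_id]
  r x := by rw [W.map_id, W.map_id]
  dim := rfl
  tr x := by rw [W.map_id]
  bf x y := by rw [W.map_id, W.map_id]

lemma trans (h : Tr W D₁ f₁ D₂ f₂ φ ψ) (h' : Tr W D₂ f₂ D₃ f₃ φ' ψ') :
    Tr W D₁ f₁ D₃ f₃ (φ ≫ φ') (ψ' ≫ ψ) where
  l x := by rw [W.map_comp, W.map_comp, h'.l, h.l]
  r x := by rw [W.map_comp, W.map_comp, h.r, h'.r]
  dim := h.dim.trans h'.dim
  tr x := by rw [W.map_comp, h.tr, h'.tr]
  bf x y := by rw [W.map_comp, W.map_comp, h.bf, h'.bf]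

lemma wt_map (h : Tr W D₁ f₁ D₂ f₂ φ ψ) (x : W.H Z₂) :
    wt (W.isInternal Z₁) Z₁.dim (W.map φ x) = W.map φ (wt (W.isInternal Z₂) Z₂.dim x) := by
  refine gr_induction (W.isInternal Z₂) (p := fun x =>
    wt (W.isInternal Z₁) Z₁.dim (W.map φ x) = W.map φ (wt (W.isInternal Z₂) Z₂.dim x)) ?_ ?_ x
  · intro i x hx
    rw [Fr.wt_gr hx, Fr.wt_gr (W.map_mem φ hx), map_smul, h.dim]
  · intro a b ha hb
    simp only [map_add, ha, hb]

/-- Transport of the inertia indices. -/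
theorem hasIn (h : Tr W D₁ f₁ D₂ f₂ φ ψ) {e₁ : Module.End W.K (W.H Z₁)}
    {e₂ : Module.End W.K (W.H Z₂)} (he : ∀ x, W.map φ (e₂ x) = e₁ (W.map φ x)) {w : ℤ}
    {p n : ℕ} (hin : HasIn (MM W Z₂ e₂ w) (W552.bf W Z₂ D₂ f₂) p n) :
    HasIn (MM W Z₁ e₁ w) (W552.bf W Z₁ D₁ f₁) p n := by
  refine hin.transport (W.map φ).toLinearMap ?_ ?_ ?_
  · intro x hx
    refine ⟨hx.1.map φ, ?_, ?_⟩
    · rw [AlgHom.toLinearMap_apply, ← he, hx.2.1]
    · rw [AlgHom.toLinearMap_apply, h.wt_map, hx.2.2, map_smul]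
  · intro y hy
    refine ⟨W.map ψ y, ⟨hy.1.map ψ, ?_, ?_⟩, h.l y⟩
    · have h1 := he (W.map ψ y)
      rw [h.l, hy.2.1] at h1
      have h2 := congrArg (W.map ψ) h1
      rwa [h.r] at h2
    · rw [h.symm.wt_map, hy.2.2, map_smul]
  · intro x y _ _
    exact h.bf x y

/-- Intertwining of the inverse. -/
lemma inter (h : Tr W D₁ f₁ D₂ f₂ φ ψ) {e₁ : Module.End W.K (W.H Z₁)}
    {e₂ : Module.End W.K (W.H Z₂)} (he : ∀ x, W.map φ (e₂ x) = e₁ (W.map φ x)) (x : W.H Z₁) :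
    W.map ψ (e₁ x) = e₂ (W.map ψ x) := by
  have h1 := he (W.map ψ x)
  rw [h.l] at h1
  rw [← h1, h.r]

end Tr

/-- The morphism `id × φ`. -/
noncomputable def idProd (X : 𝒱.Obj) {Z₁ Z₂ : 𝒱.Obj} (φ : Z₁ ⟶ Z₂) : X.prod Z₁ ⟶ X.prod Z₂ :=
  Obj.lift (fst X Z₁) (snd X Z₁ ≫ φ)

lemma idProd_ext (φ : Z₁ ⟶ Z₂) (a : W.H X) (b : W.H Z₂) :
    W.map (idProd X φ) (H281R3.HT.ext W a b) = H281R3.HT.ext W a (W.map φ b) := by
  rw [ext_def, ext_def, map_mul, ← W.map_comp, ← W.map_comp]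
  have e1 : idProd X φ ≫ fst X Z₂ = fst X Z₁ := Obj.lift_fst _ _
  have e2 : idProd X φ ≫ snd X Z₂ = snd X Z₁ ≫ φ := Obj.lift_snd _ _
  rw [e1, e2, W.map_comp]

lemma Tr.congr {D : X.Cycles} {f : Module.End W.K (W.H X)} (F : Fr W X D f)
    {D₁ : Z₁.Cycles} {f₁ : Module.End W.K (W.H Z₁)} {D₂ : Z₂.Cycles}
    {f₂ : Module.End W.K (W.H Z₂)} (F₁ : Fr W Z₁ D₁ f₁) (F₂ : Fr W Z₂ D₂ f₂) {φ : Z₁ ⟶ Z₂}
    {ψ : Z₂ ⟶ Z₁} (h : Tr W D₁ f₁ D₂ f₂ φ ψ) :
    Tr W (ops.pull (fst X Z₁) D + ops.pull (snd X Z₁) D₁) (extSum W f f₁)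
      (ops.pull (fst X Z₂) D + ops.pull (snd X Z₂) D₂) (extSum W f f₂) (idProd X φ)
      (idProd X ψ) where
  l x := by
    refine W.kunneth_induction (p := fun x => W.map (idProd X φ) (W.map (idProd X ψ) x) = x)
      ?_ ?_ x
    · intro a b ha hb
      rw [map_add, map_add, ha, hb]
    · intro i j a _ b _
      rw [← ext_def, idProd_ext, idProd_ext, h.l]
  r x := by
    refine W.kunneth_induction (p := fun x => W.map (idProd X ψ) (W.map (idProd X φ) x) = x)
      ?_ ?_ x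
    · intro a b ha hb
      rw [map_add, map_add, ha, hb]
    · intro i j a _ b _
      rw [← ext_def, idProd_ext, idProd_ext, h.r]
  dim := by rw [dim_prod, dim_prod, h.dim]
  tr x := by
    refine W.kunneth_induction (p := fun x => W.tr _ (W.map (idProd X φ) x) = W.tr _ x) ?_ ?_ x
    · intro a b ha hb
      rw [map_add, map_add, ha, hb, map_add]
    · intro i j a _ b _
      rw [← ext_def, idProd_ext, ext_def, ext_def, W.tr_prod, W.tr_prod, h.tr]
  bf x y := by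
    refine W.kunneth_induction (p := fun x => W552.bf W (X.prod Z₁) _ _
      (W.map (idProd X φ) x) (W.map (idProd X φ) y) = W552.bf W (X.prod Z₂) _ _ x y) ?_ ?_ x
    · intro a b ha hb
      rw [map_add, map_add, LinearMap.add_apply, ha, hb, map_add, LinearMap.add_apply]
    · intro i j a _ b _
      refine W.kunneth_induction (p := fun y => W552.bf W (X.prod Z₁) _ _
        (W.map (idProd X φ) _) (W.map (idProd X φ) y) = W552.bf W (X.prod Z₂) _ _ _ y) ?_ ?_ y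
      · intro a b ha hb
        rw [map_add, map_add, ha, hb, map_add]
      · intro i j a' _ b' _
        rw [← ext_def, ← ext_def, idProd_ext, idProd_ext, F.bf_ext F₁, F.bf_ext F₂, h.bf]

/-- The morphism `φ × id`. -/
noncomputable def prodId {Z₁ Z₂ : 𝒱.Obj} (φ : Z₁ ⟶ Z₂) (X : 𝒱.Obj) : Z₁.prod X ⟶ Z₂.prod X :=
  Obj.lift (fst Z₁ X ≫ φ) (snd Z₁ X)

lemma prodId_ext (φ : Z₁ ⟶ Z₂) (a : W.H Z₂) (b : W.H X) :
    W.map (prodId φ X) (H281R3.HT.ext W a b) = H281R3.HT.ext W (W.map φ a) b := by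
  rw [ext_def, ext_def, map_mul, ← W.map_comp, ← W.map_comp]
  have e1 : prodId φ X ≫ fst Z₂ X = fst Z₁ X ≫ φ := Obj.lift_fst _ _
  have e2 : prodId φ X ≫ snd Z₂ X = snd Z₁ X := Obj.lift_snd _ _
  rw [e1, e2, W.map_comp]

lemma Tr.congr_left {D : X.Cycles} {f : Module.End W.K (W.H X)} (F : Fr W X D f)
    {D₁ : Z₁.Cycles} {f₁ : Module.End W.K (W.H Z₁)} {D₂ : Z₂.Cycles}
    {f₂ : Module.End W.K (W.H Z₂)} (F₁ : Fr W Z₁ D₁ f₁) (F₂ : Fr W Z₂ D₂ f₂) {φ : Z₁ ⟶ Z₂}
    {ψ : Z₂ ⟶ Z₁} (h : Tr W D₁ f₁ D₂ f₂ φ ψ) :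
    Tr W (ops.pull (fst Z₁ X) D₁ + ops.pull (snd Z₁ X) D) (extSum W f₁ f)
      (ops.pull (fst Z₂ X) D₂ + ops.pull (snd Z₂ X) D) (extSum W f₂ f) (prodId φ X)
      (prodId ψ X) where
  l x := by
    refine W.kunneth_induction (p := fun x => W.map (prodId φ X) (W.map (prodId ψ X) x) = x)
      ?_ ?_ x
    · intro a b ha hb
      rw [map_add, map_add, ha, hb]
    · intro i j a _ b _
      rw [← ext_def, prodId_ext, prodId_ext, h.l]
  r x := by
    refine W.kunneth_induction (p := fun x => W.map (prodId ψ X) (W.map (prodId φ X) x) = x)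
      ?_ ?_ x
    · intro a b ha hb
      rw [map_add, map_add, ha, hb]
    · intro i j a _ b _
      rw [← ext_def, prodId_ext, prodId_ext, h.r]
  dim := by rw [dim_prod, dim_prod, h.dim]
  tr x := by
    refine W.kunneth_induction (p := fun x => W.tr _ (W.map (prodId φ X) x) = W.tr _ x) ?_ ?_ x
    · intro a b ha hb
      rw [map_add, map_add, ha, hb, map_add]
    · intro i j a _ b _
      rw [← ext_def, prodId_ext, ext_def, ext_def, W.tr_prod, W.tr_prod, h.tr]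
  bf x y := by
    refine W.kunneth_induction (p := fun x => W552.bf W (Z₁.prod X) _ _
      (W.map (prodId φ X) x) (W.map (prodId φ X) y) = W552.bf W (Z₂.prod X) _ _ x y) ?_ ?_ x
    · intro a b ha hb
      rw [map_add, map_add, LinearMap.add_apply, ha, hb, map_add, LinearMap.add_apply]
    · intro i j a _ b _
      refine W.kunneth_induction (p := fun y => W552.bf W (Z₁.prod X) _ _
        (W.map (prodId φ X) _) (W.map (prodId φ X) y) = W552.bf W (Z₂.prod X) _ _ _ y) ?_ ?_ y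
      · intro a b ha hb
        rw [map_add, map_add, ha, hb, map_add]
      · intro i j a' _ b' _
        rw [← ext_def, ← ext_def, prodId_ext, prodId_ext, F₁.bf_ext F, F₂.bf_ext F, h.bf]

/-- The associativity isomorphism. -/
noncomputable def asc (X Y Z : 𝒱.Obj) : (X.prod Y).prod Z ⟶ X.prod (Y.prod Z) :=
  Obj.lift (fst (X.prod Y) Z ≫ fst X Y)
    (Obj.lift (fst (X.prod Y) Z ≫ snd X Y) (snd (X.prod Y) Z))

/-- The inverse of the associativity isomorphism. -/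
noncomputable def asc' (X Y Z : 𝒱.Obj) : X.prod (Y.prod Z) ⟶ (X.prod Y).prod Z :=
  Obj.lift (Obj.lift (fst X (Y.prod Z)) (snd X (Y.prod Z) ≫ fst Y Z))
    (snd X (Y.prod Z) ≫ snd Y Z)

lemma asc_ext (a : W.H X) (b : W.H Y) (c : W.H Z) :
    W.map (asc X Y Z) (H281R3.HT.ext W a (H281R3.HT.ext W b c)) =
      H281R3.HT.ext W (H281R3.HT.ext W a b) c := by
  rw [ext_def, ext_def, ext_def, ext_def, map_mul, map_mul, map_mul, map_mul, ← W.map_comp,
    ← W.map_comp, ← W.map_comp, ← W.map_comp, ← W.map_comp, ← W.map_comp]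
  have e1 : asc X Y Z ≫ fst X (Y.prod Z) = fst (X.prod Y) Z ≫ fst X Y := Obj.lift_fst _ _
  have e2 : asc X Y Z ≫ snd X (Y.prod Z) =
    Obj.lift (fst (X.prod Y) Z ≫ snd X Y) (snd (X.prod Y) Z) := Obj.lift_snd _ _
  have e3 : (asc X Y Z ≫ snd X (Y.prod Z)) ≫ fst Y Z = fst (X.prod Y) Z ≫ snd X Y := by
    rw [e2]; exact Obj.lift_fst _ _
  have e4 : (asc X Y Z ≫ snd X (Y.prod Z)) ≫ snd Y Z = snd (X.prod Y) Z := by
    rw [e2]; exact Obj.lift_snd _ _
  rw [e1, e3, e4]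
  simp only [W.map_comp, mul_assoc]

lemma asc'_ext (a : W.H X) (b : W.H Y) (c : W.H Z) :
    W.map (asc' X Y Z) (H281R3.HT.ext W (H281R3.HT.ext W a b) c) =
      H281R3.HT.ext W a (H281R3.HT.ext W b c) := by
  rw [ext_def, ext_def, ext_def, ext_def, map_mul, map_mul, map_mul, map_mul, ← W.map_comp,
    ← W.map_comp, ← W.map_comp, ← W.map_comp, ← W.map_comp, ← W.map_comp]
  have e1 : asc' X Y Z ≫ snd (X.prod Y) Z = snd X (Y.prod Z) ≫ snd Y Z := Obj.lift_snd _ _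
  have e2 : asc' X Y Z ≫ fst (X.prod Y) Z =
    Obj.lift (fst X (Y.prod Z)) (snd X (Y.prod Z) ≫ fst Y Z) := Obj.lift_fst _ _
  have e3 : (asc' X Y Z ≫ fst (X.prod Y) Z) ≫ fst X Y = fst X (Y.prod Z) := by
    rw [e2]; exact Obj.lift_fst _ _
  have e4 : (asc' X Y Z ≫ fst (X.prod Y) Z) ≫ snd X Y = snd X (Y.prod Z) ≫ fst Y Z := by
    rw [e2]; exact Obj.lift_snd _ _
  rw [e1, e3, e4]
  simp only [W.map_comp, mul_assoc]

/-- The swap of the first two factors. -/
noncomputable def swp (X Y Z : 𝒱.Obj) : X.prod (Y.prod Z) ⟶ Y.prod (X.prod Z) :=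
  Obj.lift (snd X (Y.prod Z) ≫ fst Y Z)
    (Obj.lift (fst X (Y.prod Z)) (snd X (Y.prod Z) ≫ snd Y Z))

lemma swp_ext {i j : ℕ} {a : W.H X} (ha : a ∈ W.gr X i) {b : W.H Y} (hb : b ∈ W.gr Y j)
    (c : W.H Z) : W.map (swp X Y Z) (H281R3.HT.ext W b (H281R3.HT.ext W a c)) =
      (-1 : W.K) ^ (i * j) • H281R3.HT.ext W a (H281R3.HT.ext W b c) := by
  rw [ext_def, ext_def, ext_def, ext_def, map_mul, map_mul, map_mul, map_mul, ← W.map_comp,
    ← W.map_comp, ← W.map_comp, ← W.map_comp, ← W.map_comp, ← W.map_comp]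
  have e1 : swp X Y Z ≫ fst Y (X.prod Z) = snd X (Y.prod Z) ≫ fst Y Z := Obj.lift_fst _ _
  have e2 : swp X Y Z ≫ snd Y (X.prod Z) =
    Obj.lift (fst X (Y.prod Z)) (snd X (Y.prod Z) ≫ snd Y Z) := Obj.lift_snd _ _
  have e3 : (swp X Y Z ≫ snd Y (X.prod Z)) ≫ fst X Z = fst X (Y.prod Z) := by
    rw [e2]; exact Obj.lift_fst _ _
  have e4 : (swp X Y Z ≫ snd Y (X.prod Z)) ≫ snd X Z = snd X (Y.prod Z) ≫ snd Y Z := by
    rw [e2]; exact Obj.lift_snd _ _
  rw [e1, e3, e4, ← mul_assoc, ← mul_assoc, ← W.map_comp (snd X (Y.prod Z)) (snd Y Z),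
    W.comm (W.map_mem _ ha) (W.map_mem _ hb), smul_mul_assoc, smul_smul, ← mul_pow]
  simp

/-- Induction on a threefold product. -/
lemma ind3 {p : W.H (X.prod (Y.prod Z)) → Prop} (hadd : ∀ a b, p a → p b → p (a + b))
    (h : ∀ i j l, ∀ a ∈ W.gr X i, ∀ b ∈ W.gr Y j, ∀ c ∈ W.gr Z l,
      p (H281R3.HT.ext W a (H281R3.HT.ext W b c))) (x : W.H (X.prod (Y.prod Z))) : p x := by
  refine W.kunneth_induction hadd ?_ x
  intro i j a ha b _
  refine W.kunneth_induction (p := fun b => p (W.map (fst X (Y.prod Z)) a *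
    W.map (snd X (Y.prod Z)) b)) ?_ ?_ b
  · intro b b' hb hb'
    rw [map_add, mul_add]; exact hadd _ _ hb hb'
  · intro j l b hb c hc
    exact h i j l a ha b hb c hc

/-- Induction on a threefold product. -/
lemma ind3' {p : W.H ((X.prod Y).prod Z) → Prop} (hadd : ∀ a b, p a → p b → p (a + b))
    (h : ∀ i j l, ∀ a ∈ W.gr X i, ∀ b ∈ W.gr Y j, ∀ c ∈ W.gr Z l,
      p (H281R3.HT.ext W (H281R3.HT.ext W a b) c)) (x : W.H ((X.prod Y).prod Z)) : p x := by
  refine W.kunneth_induction hadd ?_ x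
  intro i j a _ c hc
  refine W.kunneth_induction (p := fun a => p (W.map (fst (X.prod Y) Z) a *
    W.map (snd (X.prod Y) Z) c)) ?_ ?_ a
  · intro b b' hb hb'
    rw [map_add, add_mul]; exact hadd _ _ hb hb'
  · intro i l a ha b hb
    exact h i l j a ha b hb c hc

section

variable {D : X.Cycles} {f : Module.End W.K (W.H X)} (F : Fr W X D f) {E : Y.Cycles}
  {g : Module.End W.K (W.H Y)} (G : Fr W Y E g) {C : Z.Cycles} {h : Module.End W.K (W.H Z)}
  (H : Fr W Z C h)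

include F G H

/-- The associativity isomorphism is compatible with the forms. -/
lemma tr_asc : Tr W
    (ops.pull (fst (X.prod Y) Z) (ops.pull (fst X Y) D + ops.pull (snd X Y) E) +
      ops.pull (snd (X.prod Y) Z) C) (extSum W (extSum W f g) h)
    (ops.pull (fst X (Y.prod Z)) D + ops.pull (snd X (Y.prod Z))
      (ops.pull (fst Y Z) E + ops.pull (snd Y Z) C)) (extSum W f (extSum W g h))
    (asc X Y Z) (asc' X Y Z) where
  l x := by
    refine ind3' (p := fun x => W.map (asc X Y Z) (W.map (asc' X Y Z) x) = x) ?_ ?_ x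
    · intro a b ha hb
      rw [map_add, map_add, ha, hb]
    · intro i j l a _ b _ c _
      rw [asc'_ext, asc_ext]
  r x := by
    refine ind3 (p := fun x => W.map (asc' X Y Z) (W.map (asc X Y Z) x) = x) ?_ ?_ x
    · intro a b ha hb
      rw [map_add, map_add, ha, hb]
    · intro i j l a _ b _ c _
      rw [asc_ext, asc'_ext]
  dim := by rw [dim_prod, dim_prod, dim_prod, dim_prod, add_assoc]
  tr x := by
    refine ind3 (p := fun x => W.tr _ (W.map (asc X Y Z) x) = W.tr _ x) ?_ ?_ x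
    · intro a b ha hb
      rw [map_add, map_add, ha, hb, map_add]
    · intro i j l a _ b _ c _
      rw [asc_ext, ext_def, ext_def, ext_def, ext_def, W.tr_prod, W.tr_prod, W.tr_prod,
        W.tr_prod, mul_assoc]
  bf x y := by
    refine ind3 (p := fun x => W552.bf W ((X.prod Y).prod Z) _ _
      (W.map (asc X Y Z) x) (W.map (asc X Y Z) y) =
        W552.bf W (X.prod (Y.prod Z)) _ _ x y) ?_ ?_ x
    · intro a b ha hb
      rw [map_add, map_add, LinearMap.add_apply, ha, hb, map_add, LinearMap.add_apply]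
    · intro i j l a _ b _ c _
      refine ind3 (p := fun y => W552.bf W ((X.prod Y).prod Z) _ _
        (W.map (asc X Y Z) _) (W.map (asc X Y Z) y) =
          W552.bf W (X.prod (Y.prod Z)) _ _ _ y) ?_ ?_ y
      · intro a b ha hb
        rw [map_add, map_add, ha, hb, map_add]
      · intro i j l a' _ b' _ c' _
        rw [asc_ext, asc_ext, (F.prod G).bf_ext H, F.bf_ext G, F.bf_ext (G.prod H),
          G.bf_ext H, mul_assoc]

/-- The swap of the first two factors is compatible with the forms. -/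
lemma tr_swp : Tr W
    (ops.pull (fst X (Y.prod Z)) D + ops.pull (snd X (Y.prod Z))
      (ops.pull (fst Y Z) E + ops.pull (snd Y Z) C)) (extSum W f (extSum W g h))
    (ops.pull (fst Y (X.prod Z)) E + ops.pull (snd Y (X.prod Z))
      (ops.pull (fst X Z) D + ops.pull (snd X Z) C)) (extSum W g (extSum W f h))
    (swp X Y Z) (swp Y X Z) where
  l x := by
    refine ind3 (p := fun x => W.map (swp X Y Z) (W.map (swp Y X Z) x) = x) ?_ ?_ x
    · intro a b ha hb
      rw [map_add, map_add, ha, hb]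
    · intro i j l a ha b hb c _
      rw [swp_ext hb ha, map_smul, swp_ext ha hb, smul_smul, mul_comm j i, ← mul_pow]
      simp
  r x := by
    refine ind3 (p := fun x => W.map (swp Y X Z) (W.map (swp X Y Z) x) = x) ?_ ?_ x
    · intro a b ha hb
      rw [map_add, map_add, ha, hb]
    · intro i j l a ha b hb c _
      rw [swp_ext hb ha, map_smul, swp_ext ha hb, smul_smul, mul_comm j i, ← mul_pow]
      simp
  dim := by rw [dim_prod, dim_prod, dim_prod, dim_prod, ← add_assoc, ← add_assoc,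
    add_comm X.dim]
  tr x := by
    refine ind3 (p := fun x => W.tr _ (W.map (swp X Y Z) x) = W.tr _ x) ?_ ?_ x
    · intro a b ha hb
      rw [map_add, map_add, ha, hb, map_add]
    · intro j i l b hb a ha c _
      rw [swp_ext ha hb, map_smul, ext_def, ext_def, ext_def, ext_def, W.tr_prod, W.tr_prod,
        W.tr_prod, W.tr_prod]
      by_cases hi : i = 2 * X.dim
      · rw [hi, mul_assoc, pow_mul]
        simp only [even_two, Even.neg_pow, one_pow, one_smul]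
        ring
      · rw [W.tr_eq_zero ha hi]
        simp
  bf x y := by
    refine ind3 (p := fun x => W552.bf W (X.prod (Y.prod Z)) _ _
      (W.map (swp X Y Z) x) (W.map (swp X Y Z) y) =
        W552.bf W (Y.prod (X.prod Z)) _ _ x y) ?_ ?_ x
    · intro a b ha hb
      rw [map_add, map_add, LinearMap.add_apply, ha, hb, map_add, LinearMap.add_apply]
    · intro j i l b hb a ha c _
      refine ind3 (p := fun y => W552.bf W (X.prod (Y.prod Z)) _ _
        (W.map (swp X Y Z) _) (W.map (swp X Y Z) y) =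
          W552.bf W (Y.prod (X.prod Z)) _ _ _ y) ?_ ?_ y
      · intro a b ha hb
        rw [map_add, map_add, ha, hb, map_add]
      · intro j' i' l' b' hb' a' ha' c' _
        rw [swp_ext ha hb, swp_ext ha' hb', map_smul, map_smul, LinearMap.smul_apply,
          F.bf_ext (G.prod H), G.bf_ext H, G.bf_ext (F.prod H), F.bf_ext H]
        by_cases hi : i = i'
        · by_cases hj : j = j'
          · subst hi hj
            rw [smul_smul, ← mul_pow]
            simp only [mul_neg, mul_one, neg_neg, one_pow, one_smul]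
            ring
          · rw [G.bf_deg hb hb' hj]; simp
        · rw [F.bf_deg ha ha' hi]; simp

end

lemma asc_op (e₁ : Module.End W.K (W.H X)) (e₂ : Module.End W.K (W.H Y))
    (e₃ : Module.End W.K (W.H Z)) (x : W.H (X.prod (Y.prod Z))) :
    W.map (asc X Y Z) (extOp W e₁ (extOp W e₂ e₃) x) =
      extOp W (extOp W e₁ e₂) e₃ (W.map (asc X Y Z) x) := by
  refine ind3 (p := fun x => W.map (asc X Y Z) (extOp W e₁ (extOp W e₂ e₃) x) =
      extOp W (extOp W e₁ e₂) e₃ (W.map (asc X Y Z) x)) ?_ ?_ x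
  · intro a b ha hb
    simp only [map_add, ha, hb]
  · intro i j l a _ b _ c _
    rw [extOp_ext, extOp_ext, asc_ext, asc_ext, extOp_ext, extOp_ext]

/-- An operator which commutes with the grading. -/
def Hg (W : WeilCohomology.{u, v} ops) (X : 𝒱.Obj) (e : Module.End W.K (W.H X)) : Prop :=
  ∀ i, ∀ a ∈ W.gr X i, e a ∈ W.gr X i

lemma Hg.one : Hg W X 1 := fun _ _ h => h

lemma Hg.ext {e₁ : Module.End W.K (W.H X)} {e₂ : Module.End W.K (W.H Y)} (h₁ : Hg W X e₁)
    (h₂ : Hg W Y e₂) : Hg W (X.prod Y) (extOp W e₁ e₂) := by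
  -- the projections commute with the operator on external products
  have key : ∀ (i : ℕ) (x : W.H (X.prod Y)), proj (W.isInternal (X.prod Y)) i
      (extOp W e₁ e₂ x) = extOp W e₁ e₂ (proj (W.isInternal (X.prod Y)) i x) := by
    intro i x
    refine W.kunneth_induction (p := fun x => proj (W.isInternal (X.prod Y)) i
      (extOp W e₁ e₂ x) = extOp W e₁ e₂ (proj (W.isInternal (X.prod Y)) i x)) ?_ ?_ x
    · intro a b ha hb
      simp only [map_add, ha, hb]
    · intro l m a ha b hb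
      have h1 : W.map (fst X Y) a * W.map (snd X Y) b ∈ W.gr (X.prod Y) (l + m) :=
        W.mul_mem (W.map_mem _ ha) (W.map_mem _ hb)
      have h2 : W.map (fst X Y) (e₁ a) * W.map (snd X Y) (e₂ b) ∈ W.gr (X.prod Y) (l + m) :=
        W.mul_mem (W.map_mem _ (h₁ l a ha)) (W.map_mem _ (h₂ m b hb))
      rw [extOp_tmul]
      by_cases hi : l + m = i
      · subst hi
        rw [proj_same _ h1, proj_same _ h2, extOp_tmul]
      · rw [proj_ne _ h1 hi, proj_ne _ h2 hi, map_zero]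
  intro i x hx
  have h1 := key i x
  rw [proj_same _ hx] at h1
  rw [← h1]
  exact proj_mem _ _ _

lemma swp_op {e₁ : Module.End W.K (W.H X)} {e₂ : Module.End W.K (W.H Y)} (h₁ : Hg W X e₁)
    (h₂ : Hg W Y e₂) (e₃ : Module.End W.K (W.H Z)) (x : W.H (Y.prod (X.prod Z))) :
    W.map (swp X Y Z) (extOp W e₂ (extOp W e₁ e₃) x) =
      extOp W e₁ (extOp W e₂ e₃) (W.map (swp X Y Z) x) := by
  refine ind3 (p := fun x => W.map (swp X Y Z) (extOp W e₂ (extOp W e₁ e₃) x) =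
      extOp W e₁ (extOp W e₂ e₃) (W.map (swp X Y Z) x)) ?_ ?_ x
  · intro a b ha hb
    simp only [map_add, ha, hb]
  · intro j i l b hb a ha c _
    rw [extOp_ext, extOp_ext, swp_ext (h₁ i a ha) (h₂ j b hb), swp_ext ha hb, map_smul,
      extOp_ext, extOp_ext]

end Pool.Agent.K1H12.SL
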