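import Pool.Agent.K1H12.SL.Defs
import Pool.Agent.K1H12.SL.Trans
import Pool.Agent.W539.Ker.Fam
import Pool.Agent.Y133.Half.CS
import Pool.Agent.Y163.Pow

/-!
# Removing a hyperbolic plane from all the factors of a power
-/

open CategoryTheory AlgebraicGeometry Finset

universe u v

namespace Pool.Agent.K1H12.SL

open Pool.Agent.H914 Pool.Agent.H914.VarClass Pool.Agent.H914.VarClass.Obj
  Pool.Agent.H914.WeilCohomology Pool.Agent.H281R3.HT Pool.Agent.W552 Pool.Agent.W539.Ker
open Pool.Agent.Y163 (pw)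

variable {k : Type u} [Field k] {𝒱 : VarClass k} {ops : CycleOps 𝒱}
  {W : WeilCohomology.{u, v} ops} {X Y Z A : 𝒱.Obj}

/-- The lowering operator on the power. -/
noncomputable def fpw (W : WeilCohomology.{u, v} ops) (X : 𝒱.Obj)
    (f : Module.End W.K (W.H X)) : ∀ n, Module.End W.K (W.H (pw X n))
  | 0 => f
  | n + 1 => extSum W f (fpw W X f n)

/-- The power of an operator. -/
noncomputable def epw (W : WeilCohomology.{u, v} ops) (X : 𝒱.Obj)
    (e : Module.End W.K (W.H X)) : ∀ n, Module.End W.K (W.H (pw X n))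
  | 0 => e
  | n + 1 => extOp W e (epw W X e n)

lemma po_pw {D : X.Cycles} {f : Module.End W.K (W.H X)} (F : Po W X D f) :
    ∀ n, Po W (pw X n) (dpw ops X D n) (fpw W X f n)
  | 0 => F
  | n + 1 => F.prod (po_pw F n)

lemma epw_idem {e : Module.End W.K (W.H X)} (he : e * e = e) :
    ∀ n, epw W X e n * epw W X e n = epw W X e n
  | 0 => he
  | n + 1 => by
    have h1 := extOp_mul (W := W) e e (epw W X e n) (epw W X e n)
    rw [he, epw_idem he n] at h1
    exact h1

lemma epw_one : ∀ n, epw W X 1 n = 1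
  | 0 => rfl
  | n + 1 => by rw [epw, epw_one n]; exact extOp_one

lemma hg_epw {e : Module.End W.K (W.H X)} (he : Hg W X e) : ∀ n, Hg W (pw X n) (epw W X e n)
  | 0 => he
  | n + 1 => he.ext (hg_epw he n)

lemma finrank_epw {e : Module.End W.K (W.H X)} (he : e * e = e) :
    ∀ n, Module.finrank W.K (LinearMap.range (epw W X e n)) =
      Module.finrank W.K (LinearMap.range e) ^ (n + 1)
  | 0 => by rw [zero_add, pow_one]; rfl
  | n + 1 => by
    have h1 := Y133.Half.finrank_extOp (W := W) (X := X) (Y := pw X n) (g := e)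
      (h := epw W X e n) he (epw_idem he n)
    rw [finrank_epw he n, ← pow_succ'] at h1
    exact h1

section Pair

variable {D : X.Cycles} {f : Module.End W.K (W.H X)} {v : ℤ} {y₁ y₂ : W.H X} {s₁ s₂ : ℚ}

/-- The projector commutes with the grading. -/
lemma Pair.hg (F : Fr W X D f) (P : Pair W X D f v y₁ y₂ s₁ s₂) :
    Hg W X (RR W X D f y₁ y₂ s₁ s₂) := by
  have key : ∀ y, AS W X y → wt (W.isInternal X) X.dim y = (v : W.K) • y →
      ∀ i, ∀ a ∈ W.gr X i, bf W X D f a y • y ∈ W.gr X i := by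
    intro y hy hv i a ha
    rcases AS_wt hy hv with rfl | ⟨j, hj, hyj⟩
    · rw [smul_zero]; exact Submodule.zero_mem _
    by_cases hij : i = 2 * j
    · subst hij
      exact Submodule.smul_mem _ _ (alg_gr hyj)
    · rw [F.bf_deg ha (alg_gr hyj) hij, zero_smul]; exact Submodule.zero_mem _
  intro i a ha
  rw [RR_apply]
  exact Submodule.sub_mem _ (Submodule.sub_mem _ ha (Submodule.smul_mem _ _
    (key y₁ P.as₁ P.wt₁ i a ha))) (Submodule.smul_mem _ _ (key y₂ P.as₂ P.wt₂ i a ha))

/-- The rank of the projector. -/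
lemma Pair.rank (P : Pair W X D f v y₁ y₂ s₁ s₂) :
    Module.finrank W.K (LinearMap.range (RR W X D f y₁ y₂ s₁ s₂)) + 2 ≤
      Module.finrank W.K (W.H X) := by
  have h1 : (s₁ : W.K) ≠ 0 := by exact_mod_cast P.pos.ne'
  have h2 : (s₂ : W.K) ≠ 0 := by exact_mod_cast P.neg.ne
  let φ : W.H X →ₗ[W.K] (W.K × W.K) :=
    ((bf W X D f).flip y₁).prod ((bf W X D f).flip y₂)
  have hφ : ∀ x, φ x = (bf W X D f x y₁, bf W X D f x y₂) := fun x => rfl
  have hsurj : LinearMap.range φ = ⊤ := by
    rw [eq_top_iff]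
    rintro ⟨a, b⟩ _
    refine ⟨(a * (s₁ : W.K)⁻¹) • y₁ + (b * (s₂ : W.K)⁻¹) • y₂, ?_⟩
    rw [map_add, map_smul, map_smul, hφ, hφ, P.sq₁, P.sq₂, P.o12, P.o21]
    ext
    · simp [h1]
    · simp [h2]
  have h3 := LinearMap.finrank_range_add_finrank_ker φ
  rw [hsurj, finrank_top, Module.finrank_prod, Module.finrank_self] at h3
  have h4 : LinearMap.range (RR W X D f y₁ y₂ s₁ s₂) ≤ LinearMap.ker φ := by
    rintro _ ⟨x, rfl⟩
    rw [LinearMap.mem_ker, hφ, P.bf_R₁, P.bf_R₂]
    rfl
  have h5 := Submodule.finrank_mono h4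
  omega

/-- **Removal of a hyperbolic plane from all the factors.** -/
theorem chain (G : Po W X D f) (P : Pair W X D f v y₁ y₂ s₁ s₂) (n : ℕ) :
    ∀ {A : 𝒱.Obj} {E : A.Cycles} {g : Module.End W.K (W.H A)} (_ : Po W A E g)
      {e : Module.End W.K (W.H A)} (_ : e * e = e) {w : ℤ} {p q : ℕ}
      (_ : HasIn (MM W ((pw X n).prod A) (extOp W (epw W X (RR W X D f y₁ y₂ s₁ s₂) n) e) w)
        (bf W ((pw X n).prod A) (ops.pull (fst (pw X n) A) (dpw ops X D n) +
          ops.pull (snd (pw X n) A) E) (extSum W (fpw W X f n) g)) p q),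
      ∃ m, HasIn (MM W ((pw X n).prod A) (extOp W 1 e) w)
        (bf W ((pw X n).prod A) (ops.pull (fst (pw X n) A) (dpw ops X D n) +
          ops.pull (snd (pw X n) A) E) (extSum W (fpw W X f n) g)) (p + m) (q + m) := by
  induction n with
  | zero =>
    intro A E g F e he w p q h
    exact first_slot G P F he h
  | succ n ih =>
    intro A E g F e he w p q h
    set R := RR W X D f y₁ y₂ s₁ s₂ with hR
    set Q := pw X n with hQ
    have FX : Po W X D f := G
    have FQ : Po W Q (dpw ops X D n) (fpw W X f n) := po_pw FX n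
    -- to `X × (Q × A)`
    have ta := tr_asc FX.fr FQ.fr F.fr
    have tw := tr_swp FX.fr FQ.fr F.fr
    have h1 : HasIn (MM W (X.prod (Q.prod A)) (extOp W R (extOp W (epw W X R n) e)) w)
        (bf W (X.prod (Q.prod A)) (ops.pull (fst X (Q.prod A)) D +
          ops.pull (snd X (Q.prod A)) (ops.pull (fst Q A) (dpw ops X D n) +
            ops.pull (snd Q A) E)) (extSum W f (extSum W (fpw W X f n) g))) p q :=
      ta.symm.hasIn (ta.inter (asc_op R (epw W X R n) e)) h
    -- the first slot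
    have hidem : extOp W (epw W X R n) e * extOp W (epw W X R n) e =
        extOp W (epw W X R n) e := by
      rw [extOp_mul, he, epw_idem P.R_idem]
    obtain ⟨m₁, h2⟩ := first_slot G P (FQ.prod F) hidem h1
    -- to `Q × (X × A)`
    have h3 : HasIn (MM W (Q.prod (X.prod A)) (extOp W (epw W X R n) (extOp W 1 e)) w)
        (bf W (Q.prod (X.prod A)) (ops.pull (fst Q (X.prod A)) (dpw ops X D n) +
          ops.pull (snd Q (X.prod A)) (ops.pull (fst X A) D +
            ops.pull (snd X A) E)) (extSum W (fpw W X f n) (extSum W f g)))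
              (p + m₁) (q + m₁) :=
      tw.symm.hasIn (tw.inter (swp_op Hg.one (hg_epw (P.hg G.fr) n) e)) h2
    have hidem2 : extOp W (1 : Module.End W.K (W.H X)) e * extOp W 1 e = extOp W 1 e := by
      rw [extOp_mul, he, one_mul]
    obtain ⟨m₂, h4⟩ := ih (FX.prod F) hidem2 h3
    -- back to `X × (Q × A)`
    have h5 : HasIn (MM W (X.prod (Q.prod A)) (extOp W 1 (extOp W 1 e)) w)
        (bf W (X.prod (Q.prod A)) (ops.pull (fst X (Q.prod A)) D +
          ops.pull (snd X (Q.prod A)) (ops.pull (fst Q A) (dpw ops X D n) +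
            ops.pull (snd Q A) E)) (extSum W f (extSum W (fpw W X f n) g)))
              (p + m₁ + m₂) (q + m₁ + m₂) :=
      tw.hasIn (swp_op Hg.one Hg.one e) h4
    refine ⟨m₁ + m₂, ?_⟩
    have h6 := ta.hasIn (asc_op 1 1 e) h5
    rw [extOp_one, add_assoc, add_assoc] at h6
    exact h6

/-- **The bound for the signature.** -/
theorem sig_bound (G : Po W X D f) (P : Pair W X D f v y₁ y₂ s₁ s₂) (n : ℕ) {E : A.Cycles}
    {g : Module.End W.K (W.H A)} (F : Po W A E g) {w : ℤ} {p q : ℕ}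
    (h : HasIn (MM W ((pw X n).prod A) 1 w)
        (bf W ((pw X n).prod A) (ops.pull (fst (pw X n) A) (dpw ops X D n) +
          ops.pull (snd (pw X n) A) E) (extSum W (fpw W X f n) g)) p q) :
    |(p : ℤ) - q| ≤ ((Module.finrank W.K (W.H X) - 2) ^ (n + 1) * Module.finrank W.K (W.H A) :
      ℕ) := by
  set R := RR W X D f y₁ y₂ s₁ s₂ with hR
  have FX : Po W X D f := G
  have FP := (po_pw FX n).prod F
  obtain ⟨p₀, q₀, h0⟩ := exists_in (FP.rat (extOp W (epw W X R n) 1) w)
  obtain ⟨m, hm⟩ := chain G P n F (one_mul 1) h0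
  rw [extOp_one] at hm
  obtain ⟨hp, hq⟩ := HasIn.unique (FP.rat 1 w) h hm
  have h1 := in_le h0 (LinearMap.range (extOp W (epw W X R n) 1))
    (fun x hx => ⟨x, hx.2.1⟩)
  have h11 : (1 : Module.End W.K (W.H A)) ∘ₗ 1 = 1 := rfl
  rw [Y133.Half.finrank_extOp (epw_idem P.R_idem n) h11, finrank_epw P.R_idem] at h1
  have h2 : Module.finrank W.K (LinearMap.range (1 : Module.End W.K (W.H A))) =
      Module.finrank W.K (W.H A) := by
    have : LinearMap.range (1 : Module.End W.K (W.H A)) = ⊤ := LinearMap.range_id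
    rw [this, finrank_top]
  rw [h2] at h1
  have h3 := P.rank
  have h4 : Module.finrank W.K (LinearMap.range R) ≤ Module.finrank W.K (W.H X) - 2 := by
    rw [hR]; omega
  have h5 : p₀ + q₀ ≤ (Module.finrank W.K (W.H X) - 2) ^ (n + 1) *
      Module.finrank W.K (W.H A) :=
    h1.trans (Nat.mul_le_mul_right _ (Nat.pow_le_pow_left h4 _))
  have h6 : |(p : ℤ) - q| ≤ ((p₀ + q₀ : ℕ) : ℤ) := by
    rw [hp, hq, abs_le]
    constructor <;> push_cast <;> omega
  exact h6.trans (by exact_mod_cast h5)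

end Pair

end Pool.Agent.K1H12.SL
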