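import Pool.Agent.K1H12.SL.HL
import Pool.Agent.W534.PoleA
import Pool.Agent.R940.DDefs

/-!
# Inertia indices and ranks
-/

open CategoryTheory AlgebraicGeometry Finset

universe u v

namespace Pool.Agent.K1H12.SL

open Pool.Agent.H914 Pool.Agent.H914.VarClass Pool.Agent.H914.VarClass.Obj
  Pool.Agent.H914.WeilCohomology Pool.Agent.H281R3.HT Pool.Agent.W552 Pool.Agent.W539.Ker
open Pool.Agent.W534 (numRank numRank_eq kRank pair pair_apply dual_ext)
open Pool.Agent.R940 (algRank)

section Abs

variable {K : Type*} [Field K] [CharZero K] {V : Type*} [AddCommGroup V] [Module K V]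
  {P : V → Prop} {B : V →ₗ[K] V →ₗ[K] K}

/-- The component orthogonal to a maximal family lies in the radical. -/
theorem Fam.rad (hP : RatForm P B) {ι : Type} [Fintype ι] {x : ι → V} {q : ι → ℚ}
    (hF : Fam P B x q) {u : V} (hu : P u) :
    ∃ c : ι → ℚ, P (u - ∑ i, (c i : K) • x i) ∧ (∀ i, B u (x i) = ((c i * q i : ℚ) : K)) ∧
      ∀ v, P v → B (u - ∑ i, (c i : K) • x i) v = 0 := by
  classical
  have key : ∀ u, P u → ∃ c : ι → ℚ, P (u - ∑ i, (c i : K) • x i) ∧
      (∀ i, B u (x i) = ((c i * q i : ℚ) : K)) ∧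
      (∀ j, B (u - ∑ i, (c i : K) • x i) (x j) = 0) := by
    intro u hu
    choose r hr using fun i => hP.rat u (x i) hu (hF.mem i)
    refine ⟨fun i => r i / q i, ?_, ?_, ?_⟩
    · exact hP.sub.sub hu (hP.sub.sum _ fun i _ => hP.sub.smul _ (hF.mem i))
    · intro i
      rw [hr, div_mul_cancel₀ _ (hF.ne i)]
    · intro j
      rw [map_sub, LinearMap.sub_apply, map_sum, LinearMap.sum_apply, Finset.sum_eq_single j]
      · rw [map_smul, LinearMap.smul_apply, hF.sq, hr, smul_eq_mul, ← Rat.cast_mul,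
          div_mul_cancel₀ _ (hF.ne j), sub_self]
      · intro i _ hij
        rw [map_smul, LinearMap.smul_apply, hF.orth i j hij, smul_zero]
      · intro h0; exact absurd (Finset.mem_univ _) h0
  obtain ⟨c, hc1, hc2, hc3⟩ := key u hu
  refine ⟨c, hc1, hc2, fun v hv => ?_⟩
  obtain ⟨d, hd1, hd2, hd3⟩ := key v hv
  set u' := u - ∑ i, (c i : K) • x i with hu'
  set v' := v - ∑ i, (d i : K) • x i with hv'
  have h1 : B (u' + v') (u' + v') = 0 := hF.max _ (hP.sub.add hc1 hd1) (fun i => by
    rw [map_add, LinearMap.add_apply, hc3, hd3, add_zero])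
  have h2 : B u' u' = 0 := hF.max _ hc1 hc3
  have h3 : B v' v' = 0 := hF.max _ hd1 hd3
  have h4 : B u' v' = 0 := by
    rw [map_add B, LinearMap.add_apply, map_add, map_add, h2, h3, hP.symm v' u' hd1 hc1,
      zero_add, add_zero, ← two_mul] at h1
    exact (mul_eq_zero.1 h1).resolve_left two_ne_zero
  have h5 : v = v' + ∑ i, (d i : K) • x i := by rw [hv', sub_add_cancel]
  rw [h5, map_add, h4, zero_add, map_sum]
  exact Finset.sum_eq_zero fun i _ => by rw [map_smul, hc3, smul_zero]

end Abs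

variable {k : Type u} [Field k] {𝒱 : VarClass k} {ops : CycleOps 𝒱}
  {W : WeilCohomology.{u, v} ops} {Z : 𝒱.Obj} {D : Z.Cycles} {f : Module.End W.K (W.H Z)}
  {h : ℕ} {p q : ℕ}

lemma mid_mem (hdim : Z.dim = 2 * h) {x : W.H Z} (hx : MM W Z 1 0 x) :
    x ∈ algClasses W Z h := by
  rcases AS_wt hx.1 hx.2.2 with rfl | ⟨j, hj, hxj⟩
  · exact alg_zero h
  · obtain rfl : j = h := by omega
    exact hxj

lemma mem_wt {j : ℕ} {w : ℤ} (hw : w = 2 * j - Z.dim) {x : W.H Z} (hx : x ∈ algClasses W Z j) :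
    MM W Z 1 w x := by
  refine ⟨AS.of hx, rfl, ?_⟩
  rw [Fr.wt_gr (alg_gr hx), hw]
  congr 1
  push_cast
  ring

lemma mem_mid (hdim : Z.dim = 2 * h) {x : W.H Z} (hx : x ∈ algClasses W Z h) :
    MM W Z 1 0 x := mem_wt (by omega) hx

lemma st_mem (F : Fr W Z D f) {j l : ℕ} (hjl : j + l = Z.dim) {x : W.H Z}
    (hx : x ∈ algClasses W Z j) : st W Z D f x ∈ algClasses W Z l := by
  apply (F.st_AS (AS.of hx)).alg
  have := (lefStr F).star_mem (i := 2 * j) (by omega) (alg_gr hx)
  rwa [show 2 * Z.dim - 2 * j = 2 * l by omega] at this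

/-- The form and the intersection numbers. -/
lemma tr_eq_bf (F : Fr W Z D f) (a b : W.H Z) :
    W.tr Z (a * b) = bf W Z D f a (st W Z D f b) := by
  rw [bf_apply, st_st F]

lemma mem_spanC {j : ℕ} {x : W.H Z} (hx : x ∈ algClasses W Z j) :
    x ∈ spanCycles W Z (j : ℤ) := by
  obtain ⟨z, hz, rfl⟩ := hx
  exact Pool.Agent.H447.mem_span_cl hz

/-- **The rank of the group of cycles modulo numerical equivalence.** -/
theorem numRank_eq_in (F : Po W Z D f) (hdim : Z.dim = 2 * h)
    (hin : HasIn (MM W Z 1 0) (bf W Z D f) p q) : numRank ops Z h = p + q := by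
  classical
  obtain ⟨ι, _, x, s, hF, rfl, rfl⟩ := hin
  rw [card_split hF.ne, numRank_eq (W := W) (by omega), show Z.dim - h = h by omega]
  have hx : ∀ i, x i ∈ algClasses W Z h := fun i => mid_mem hdim (hF.mem i)
  have hsx : ∀ i, st W Z D f (x i) ∈ algClasses W Z h := fun i =>
    st_mem F.fr (by omega) (hx i)
  let X' : ι → spanCycles W Z (h : ℤ) := fun i => ⟨x i, mem_spanC (hx i)⟩
  let S' : ι → spanCycles W Z (h : ℤ) := fun i => ⟨st W Z D f (x i), mem_spanC (hsx i)⟩
  have hli : LinearIndependent W.K (fun i => pair W Z h h (X' i)) := by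
    rw [Fintype.linearIndependent_iff]
    intro c hc j
    have h1 := congrArg (fun G => G (S' j)) hc
    simp only [LinearMap.sum_apply, LinearMap.smul_apply, LinearMap.zero_apply,
      smul_eq_mul] at h1
    rw [Finset.sum_eq_single j] at h1
    · rw [pair_apply] at h1
      change c j * W.tr Z (x j * st W Z D f (x j)) = 0 at h1
      rw [← bf_apply, hF.sq] at h1
      rcases mul_eq_zero.1 h1 with h2 | h2
      · exact h2
      · exact absurd (by exact_mod_cast h2) (hF.ne j)
    · intro i _ hij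
      rw [pair_apply]
      change c i * W.tr Z (x i * st W Z D f (x j)) = 0
      rw [← bf_apply, hF.orth i j hij, mul_zero]
    · intro h0; exact absurd (Finset.mem_univ _) h0
  rw [← finrank_span_eq_card hli, kRank]
  apply le_antisymm
  · apply Submodule.finrank_mono
    rintro _ ⟨⟨a, ha⟩, rfl⟩
    have ha' := ha
    induction ha' using Submodule.span_induction with
    | mem a ha1 =>
      obtain ⟨r, hr, z, hz, rfl⟩ := ha1
      obtain rfl : r = h := by exact_mod_cast hr
      obtain ⟨c, hc1, -, hc3⟩ := hF.rad (F.rat 1 0) (mem_mid hdim ⟨z, hz, rfl⟩)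
      have h1 : pair W Z r r ⟨W.cl Z z, ha⟩ = ∑ i, (c i : W.K) • pair W Z r r (X' i) := by
        apply dual_ext
        rintro ⟨w, hw⟩
        have h2 : W.tr Z ((W.cl Z z - ∑ i, (c i : W.K) • x i) * W.cl Z w) = 0 := by
          rw [tr_eq_bf F.fr]
          exact hc3 _ (mem_mid hdim (st_mem F.fr (by omega) ⟨w, hw, rfl⟩))
        rw [pair_apply, LinearMap.sum_apply]
        change W.tr Z (W.cl Z z * W.cl Z w) = ∑ i, (c i : W.K) • W.tr Z (x i * W.cl Z w)
        rw [sub_mul, map_sub, Finset.sum_mul, map_sum, sub_eq_zero] at h2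
        rw [h2]
        apply Finset.sum_congr rfl
        intro i _
        rw [smul_mul_assoc, map_smul]
      rw [h1]
      exact Submodule.sum_mem _ fun i _ => Submodule.smul_mem _ _
        (Submodule.subset_span ⟨i, rfl⟩)
    | zero =>
      have e1 : (⟨0, ha⟩ : spanCycles W Z (h : ℤ)) = 0 := rfl
      rw [e1, map_zero]
      exact Submodule.zero_mem _
    | add a b ha1 hb1 h1 h2 =>
      have e1 : (⟨a + b, ha⟩ : spanCycles W Z (h : ℤ)) = ⟨a, ha1⟩ + ⟨b, hb1⟩ := rfl
      rw [e1, map_add]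
      exact Submodule.add_mem _ (h1 ha1) (h2 hb1)
    | smul c a ha1 h1 =>
      have e1 : (⟨c • a, ha⟩ : spanCycles W Z (h : ℤ)) = c • ⟨a, ha1⟩ := rfl
      rw [e1, map_smul]
      exact Submodule.smul_mem _ _ (h1 ha1)
  · apply Submodule.finrank_mono
    rw [Submodule.span_le]
    rintro _ ⟨i, rfl⟩
    exact ⟨_, rfl⟩

lemma in_le_algRank (hdim : Z.dim = 2 * h) (hin : HasIn (MM W Z 1 0) (bf W Z D f) p q) :
    p + q ≤ algRank W Z h :=
  in_le hin (spanCycles W Z (h : ℤ)) fun _ hx => mem_spanC (mid_mem hdim hx)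

/-- The rank of the space of the algebraic classes, if the form is not degenerate on them. -/
theorem algRank_eq_in (F : Po W Z D f) (hdim : Z.dim = 2 * h)
    (hrad : ∀ u ∈ algClasses W Z h, (∀ v ∈ algClasses W Z h, bf W Z D f u v = 0) → u = 0)
    (hin : HasIn (MM W Z 1 0) (bf W Z D f) p q) : algRank W Z h = p + q := by
  classical
  refine le_antisymm ?_ (in_le_algRank hdim hin)
  obtain ⟨ι, _, x, s, hF, rfl, rfl⟩ := hin
  rw [card_split hF.ne]
  have h1 : spanCycles W Z (h : ℤ) ≤ Submodule.span W.K (Set.range x) := by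
    rw [spanCycles, Submodule.span_le]
    rintro _ ⟨r, hr, z, hz, rfl⟩
    obtain rfl : r = h := by exact_mod_cast hr
    obtain ⟨c, hc1, -, hc3⟩ := hF.rad (F.rat 1 0) (mem_mid hdim ⟨z, hz, rfl⟩)
    have h2 := hrad _ (mid_mem hdim hc1) (fun v hv => hc3 v (mem_mid hdim hv))
    rw [sub_eq_zero] at h2
    rw [SetLike.mem_coe, h2]
    exact Submodule.sum_mem _ fun i _ => Submodule.smul_mem _ _ (Submodule.subset_span ⟨i, rfl⟩)
  exact (Submodule.finrank_mono h1).trans (finrank_range_le_card x)

/-- Homological and numerical equivalence coincide: the form is not degenerate. -/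
lemma rad_of_num (F : Fr W Z D f) (hdim : Z.dim = 2 * h) (hnum : HomEqNum W Z) :
    ∀ u ∈ algClasses W Z h, (∀ v ∈ algClasses W Z h, bf W Z D f u v = 0) → u = 0 := by
  rintro _ ⟨z, hz, rfl⟩ h0
  apply hnum h (by omega) z hz
  intro w hw
  have h1 : ((Z.V.degCycle (ops.mul z w) : ℚ) : W.K) = 0 := by
    have h2 := ops.mul_mem hz hw
    rw [show h + (Z.dim - h) = Z.dim by omega] at h2
    rw [← W.tr_cl h2, W.cl_mul, tr_eq_bf F]
    exact h0 _ (st_mem F (by omega) ⟨w, hw, rfl⟩)
  exact_mod_cast h1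

/-- **The conjecture in terms of ranks.** -/
theorem hodge_iff (F : Po W Z D f) (hdim : Z.dim = 2 * h)
    (hin : HasIn (MM W Z 1 0) (bf W Z D f) p q) :
    HodgeType W Z D ↔ p = algRank W Z h := by
  classical
  constructor
  · intro hH
    have h1 := algRank_eq_in F hdim (fun u hu h0 => by
      by_contra hne
      obtain ⟨r, hr, hr'⟩ := F.fr.bf_pos hH (AS.of hu) hne
      rw [h0 u hu] at hr'
      exact hr.ne (by exact_mod_cast hr')) hin
    obtain ⟨ι, _, x, s, hF, hp, hq⟩ := hin
    have h2 : q = 0 := by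
      rw [← hq, Finset.card_eq_zero, Finset.filter_eq_empty_iff]
      intro i _ hi
      have hne : x i ≠ 0 := by
        intro h0
        have h3 := hF.sq i
        rw [h0, map_zero] at h3
        exact hF.ne i (by exact_mod_cast h3.symm)
      obtain ⟨r, hr, hr'⟩ := F.fr.bf_pos hH (hF.mem i).1 hne
      rw [hF.sq] at hr'
      have : s i = r := by exact_mod_cast hr'
      linarith
    rw [h1, h2, add_zero]
  · intro hp
    have hle := in_le_algRank hdim hin
    obtain ⟨ι, _, x, s, hF, hp', hq'⟩ := hin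
    have hq0 : q = 0 := by omega
    have hpos : ∀ i, 0 < s i := by
      intro i
      rw [← hq', Finset.card_eq_zero, Finset.filter_eq_empty_iff] at hq0
      exact lt_of_le_of_ne (not_lt.1 (hq0 (Finset.mem_univ i))) (hF.ne i).symm
    have hcard : Fintype.card ι = algRank W Z h := by
      rw [← card_split hF.ne, hp', hq', hq0, add_zero, hp]
    have hli : LinearIndependent W.K x := linInd (fun i => by
      rw [hF.sq]; exact_mod_cast hF.ne i) hF.orth
    have hspan : Submodule.span W.K (Set.range x) = spanCycles W Z (h : ℤ) := by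
      apply Submodule.eq_of_le_of_finrank_eq
      · rw [Submodule.span_le]
        rintro _ ⟨i, rfl⟩
        exact mem_spanC (mid_mem hdim (hF.mem i))
      · rw [finrank_span_eq_card hli, hcard]; rfl
    have hpd : ∀ u ∈ algClasses W Z h, u ≠ 0 → ∃ r : ℚ, 0 < r ∧ bf W Z D f u u = r := by
      intro u hu hne
      obtain ⟨c, hc1, hc2, hc3⟩ := hF.rad (F.rat 1 0) (mem_mid hdim hu)
      have h1 : u - ∑ i, (c i : W.K) • x i = 0 := by
        have h2 : u - ∑ i, (c i : W.K) • x i ∈ Submodule.span W.K (Set.range x) := by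
          rw [hspan]
          exact mem_spanC (mid_mem hdim hc1)
        obtain ⟨e, he⟩ := (Submodule.mem_span_range_iff_exists_fun W.K).1 h2
        have h3 : ∀ j, e j = 0 := by
          intro j
          have h4 := hc3 (x j) (hF.mem j)
          rw [← he, map_sum, LinearMap.sum_apply, Finset.sum_eq_single j] at h4
          · rw [map_smul, LinearMap.smul_apply, hF.sq, smul_eq_mul] at h4
            rcases mul_eq_zero.1 h4 with h5 | h5
            · exact h5
            · exact absurd (by exact_mod_cast h5) (hF.ne j)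
          · intro i _ hij
            rw [map_smul, LinearMap.smul_apply, hF.orth i j hij, smul_zero]
          · intro h0; exact absurd (Finset.mem_univ _) h0
        rw [← he]
        exact Finset.sum_eq_zero fun j _ => by rw [h3, zero_smul]
      rw [sub_eq_zero] at h1
      refine ⟨∑ i, c i * (c i * s i), ?_, ?_⟩
      · have hnn : ∀ i ∈ univ, 0 ≤ c i * (c i * s i) := fun i _ => by
          rw [← mul_assoc]; exact mul_nonneg (mul_self_nonneg _) (hpos i).le
        refine lt_of_le_of_ne (Finset.sum_nonneg hnn) ?_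
        intro h0
        apply hne
        rw [h1]
        apply Finset.sum_eq_zero
        intro i hi
        have h6 := (Finset.sum_eq_zero_iff_of_nonneg hnn).1 h0.symm i hi
        rw [← mul_assoc] at h6
        have h7 := (mul_eq_zero.1 h6).resolve_right (hpos i).ne'
        rw [mul_self_eq_zero.1 h7, Rat.cast_zero, zero_smul]
      · have h8 : bf W Z D f u u = ∑ i, (c i : W.K) * bf W Z D f u (x i) := by
          conv_lhs => rw [h1]
          rw [map_sum]
          apply Finset.sum_congr rfl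
          intro i _
          rw [map_smul, smul_eq_mul, ← h1]
        rw [h8, Rat.cast_sum]
        apply Finset.sum_congr rfl
        intro i _
        rw [hc2, ← Rat.cast_mul]
    intro j hj z hz hprim hz0
    have hPr : Primitive W Z D j z := ⟨hz, hprim⟩
    set L := LinearMap.mulLeft W.K (W.cl Z D) with hL
    have hmem : (L ^ (h - j)) (W.cl Z z) ∈ algClasses W Z h := by
      have := (ap_alg F.fr).map_L_pow (h - j) (l := j) ⟨z, hz, rfl⟩
      rwa [show j + (h - j) = h by omega] at this
    have hne : (L ^ (h - j)) (W.cl Z z) ≠ 0 := by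
      intro h0
      apply hz0
      refine (hardLef F.fr (2 * j) hj).1 _ (W.cl_mem hz) ?_
      rw [show Z.dim - 2 * j = (h - j) + (h - j) by omega, pow_add, Module.End.mul_apply, h0,
        map_zero]
    obtain ⟨r, hr, hr'⟩ := hpd _ hmem hne
    rw [hL, bf_same F.fr hj hPr hPr (by omega)] at hr'
    have h9 : ((h - j).factorial * ((Z.dim - 2 * j - (h - j)).factorial : ℚ)⁻¹ *
        pairing ops Z D j z z : ℚ) = r := by exact_mod_cast hr'
    have h10 : (0 : ℚ) < (h - j).factorial * ((Z.dim - 2 * j - (h - j)).factorial : ℚ)⁻¹ := by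
      positivity
    have h11 : 0 < pairing ops Z D j z z := by
      rw [← h9] at hr
      exact (mul_pos_iff_of_pos_left h10).1 hr
    exact h11

lemma negN_zero {n : ℕ} (hno : ¬ HasFamily W Z D n (-1) 1) : negN W Z D n = 0 := by
  rw [negN]
  apply Nat.eq_zero_of_le_zero
  apply csSup_le'
  rintro r ⟨z, h1, h2, h3⟩
  by_contra hr
  rw [not_le] at hr
  exact hno ⟨fun _ => z ⟨0, hr⟩, fun _ => h1 _, fun _ => h2 _, fun i j hij =>
    absurd (Subsingleton.elim i j) hij⟩

/-- **The conjecture from the absence of negative classes.** -/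
theorem hodge_of_noneg (F : Po W Z D f)
    (hneg : ∀ j, 2 * j ≤ Z.dim → ¬ HasFamily W Z D j (-1) 1)
    (hnum : HomEqNum W Z) : HodgeType W Z D := by
  classical
  intro j hj z hz hprim hz0
  have hPr : Primitive W Z D j z := ⟨hz, hprim⟩
  change 0 < pairing ops Z D j z z
  by_contra hle
  rw [not_lt] at hle
  obtain ⟨ι, _, x, s, hF, -, hq⟩ := hasIn_wt F.fr (2 * j - Z.dim : ℤ)
  have hq0 : wcnt Z.dim (negN W Z D) (2 * j - Z.dim : ℤ) = 0 := by
    rw [wcnt]
    apply Finset.sum_eq_zero
    intro n hn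
    rw [Finset.mem_range] at hn
    rw [negN_zero (hneg n (by omega)), ite_self]
  rw [hq0, Finset.card_eq_zero, Finset.filter_eq_empty_iff] at hq
  have hpos : ∀ i, 0 < s i := fun i =>
    lt_of_le_of_ne (not_lt.1 (hq (Finset.mem_univ i))) (hF.ne i).symm
  have hu : MM W Z 1 (2 * j - Z.dim : ℤ) (W.cl Z z) := mem_wt rfl ⟨z, hz, rfl⟩
  obtain ⟨c, hc1, hc2, hc3⟩ := hF.rad (F.rat 1 _) hu
  have h1 : bf W Z D f (W.cl Z z) (W.cl Z z) = ((∑ i, c i * (c i * s i) : ℚ) : W.K) := by
    have h2 : bf W Z D f (W.cl Z z) (W.cl Z z) =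
        ∑ i, (c i : W.K) * bf W Z D f (W.cl Z z) (x i) := by
      have h3 := (F.rat 1 _).symm _ _ hc1 hu
      rw [hc3 _ hu, map_sub, map_sum] at h3
      rw [← sub_eq_zero]
      refine Eq.trans ?_ h3.symm
      congr 1
      apply Finset.sum_congr rfl
      intro i _
      rw [map_smul, smul_eq_mul]
    rw [h2, Rat.cast_sum]
    apply Finset.sum_congr rfl
    intro i _
    rw [hc2, ← Rat.cast_mul]
  have h4 := bf_same F.fr hj hPr hPr (j := 0) (Nat.zero_le _)
  rw [pow_zero, Module.End.one_apply, h1] at h4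
  have h5 : (∑ i, c i * (c i * s i) : ℚ) = (Nat.factorial 0 *
      ((Z.dim - 2 * j - 0).factorial : ℚ)⁻¹ * pairing ops Z D j z z : ℚ) := by
    exact_mod_cast h4
  have hnn : ∀ i ∈ univ, 0 ≤ c i * (c i * s i) := fun i _ => by
    rw [← mul_assoc]; exact mul_nonneg (mul_self_nonneg _) (hpos i).le
  have h6 : (∑ i, c i * (c i * s i) : ℚ) = 0 := by
    apply le_antisymm _ (Finset.sum_nonneg hnn)
    rw [h5]
    apply mul_nonpos_of_nonneg_of_nonpos _ hle
    positivity
  have h7 : ∀ i, c i = 0 := by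
    intro i
    have h8 := (Finset.sum_eq_zero_iff_of_nonneg hnn).1 h6 i (Finset.mem_univ i)
    rw [← mul_assoc] at h8
    exact mul_self_eq_zero.1 ((mul_eq_zero.1 h8).resolve_right (hpos i).ne')
  have h9 : ∀ v, MM W Z 1 (2 * j - Z.dim : ℤ) v → bf W Z D f (W.cl Z z) v = 0 := by
    intro v hv
    have h10 := hc3 v hv
    simp only [h7, Rat.cast_zero, zero_smul, Finset.sum_const_zero, sub_zero] at h10
    exact h10
  apply hz0
  apply hnum j (by omega) z hz
  intro w hw
  have h11 : ((Z.V.degCycle (ops.mul z w) : ℚ) : W.K) = 0 := by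
    have h2 := ops.mul_mem hz hw
    rw [show j + (Z.dim - j) = Z.dim by omega] at h2
    rw [← W.tr_cl h2, W.cl_mul, tr_eq_bf F.fr]
    apply h9
    exact mem_wt rfl (st_mem F.fr (by omega) ⟨w, hw, rfl⟩)
  exact_mod_cast h11

end Pool.Agent.K1H12.SL
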