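import Pool.Agent.K1H12.SL.Pow
import Pool.Agent.R940.DFin

/-!
# The law for the signatures of the powers of a variety
-/

open CategoryTheory AlgebraicGeometry Finset Filter Topology

universe u v

namespace Pool.Agent.K1H12.SL

open Pool.Agent.H914 Pool.Agent.H914.VarClass Pool.Agent.H914.VarClass.Obj
  Pool.Agent.H914.WeilCohomology Pool.Agent.H281R3.HT Pool.Agent.W552 Pool.Agent.W539.Ker
open Pool.Agent.Y163 (pw sq Big finrank_pw)
open Pool.Agent.H447 (SignStd)
open Pool.Agent.W534 (numRank)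
open Pool.Agent.R940 (algRank ManyTimes LogTimes d_law growth_any par_of_sign)
open Module (finrank)

variable {k : Type u} [Field k] {𝒱 : VarClass k} {ops : CycleOps 𝒱}
  {W : WeilCohomology.{u, v} ops} {X Z : 𝒱.Obj}

/-- The sign conjecture follows from the Lefschetz standard conjecture. -/
lemma signStd_of_B {D : X.Cycles} (hD : X.IsCyc 1 D) (hHL : HardLefschetz W X D)
    (hB : LefschetzB W X D) : SignStd W X := by
  classical
  obtain ⟨Φ, hΦ, hLam⟩ := lefschetzB_iff_rop.1 hB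
  have h1 : ∀ i, ROp W X 0 (proj (W.isInternal X) i) := fun i =>
    rop_opAlg.proj_mem (W.isInternal X) W_hbd (rop_mulLeft hD) hHL hΦ hLam i
  have h2 : ∀ N : ℕ, ROp W X 0 (∑ i ∈ range N, proj (W.isInternal X) (2 * i)) := by
    intro N
    induction N with
    | zero => rw [Finset.range_zero, Finset.sum_empty]; exact rop_opAlg.zero 0
    | succ N ih => rw [Finset.sum_range_succ]; exact rop_opAlg.add ih (h1 _)
  obtain ⟨Y, ⟨r, hr, z, hz, hY⟩ | ⟨hd', hY⟩, hE⟩ := h2 (X.dim + 1)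
  · obtain rfl : r = X.dim := by omega
    refine ⟨z, hz, ?_⟩
    rw [← hY W, hE]
    intro j a ha
    rw [LinearMap.sum_apply]
    by_cases hj : Even j
    · rw [if_pos hj]
      obtain ⟨l, rfl⟩ := hj
      by_cases hl : l < X.dim + 1
      · rw [Finset.sum_eq_single l]
        · exact proj_same _ (by rwa [two_mul])
        · intro i _ hi
          exact proj_ne _ ha (by omega)
        · intro h0; exact absurd (Finset.mem_range.2 hl) h0
      · rw [W.gr_eq_bot X _ (by omega)] at ha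
        rw [(Submodule.mem_bot _).1 ha]
        simp
    · rw [if_neg hj]
      apply Finset.sum_eq_zero
      intro i _
      exact proj_ne _ ha (by rintro rfl; exact hj (even_two_mul i))
  · omega

lemma wcnt_zero {d h : ℕ} (hd : d = 2 * h) (σ : ℕ → ℕ) :
    wcnt d σ 0 = ∑ n ∈ range (d / 2 + 1), σ n := by
  rw [wcnt]
  apply Finset.sum_congr rfl
  intro n hn
  rw [Finset.mem_range] at hn
  rw [if_pos]
  refine ⟨?_, ?_⟩
  · rw [abs_zero]; omega
  · omega

lemma hasFamily_of_neg {D : Z.Cycles} (h : NegClass W Z D) :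
    ∃ j, 2 * j ≤ Z.dim ∧ HasFamily W Z D j (-1) 1 := by
  obtain ⟨n, hn, z, hz, hz'⟩ := h
  exact ⟨n, hn, fun _ => z, fun _ => hz, fun _ => by linarith, fun i j hij =>
    absurd (Subsingleton.elim i j) hij⟩

lemma neg_of_hasFamily {D : Z.Cycles} {j : ℕ} (hj : 2 * j ≤ Z.dim)
    (h : HasFamily W Z D j (-1) 1) : NegClass W Z D := by
  obtain ⟨z, h1, h2, -⟩ := h
  exact ⟨j, hj, z 0, h1 0, by have := h2 0; linarith⟩

lemma dim_pw (X : 𝒱.Obj) (n : ℕ) : (pw X n).dim = (n + 1) * X.dim := by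
  induction n with
  | zero => rw [zero_add, one_mul]; rfl
  | succ n ih =>
    have : (pw X (n + 1)).dim = X.dim + (pw X n).dim := dim_prod _ _
    rw [this, ih]
    ring

lemma dim_sq (X : 𝒱.Obj) (n : ℕ) : (sq X n).dim = 2 * ((n + 1) * X.dim) := by
  have : (sq X n).dim = (pw X n).dim + (pw X n).dim := dim_prod _ _
  rw [this, dim_pw]
  ring

section

variable {D : X.Cycles} {f : Module.End W.K (W.H X)}

lemma po_sq (F : Po W X D f) (n : ℕ) :
    Po W (sq X n) (dsq ops X D n) (extSum W (fpw W X f n) (fpw W X f n)) :=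
  (po_pw F n).prod (po_pw F n)

lemma in_sq (F : Po W X D f) (n : ℕ) : HasIn (MM W (sq X n) 1 0)
    (bf W (sq X n) (dsq ops X D n) (extSum W (fpw W X f n) (fpw W X f n)))
    (posTot W (sq X n) (dsq ops X D n)) (negTot W (sq X n) (dsq ops X D n)) := by
  have h1 := hasIn_wt (po_sq F n).fr 0
  rw [wcnt_zero (dim_sq X n), wcnt_zero (dim_sq X n)] at h1
  exact h1

lemma numRank_sq_eq (F : Po W X D f) (n : ℕ) : numRank ops (sq X n) ((n + 1) * X.dim) =
    posTot W (sq X n) (dsq ops X D n) + negTot W (sq X n) (dsq ops X D n) :=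
  numRank_eq_in (po_sq F n) (dim_sq X n) (in_sq F n)

lemma finrank_sq (X : 𝒱.Obj) (n : ℕ) : finrank W.K (W.H (sq X n)) = R940.betti W X ^ (2 * n + 2) := by
  have e := kappa W (pw X n) (pw X n)
  have h1 : finrank W.K (W.H (sq X n)) = finrank W.K (W.H (pw X n)) *
      finrank W.K (W.H (pw X n)) := by
    rw [← Module.finrank_tensorProduct]
    exact e.finrank_eq.symm
  rw [h1, finrank_pw, R940.betti]
  ring

/-- **The signatures of the powers, if there is a negative class on some power.** -/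
theorem law_neg (F : Po W X D f) {s : ℚ} (hs : bf W X D f 1 1 = (s : W.K)) (hs0 : 0 < s)
    {κ j : ℕ} (hj : 2 * j ≤ (pw X κ).dim)
    (hneg : HasFamily W (pw X κ) (dpw ops X D κ) j (-1) 1) (n : ℕ) :
    2 ≤ R940.betti W X ^ (κ + 1) ∧
    |(posTot W (sq X n) (dsq ops X D n) : ℝ) - negTot W (sq X n) (dsq ops X D n)| ≤
      (R940.betti W X : ℝ) ^ (2 * n + 2) *
        (1 - 2 / (R940.betti W X : ℝ) ^ (κ + 1)) ^ ((2 * n + 1) / (κ + 1)) := by
  obtain ⟨v, y₁, y₂, s₁, s₂, P⟩ := exists_pair (po_pw F κ) (bf_one_pw F hs κ) (pow_pos hs0 _)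
    hj hneg
  set b := R940.betti W X with hb
  have hbr := P.rank
  rw [finrank_pw] at hbr
  have hb2 : 2 ≤ b ^ (κ + 1) := by rw [hb, R940.betti]; omega
  refine ⟨hb2, ?_⟩
  have hb2' : (2 : ℝ) ≤ (b : ℝ) ^ (κ + 1) := by exact_mod_cast hb2
  have hin := in_sq F n
  set p := posTot W (sq X n) (dsq ops X D n) with hp
  set q := negTot W (sq X n) (dsq ops X D n) with hq
  by_cases hT : (2 * n + 1) / (κ + 1) = 0
  · rw [hT, pow_zero, mul_one]
    have h1 := in_le hin ⊤ (fun _ _ => Submodule.mem_top)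
    rw [finrank_top, finrank_sq] at h1
    have h2 : (p : ℝ) + q ≤ (b : ℝ) ^ (2 * n + 2) := by exact_mod_cast h1
    have h3 : (0 : ℝ) ≤ p := Nat.cast_nonneg _
    have h4 : (0 : ℝ) ≤ q := Nat.cast_nonneg _
    rw [abs_le]
    constructor <;> linarith
  · obtain ⟨t, ht⟩ := Nat.exists_eq_succ_of_ne_zero hT
    rw [Nat.succ_eq_add_one] at ht
    have h1 : (κ + 1) * (t + 1) ≤ 2 * n + 1 := by
      rw [← ht]; exact Nat.mul_div_le _ _
    have h2 := NN_eq κ t
    obtain ⟨i, hi⟩ : ∃ i, i + NN κ t + 1 = n + n + 1 := ⟨2 * n - NN κ t, by omega⟩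
    have h3 := iso_blocks F κ t i
    rw [hi] at h3
    have h4 := (h3.trans (iso_add F n n)).hasIn hin
    have h5 := sig_bound (po_pw F κ) P t (po_pw F i) h4
    rw [finrank_pw, finrank_pw] at h5
    have h6 : |(p : ℝ) - q| ≤ (((finrank W.K (W.H X) ^ (κ + 1) - 2) ^ (t + 1) *
        finrank W.K (W.H X) ^ (i + 1) : ℕ) : ℝ) := by exact_mod_cast h5
    refine h6.trans (le_of_eq ?_)
    rw [ht]
    push_cast
    rw [Nat.cast_sub (by rw [hb, R940.betti] at hb2; exact hb2)]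
    push_cast
    have h7 : (b : ℝ) ^ (2 * n + 2) = ((b : ℝ) ^ (κ + 1)) ^ (t + 1) * (b : ℝ) ^ (i + 1) := by
      rw [← pow_mul, ← pow_add]
      congr 1
      omega
    rw [h7]
    have h8 : (b : ℝ) ^ (κ + 1) * (1 - 2 / (b : ℝ) ^ (κ + 1)) = (b : ℝ) ^ (κ + 1) - 2 := by
      have : (b : ℝ) ^ (κ + 1) ≠ 0 := by positivity
      field_simp
    calc ((finrank W.K (W.H X) : ℝ) ^ (κ + 1) - 2) ^ (t + 1) *
          (finrank W.K (W.H X) : ℝ) ^ (i + 1)
        = ((b : ℝ) ^ (κ + 1) * (1 - 2 / (b : ℝ) ^ (κ + 1))) ^ (t + 1) * (b : ℝ) ^ (i + 1) := by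
          rw [h8]; rfl
      _ = _ := by rw [mul_pow]; ring

end

/-- A power times a geometric sequence. -/
lemma tendsto_floor {θ : ℝ} (h0 : 0 ≤ θ) (h1 : θ < 1) (B c : ℕ) (hc : 0 < c) :
    Tendsto (fun n : ℕ => ((n : ℝ) + 2) ^ B * θ ^ ((2 * n + 1) / c)) atTop (𝓝 0) := by
  set ρ := max θ (1 / 2) with hρ
  have hρ0 : 0 < ρ := lt_of_lt_of_le (by norm_num) (le_max_right _ _)
  have hρ1 : ρ < 1 := max_lt h1 (by norm_num)
  have hdiv : Tendsto (fun n : ℕ => n / c) atTop atTop := Nat.tendsto_div_const_atTop hc.ne'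
  have h2 : Tendsto (fun m : ℕ => (m : ℝ) ^ B * ρ ^ m) atTop (𝓝 0) :=
    tendsto_pow_const_mul_const_pow_of_abs_lt_one B (by rw [abs_of_pos hρ0]; exact hρ1)
  have h3 : Tendsto (fun m : ℕ => ((m : ℝ) + 1) ^ B * ρ ^ (m + 1)) atTop (𝓝 0) := by
    have := h2.comp (tendsto_add_atTop_nat 1)
    refine this.congr fun m => ?_
    simp
  have h4 : Tendsto (fun m : ℕ => ((c : ℝ) + 2) ^ B * ρ⁻¹ * (((m : ℝ) + 1) ^ B * ρ ^ (m + 1)))
      atTop (𝓝 0) := by
    have := h3.const_mul (((c : ℝ) + 2) ^ B * ρ⁻¹)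
    rwa [mul_zero] at this
  refine squeeze_zero (fun n => by positivity) (fun n => ?_) (h4.comp hdiv)
  have h5 : (n : ℝ) + 2 ≤ (c + 2) * ((n / c : ℕ) + 1) := by
    have h6 : n < c * (n / c + 1) := Nat.lt_mul_div_succ n hc
    have h7 : n + 2 ≤ (c + 2) * (n / c + 1) := by nlinarith
    exact_mod_cast h7
  have h8 : θ ^ ((2 * n + 1) / c) ≤ ρ ^ (n / c) := by
    refine (pow_le_pow_left₀ h0 (le_max_left θ (1 / 2)) _).trans ?_
    exact pow_le_pow_of_le_one hρ0.le hρ1.le (Nat.div_le_div_right (by omega))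
  calc ((n : ℝ) + 2) ^ B * θ ^ ((2 * n + 1) / c)
      ≤ (((c : ℝ) + 2) * ((n / c : ℕ) + 1)) ^ B * ρ ^ (n / c) :=
        mul_le_mul (pow_le_pow_left₀ (by positivity) h5 _) h8 (by positivity) (by positivity)
    _ = _ := by
      simp only [Function.comp]
      rw [mul_pow, pow_succ ρ]
      field_simp

section Main

variable {D : X.Cycles}

/-- The value of the form at the fundamental class. -/
lemma exists_one {f : Module.End W.K (W.H X)} (F : Fr W X D f)
    (hpos : 0 < X.V.degCycle (divPow ops D X.dim X.V.fundCycle)) :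
    ∃ s : ℚ, 0 < s ∧ bf W X D f 1 1 = (s : W.K) := by
  have hm : X.IsCyc X.dim (divPow ops D X.dim X.V.fundCycle) := by
    have := divPow_mem (ops := ops) F.hD X.dim X.V.fundCycle_mem
    rwa [zero_add] at this
  have h1 := F.form_prim (j := 0) (Nat.zero_le _) X.V.fundCycle_mem (by
    rw [cl_divPow, W.cl_fund]
    have h1 := pow_L_mem (mulLeft_isHom F.hD) (W.one_mem X) (X.dim - 2 * 0 + 1)
    rw [W.gr_eq_bot X _ (by omega)] at h1
    exact (Submodule.mem_bot _).1 h1)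
  have h2 : X.V.degCycle (ops.mul X.V.fundCycle (divPow ops D X.dim X.V.fundCycle)) =
      X.V.degCycle (divPow ops D X.dim X.V.fundCycle) := by
    have h3 : ((X.V.degCycle (ops.mul X.V.fundCycle
        (divPow ops D X.dim X.V.fundCycle)) : ℚ) : W.K) =
        (X.V.degCycle (divPow ops D X.dim X.V.fundCycle) : ℚ) := by
      have h4 := ops.mul_mem X.V.fundCycle_mem hm
      rw [zero_add] at h4
      rw [← W.tr_cl h4, ← W.tr_cl hm, W.cl_mul, W.cl_fund, one_mul]
    exact_mod_cast h3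
  rw [W.cl_fund] at h1
  refine ⟨_, ?_, h1⟩
  rw [mul_zero, Nat.sub_zero, h2]
  positivity

/-- The proportion of the positive classes. -/
theorem law (hD : X.IsCyc 1 D) (hHL : HardLefschetz W X D) (hB : LefschetzB W X D)
    (hpos : 0 < X.V.degCycle (divPow ops D X.dim X.V.fundCycle)) :
    let p := fun n => posTot W (sq X n) (dsq ops X D n)
    let q := fun n => negTot W (sq X n) (dsq ops X D n)
    let a := fun n => algRank W (sq X n) ((n + 1) * X.dim)
    (∀ n, 0 < a n ∧ p n + q n ≤ a n ∧ (HodgeType W (sq X n) (dsq ops X D n) ↔ p n = a n)) ∧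
    (∀ κ j, 2 * j ≤ (pw X κ).dim → HasFamily W (pw X κ) (dpw ops X D κ) j (-1) 1 →
      2 ≤ R940.betti W X ^ (κ + 1) ∧ ∀ n : ℕ, |(p n : ℝ) - q n| ≤ ((n : ℝ) + 2) ^ (R940.betti W X ^ 2) *
        (1 - 2 / (R940.betti W X : ℝ) ^ (κ + 1)) ^ ((2 * n + 1) / (κ + 1)) * (p n + q n)) ∧
    (∀ κ, ¬ HomEqNum W (pw X κ) → LogTimes (R940.betti W X) (κ + 1) a (fun n => p n + q n)) ∧
    (((∀ m, HodgeType W (pw X m) (dpw ops X D m)) ∧ ∀ n, p n = a n) ∨
     ((∀ m, HomEqNum W (pw X m)) ∧ (∀ n, p n + q n = a n) ∧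
        (∃ κ j, 2 * j ≤ (pw X κ).dim ∧ HasFamily W (pw X κ) (dpw ops X D κ) j (-1) 1) ∧
        Tendsto (fun n => (p n : ℝ) / a n) atTop (𝓝 (1 / 2))) ∨
     ((∃ m, ¬ HomEqNum W (pw X m)) ∧ Tendsto (fun n => (p n : ℝ) / a n) atTop (𝓝 0))) := by
  intro p q a
  obtain ⟨f, G⟩ := exists_gd hD hHL hB
  have F : Po W X D f := po_of_gd G
  obtain ⟨s, hs0, hs⟩ := exists_one F.fr hpos
  have hsign := signStd_of_B hD hHL hB
  obtain ⟨hd1, hd2⟩ := d_law hsign hD (hpos.ne' : Big ops X D)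
  have hnum : ∀ n, numRank ops (sq X n) ((n + 1) * X.dim) = p n + q n := numRank_sq_eq F
  have hgrow : ∀ n : ℕ, (R940.betti W X : ℝ) ^ (2 * n + 2) ≤
      ((n : ℝ) + 2) ^ (R940.betti W X ^ 2) * (p n + q n) := by
    intro n
    have h1 := growth_any (W := W) (par_of_sign hsign) n
    rw [hnum] at h1
    have h2 : (R940.betti W X) ^ (2 * n + 2) ≤ (p n + q n) * (n + 2) ^ (R940.betti W X ^ 2) := by
      refine le_trans (le_of_eq ?_) h1
      rw [R940.betti]; ring
    rw [mul_comm (((n : ℝ) + 2) ^ (R940.betti W X ^ 2))]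
    exact_mod_cast h2
  have hA : ∀ n, 0 < a n ∧ p n + q n ≤ a n ∧
      (HodgeType W (sq X n) (dsq ops X D n) ↔ p n = a n) := by
    intro n
    obtain ⟨h1, h2, -⟩ := hd1 n
    refine ⟨lt_of_lt_of_le h1 h2, ?_, hodge_iff (po_sq F n) (dim_sq X n) (in_sq F n)⟩
    rw [← hnum]; exact h2
  have hN : ∀ κ j, 2 * j ≤ (pw X κ).dim → HasFamily W (pw X κ) (dpw ops X D κ) j (-1) 1 →
      2 ≤ R940.betti W X ^ (κ + 1) ∧ ∀ n : ℕ, |(p n : ℝ) - q n| ≤ ((n : ℝ) + 2) ^ (R940.betti W X ^ 2) *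
        (1 - 2 / (R940.betti W X : ℝ) ^ (κ + 1)) ^ ((2 * n + 1) / (κ + 1)) * (p n + q n) := by
    intro κ j hj hneg
    refine ⟨(law_neg F hs hs0 hj hneg 0).1, fun n => ?_⟩
    obtain ⟨hb2, h1⟩ := law_neg F hs hs0 hj hneg n
    refine h1.trans ?_
    have hb2' : (2 : ℝ) ≤ (R940.betti W X : ℝ) ^ (κ + 1) := by exact_mod_cast hb2
    have h2 : (0 : ℝ) ≤ 1 - 2 / (R940.betti W X : ℝ) ^ (κ + 1) := by
      rw [sub_nonneg, div_le_one (by positivity)]; exact hb2'
    calc _ ≤ (((n : ℝ) + 2) ^ (R940.betti W X ^ 2) * (p n + q n)) *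
          (1 - 2 / (R940.betti W X : ℝ) ^ (κ + 1)) ^ ((2 * n + 1) / (κ + 1)) :=
          mul_le_mul_of_nonneg_right (hgrow n) (pow_nonneg h2 _)
      _ = _ := by ring
  have hL : ∀ κ, ¬ HomEqNum W (pw X κ) →
      LogTimes (R940.betti W X) (κ + 1) a (fun n => p n + q n) := by
    intro κ hκ
    have h1 := ((hd2 κ).resolve_left hκ).2
    have h2 : (fun n => numRank ops (sq X n) ((n + 1) * X.dim)) = fun n => p n + q n :=
      funext hnum
    rw [h2] at h1
    exact h1
  refine ⟨hA, hN, hL, ?_⟩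
  by_cases hhom : ∀ m, HomEqNum W (pw X m)
  swap
  · -- homological and numerical equivalence differ
    right; right
    push Not at hhom
    obtain ⟨κ, hκ⟩ := hhom
    refine ⟨⟨κ, hκ⟩, ?_⟩
    have h1 := hL κ hκ
    set C : ℝ := 32 * ((κ + 1 : ℕ) : ℝ) * (1 + Real.log (R940.betti W X + 1)) with hC
    have hlb : (0 : ℝ) ≤ Real.log (R940.betti W X + 1) := Real.log_nonneg (by
      have : (0 : ℝ) ≤ R940.betti W X := Nat.cast_nonneg _
      linarith)
    have hC0 : 0 < C := by positivity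
    have h2 : Tendsto (fun n : ℕ => C / Real.log ((n : ℝ) + 2)) atTop (𝓝 0) := by
      apply Tendsto.div_atTop tendsto_const_nhds
      apply Real.tendsto_log_atTop.comp
      exact tendsto_atTop_add_const_right _ _ tendsto_natCast_atTop_atTop
    refine squeeze_zero (fun n => by positivity) (fun n => ?_) h2
    have h3 := h1 n
    have hlog : 0 < Real.log ((n : ℝ) + 2) := Real.log_pos (by
      have : (0 : ℝ) ≤ n := Nat.cast_nonneg _
      linarith)
    have ha : (0 : ℝ) < a n := by exact_mod_cast (hA n).1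
    rw [div_le_div_iff₀ ha hlog]
    have h4 : Real.log (n + 2) / C * ((p n + q n : ℕ) : ℝ) ≤ a n := h3
    rw [div_mul_eq_mul_div, div_le_iff₀ hC0] at h4
    have h5 : (p n : ℝ) ≤ ((p n + q n : ℕ) : ℝ) := by push_cast; linarith [Nat.cast_nonneg (α := ℝ) (q n)]
    have h6 := mul_le_mul_of_nonneg_left h5 hlog.le
    linarith
  by_cases hno : ∃ κ j, 2 * j ≤ (pw X κ).dim ∧ HasFamily W (pw X κ) (dpw ops X D κ) j (-1) 1
  · right; left
    have hpq : ∀ n, p n + q n = a n := by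
      intro n
      have h1 : HomEqNum W (sq X n) := (iso_add F n n).num (hhom (n + n + 1))
      exact (algRank_eq_in (po_sq F n) (dim_sq X n)
        (rad_of_num (po_sq F n).fr (dim_sq X n) h1) (in_sq F n)).symm
    refine ⟨hhom, hpq, hno, ?_⟩
    obtain ⟨κ, j, hj, hneg⟩ := hno
    obtain ⟨hb2, h1⟩ := hN κ j hj hneg
    have hb2' : (2 : ℝ) ≤ (R940.betti W X : ℝ) ^ (κ + 1) := by exact_mod_cast hb2
    have hth0 : (0 : ℝ) ≤ 1 - 2 / (R940.betti W X : ℝ) ^ (κ + 1) := by
      rw [sub_nonneg, div_le_one (by positivity)]; exact hb2'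
    have hth1 : 1 - 2 / (R940.betti W X : ℝ) ^ (κ + 1) < 1 := by
      rw [sub_lt_self_iff]; positivity
    have h2 := tendsto_floor hth0 hth1 (R940.betti W X ^ 2) (κ + 1) (Nat.succ_pos κ)
    have h3 : Tendsto (fun n => (p n : ℝ) / a n - 1 / 2) atTop (𝓝 0) := by
      have h2' := h2.div_const 2
      rw [zero_div] at h2'
      refine squeeze_zero_norm (fun n => ?_) h2'
      have ha : (0 : ℝ) < a n := by exact_mod_cast (hA n).1
      have hpqn : (p n : ℝ) + q n = a n := by exact_mod_cast hpq n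
      have h4 := h1 n
      rw [hpqn] at h4
      have h5 : (p n : ℝ) / a n - 1 / 2 = ((p n : ℝ) - q n) / (2 * a n) := by
        rw [← hpqn] at ha ⊢
        field_simp
        ring
      rw [h5, Real.norm_eq_abs, abs_div, abs_of_pos (by positivity : (0 : ℝ) < 2 * a n),
        div_le_div_iff₀ (by positivity) (by norm_num)]
      nlinarith
    have := h3.add_const (1 / 2 : ℝ)
    simpa using this
  · left
    push Not at hno
    have hH : ∀ m, HodgeType W (pw X m) (dpw ops X D m) := fun m =>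
      hodge_of_noneg (po_pw F m) (fun j hj => hno m j hj) (hhom m)
    refine ⟨hH, fun n => ?_⟩
    have h1 : HomEqNum W (sq X n) := (iso_add F n n).num (hhom (n + n + 1))
    have h2 : a n = p n + q n := algRank_eq_in (po_sq F n) (dim_sq X n)
      (rad_of_num (po_sq F n).fr (dim_sq X n) h1) (in_sq F n)
    have h3 := hasIn_wt (po_pw F (n + n + 1)).fr 0
    have h4 : wcnt (pw X (n + n + 1)).dim (negN W (pw X (n + n + 1))
        (dpw ops X D (n + n + 1))) 0 = 0 := by
      rw [wcnt]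
      apply Finset.sum_eq_zero
      intro l hl
      rw [Finset.mem_range] at hl
      rw [negN_zero (hno (n + n + 1) l (by omega)), ite_self]
    rw [h4] at h3
    have h5 := HasIn.unique ((po_sq F n).rat 1 0) (in_sq F n) ((iso_add F n n).symm.hasIn h3)
    rw [h2]
    change _ = _ + negTot W (sq X n) (dsq ops X D n)
    rw [h5.2, add_zero]

end Main

end Pool.Agent.K1H12.SL
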