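import Pool.Agent.K1H12.SL.Count

/-!
# The classes of middle codimension which come from primitive cycles
-/

open CategoryTheory AlgebraicGeometry Finset

universe u v

namespace Pool.Agent.K1H12.SL

open Pool.Agent.H914 Pool.Agent.H914.VarClass Pool.Agent.H914.VarClass.Obj
  Pool.Agent.H914.WeilCohomology Pool.Agent.H281R3.HT Pool.Agent.W552 Pool.Agent.W539.Ker
open Pool.Agent.W534 (numRank numRank_eq kRank pair pair_apply dual_ext)
open Pool.Agent.R940 (algRank)

variable {k : Type u} [Field k] {𝒱 : VarClass k} {ops : CycleOps 𝒱}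
  {W : WeilCohomology.{u, v} ops} {Z : 𝒱.Obj} {D : Z.Cycles} {h : ℕ}

lemma L_pow_kill {z : Z.Cycles} {j : ℕ} (hz : Primitive W Z D j z) {m : ℕ}
    (hm : Z.dim - 2 * j + 1 ≤ m) :
    ((LinearMap.mulLeft W.K (W.cl Z D)) ^ m) (W.cl Z z) = 0 := by
  obtain ⟨l, rfl⟩ := Nat.exists_eq_add_of_le hm
  have h1 := hz.2
  rw [cl_divPow] at h1
  rw [add_comm, pow_add, Module.End.mul_apply, h1, map_zero]

lemma mid_same (hD : Z.IsCyc 1 D) (hdim : Z.dim = 2 * h) {j : ℕ} (hj : j ≤ h) {z w : Z.Cycles}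
    (hz : Primitive W Z D j z) (hw : Primitive W Z D j w) :
    W.tr Z (((LinearMap.mulLeft W.K (W.cl Z D)) ^ (h - j)) (W.cl Z z) *
      ((LinearMap.mulLeft W.K (W.cl Z D)) ^ (h - j)) (W.cl Z w)) =
      (((-1) ^ j * pairing ops Z D j z w : ℚ) : W.K) := by
  rw [L_pow_self hD, ← Module.End.mul_apply, ← pow_add,
    show h - j + (h - j) = Z.dim - 2 * j by omega, Rat.cast_mul,
    pairing_cast (W := W) hD (by omega) hz.1 hw.1, ← mul_assoc]
  push_cast
  rw [← mul_pow, neg_one_mul, neg_neg, one_pow, one_mul]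

lemma mid_cross (hD : Z.IsCyc 1 D) (hdim : Z.dim = 2 * h) {j j' : ℕ} (hj : j ≤ h) (hj' : j' ≤ h)
    (hne : j ≠ j') {z w : Z.Cycles} (hz : Primitive W Z D j z) (hw : Primitive W Z D j' w) :
    W.tr Z (((LinearMap.mulLeft W.K (W.cl Z D)) ^ (h - j)) (W.cl Z z) *
      ((LinearMap.mulLeft W.K (W.cl Z D)) ^ (h - j')) (W.cl Z w)) = 0 := by
  rcases lt_or_gt_of_ne hne with h1 | h1
  · rw [L_pow_self hD, ← Module.End.mul_apply, ← pow_add, L_pow_kill hw (by omega), mul_zero,
      map_zero]
  · rw [← L_pow_self hD, ← Module.End.mul_apply, ← pow_add, L_pow_kill hz (by omega), zero_mul,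
      map_zero]

/-- The classes of middle codimension which come from maximal families of primitive cycles. -/
structure MidFam (W : WeilCohomology.{u, v} ops) (Z : 𝒱.Obj) (D : Z.Cycles) (h : ℕ)
    {ι : Type} [Fintype ι] (y : ι → W.H Z) (c : ι → ℕ) (s : ι → ℚ) : Prop where
  mem : ∀ i, y i ∈ algClasses W Z h
  ne : ∀ i, s i ≠ 0
  orth : ∀ i j, i ≠ j → W.tr Z (y i * y j) = 0
  sq : ∀ i, W.tr Z (y i * y i) = (((-1) ^ (c i) * s i : ℚ) : W.K)
  pos : (univ.filter (fun i => 0 < s i)).card = posTot W Z D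
  neg : (univ.filter (fun i => s i < 0)).card = negTot W Z D
  cross : ∀ j ≤ h, ∀ z, Primitive W Z D j z → ∀ i, c i ≠ j →
    W.tr Z (((LinearMap.mulLeft W.K (W.cl Z D)) ^ (h - j)) (W.cl Z z) * y i) = 0
  rat : ∀ j ≤ h, ∀ z, Primitive W Z D j z → ∀ i,
    ∃ r : ℚ, W.tr Z (((LinearMap.mulLeft W.K (W.cl Z D)) ^ (h - j)) (W.cl Z z) * y i) = r

lemma algClasses_L_pow (hD : Z.IsCyc 1 D) {j : ℕ} (m : ℕ) {z : Z.Cycles} (hz : Z.IsCyc j z) :
    ((LinearMap.mulLeft W.K (W.cl Z D)) ^ m) (W.cl Z z) ∈ algClasses W Z (j + m) := by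
  rw [← cl_divPow]
  exact ⟨_, divPow_mem hD m hz, rfl⟩

theorem exists_midFam (W : WeilCohomology.{u, v} ops) (hD : Z.IsCyc 1 D) (hdim : Z.dim = 2 * h) :
    ∃ (ι : Type) (_ : Fintype ι) (y : ι → W.H Z) (c : ι → ℕ) (s : ι → ℚ),
      MidFam W Z D h y c s := by
  classical
  have hle : ∀ n : Fin (Z.dim / 2 + 1), 2 * (n : ℕ) ≤ Z.dim := fun n => by omega
  have hle' : ∀ n : Fin (Z.dim / 2 + 1), (n : ℕ) ≤ h := fun n => by omega
  choose M x hx using fun n : Fin (Z.dim / 2 + 1) => exists_prim W hD (hle n)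
  set L := LinearMap.mulLeft W.K (W.cl Z D) with hL
  have hpm : ∀ (n : Fin (Z.dim / 2 + 1)) (t : Fin (M n)),
      Primitive W Z D n (x n t : Z.Cycles) := fun n t => (x n t).2
  have hpne : ∀ (n : Fin (Z.dim / 2 + 1)) (t : Fin (M n)),
      pairing ops Z D n (x n t : Z.Cycles) (x n t : Z.Cycles) ≠ 0 := by
    intro n t
    have := (hx n).ne t
    rwa [BP_apply] at this
  refine ⟨Σ n : Fin (Z.dim / 2 + 1), Fin (M n), inferInstance,
    fun p => (L ^ (h - (p.1 : ℕ))) (W.cl Z (x p.1 p.2 : Z.Cycles)), fun p => (p.1 : ℕ),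
    fun p => pairing ops Z D p.1 (x p.1 p.2 : Z.Cycles) (x p.1 p.2 : Z.Cycles),
    ?_, ?_, ?_, ?_, ?_, ?_, ?_, ?_⟩
  · rintro ⟨n, t⟩
    have h1 := algClasses_L_pow (W := W) hD (h - (n : ℕ)) (hpm n t).1
    rwa [show (n : ℕ) + (h - n) = h by have := hle' n; omega] at h1
  · rintro ⟨n, t⟩
    exact hpne n t
  · rintro ⟨n, t⟩ ⟨n', t'⟩ hne
    by_cases hnn : n = n'
    · subst hnn
      have htt : t ≠ t' := by rintro rfl; exact hne rfl
      have h2 : pairing ops Z D n (x n t : Z.Cycles) (x n t' : Z.Cycles) = 0 := by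
        have := (hx n).orth t t' htt
        rwa [BP_apply] at this
      change W.tr Z ((L ^ (h - (n : ℕ))) (W.cl Z (x n t : Z.Cycles)) *
        (L ^ (h - (n : ℕ))) (W.cl Z (x n t' : Z.Cycles))) = 0
      rw [hL, mid_same hD hdim (hle' n) (hpm n t) (hpm n t'), h2, mul_zero, Rat.cast_zero]
    · exact mid_cross hD hdim (hle' n) (hle' n') (fun hc => hnn (Fin.ext hc)) (hpm n t) (hpm n' t')
  · rintro ⟨n, t⟩
    exact mid_same hD hdim (hle' n) (hpm n t) (hpm n t)
  · rw [posTot, Finset.card_filter, Fintype.sum_sigma, Finset.sum_range]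
    apply Finset.sum_congr rfl
    intro n _
    have h1 := posN_eq (W := W) hD (hle n) (hx n)
    rw [posN] at h1
    rw [h1, Finset.card_filter]
  · rw [negTot, Finset.card_filter, Fintype.sum_sigma, Finset.sum_range]
    apply Finset.sum_congr rfl
    intro n _
    have h1 := negN_eq (W := W) hD (hle n) (hx n)
    rw [negN] at h1
    rw [h1, Finset.card_filter]
  · rintro j hj z hz ⟨n, t⟩ hc
    exact mid_cross hD hdim hj (hle' n) (fun h0 => hc h0.symm) hz (hpm n t)
  · rintro j hj z hz ⟨n, t⟩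
    have h1 := algClasses_L_pow (W := W) hD (h - (n : ℕ)) (hpm n t).1
    have h2 := algClasses_L_pow (W := W) hD (h - j) hz.1
    obtain ⟨a, ha, ha'⟩ := h1
    obtain ⟨b, hb, hb'⟩ := h2
    rw [show (n : ℕ) + (h - n) = h by have := hle' n; omega] at ha
    rw [show j + (h - j) = h by omega] at hb
    have h3 := ops.mul_mem hb ha
    rw [show h + h = Z.dim by omega] at h3
    refine ⟨Z.V.degCycle (ops.mul b a), ?_⟩
    change W.tr Z ((L ^ (h - j)) (W.cl Z z) *
        (L ^ (h - (n : ℕ))) (W.cl Z (x n t : Z.Cycles))) = _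
    rw [← W.tr_cl h3, W.cl_mul, ha', hb']

variable {ι : Type} [Fintype ι] {y : ι → W.H Z} {c : ι → ℕ} {s : ι → ℚ}

lemma MidFam.sq_ne (F : MidFam W Z D h y c s) (i : ι) : W.tr Z (y i * y i) ≠ 0 := by
  rw [F.sq]
  have : ((-1) ^ (c i) * s i : ℚ) ≠ 0 := mul_ne_zero (pow_ne_zero _ (by norm_num)) (F.ne i)
  exact_mod_cast this

lemma MidFam.coord (F : MidFam W Z D h y c s) (e : ι → W.K) (j : ι) :
    W.tr Z ((∑ i, e i • y i) * y j) = e j * W.tr Z (y j * y j) := by
  classical
  rw [Finset.sum_mul, map_sum, Finset.sum_eq_single j]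
  · rw [smul_mul_assoc, map_smul, smul_eq_mul]
  · intro i _ hij
    rw [smul_mul_assoc, map_smul, F.orth i j hij, smul_zero]
  · intro h0; exact absurd (Finset.mem_univ _) h0

lemma MidFam.linInd (F : MidFam W Z D h y c s) : LinearIndependent W.K y := by
  rw [Fintype.linearIndependent_iff]
  intro e he j
  have h1 := F.coord e j
  rw [he, zero_mul, map_zero] at h1
  exact (mul_eq_zero.1 h1.symm).resolve_right (F.sq_ne j)

lemma MidFam.card (F : MidFam W Z D h y c s) :
    posTot W Z D + negTot W Z D = Fintype.card ι := by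
  rw [← F.pos, ← F.neg]
  exact card_split F.ne

lemma MidFam.card_le (F : MidFam W Z D h y c s) (hdim : Z.dim = 2 * h) :
    Fintype.card ι ≤ numRank ops Z h := by
  classical
  rw [numRank_eq (W := W) (by omega), show Z.dim - h = h by omega]
  let X' : ι → spanCycles W Z (h : ℤ) := fun i => ⟨y i, mem_spanC (F.mem i)⟩
  have hli : LinearIndependent W.K (fun i => pair W Z h h (X' i)) := by
    rw [Fintype.linearIndependent_iff]
    intro e he j
    have h1 := congrArg (fun G => G (X' j)) he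
    simp only [LinearMap.sum_apply, LinearMap.smul_apply, LinearMap.zero_apply,
      smul_eq_mul] at h1
    rw [Finset.sum_eq_single j] at h1
    · rw [pair_apply] at h1
      change e j * W.tr Z (y j * y j) = 0 at h1
      exact (mul_eq_zero.1 h1).resolve_right (F.sq_ne j)
    · intro i _ hij
      rw [pair_apply]
      change e i * W.tr Z (y i * y j) = 0
      rw [F.orth i j hij, mul_zero]
    · intro h0; exact absurd (Finset.mem_univ _) h0
  rw [← finrank_span_eq_card hli, kRank]
  apply Submodule.finrank_mono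
  rw [Submodule.span_le]
  rintro _ ⟨i, rfl⟩
  exact ⟨_, rfl⟩

/-- The number of the squares is at most the rank modulo numerical equivalence. -/
theorem squares_le_numRank (W : WeilCohomology.{u, v} ops) (hD : Z.IsCyc 1 D)
    (hdim : Z.dim = 2 * h) : posTot W Z D + negTot W Z D ≤ numRank ops Z h := by
  obtain ⟨ι, _, y, c, s, F⟩ := exists_midFam W hD hdim
  rw [F.card]
  exact F.card_le hdim

/-- If all algebraic classes of middle codimension come from positive squares then the conjecture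
holds. -/
theorem hodge_of_posTot (hD : Z.IsCyc 1 D) (hHL : HardLefschetz W Z D) (hdim : Z.dim = 2 * h)
    (hle : numRank ops Z h ≤ algRank W Z h) (hp : posTot W Z D = algRank W Z h) :
    HodgeType W Z D := by
  classical
  obtain ⟨ι, _, y, c, s, F⟩ := exists_midFam W hD hdim
  have h1 := F.card
  have h2 := F.card_le hdim
  have hneg : negTot W Z D = 0 := by omega
  have hcard : Fintype.card ι = algRank W Z h := by omega
  have hpos : ∀ i, 0 < s i := by
    intro i
    have h3 := F.neg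
    rw [hneg, Finset.card_eq_zero, Finset.filter_eq_empty_iff] at h3
    exact lt_of_le_of_ne (not_lt.1 (h3 (Finset.mem_univ i))) (F.ne i).symm
  have hspan : Submodule.span W.K (Set.range y) = spanCycles W Z (h : ℤ) := by
    apply Submodule.eq_of_le_of_finrank_eq
    · rw [Submodule.span_le]
      rintro _ ⟨i, rfl⟩
      exact mem_spanC (F.mem i)
    · rw [finrank_span_eq_card F.linInd, hcard]; rfl
  intro j hj z hz hprim hz0
  have hPr : Primitive W Z D j z := ⟨hz, hprim⟩
  have hjh : j ≤ h := by omega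
  set L := LinearMap.mulLeft W.K (W.cl Z D) with hL
  set u := (L ^ (h - j)) (W.cl Z z) with hu
  have hmem : u ∈ algClasses W Z h := by
    have := algClasses_L_pow (W := W) hD (h - j) hz
    rwa [show j + (h - j) = h by omega] at this
  have hne : u ≠ 0 := by
    intro h0
    apply hz0
    refine (hHL (2 * j) hj).1 _ (W.cl_mem hz) ?_
    rw [show Z.dim - 2 * j = (h - j) + (h - j) by omega, pow_add, Module.End.mul_apply, ← hL,
      ← hu, h0, map_zero]
  have hus : u ∈ Submodule.span W.K (Set.range y) := by rw [hspan]; exact mem_spanC hmem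
  obtain ⟨e, he⟩ := (Submodule.mem_span_range_iff_exists_fun W.K).1 hus
  -- the coefficients are rational
  have hcoef : ∀ i, ∃ r : ℚ, e i = r ∧ (r ≠ 0 → c i = j) := by
    intro i
    obtain ⟨r, hr⟩ := F.rat j hjh z hPr i
    have h3 := F.coord e i
    rw [he, hu, hL] at h3
    refine ⟨r / ((-1) ^ (c i) * s i), ?_, ?_⟩
    · rw [hr, F.sq] at h3
      rw [Rat.cast_div, h3, mul_div_assoc, div_self, mul_one]
      rw [← F.sq]; exact F.sq_ne i
    · intro h4
      by_contra h5
      apply h4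
      have h6 := F.cross j hjh z hPr i h5
      rw [hr] at h6
      have : r = 0 := by exact_mod_cast h6
      rw [this, zero_div]
  choose r hr hrc using hcoef
  have hval : W.tr Z (u * u) = ((∑ i, r i * r i * ((-1) ^ j * s i) : ℚ) : W.K) := by
    have h3 : W.tr Z (u * u) = ∑ i, e i * W.tr Z (u * y i) := by
      conv_lhs => rw [← he]
      rw [Finset.mul_sum, map_sum]
      apply Finset.sum_congr rfl
      intro i _
      rw [mul_smul_comm, map_smul, smul_eq_mul, he]
    rw [h3, Rat.cast_sum]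
    apply Finset.sum_congr rfl
    intro i _
    have h4 := F.coord e i
    rw [he] at h4
    rw [h4, hr, F.sq]
    by_cases h5 : r i = 0
    · rw [h5]; simp
    · rw [hrc i h5]; push_cast; ring
  have hval2 := mid_same hD hdim hjh hPr hPr
  rw [← hL, ← hu, hval] at hval2
  have h6 : (∑ i, r i * r i * ((-1) ^ j * s i) : ℚ) = (-1) ^ j * pairing ops Z D j z z := by
    exact_mod_cast hval2
  have h7 : pairing ops Z D j z z = ∑ i, r i * r i * s i := by
    have h8 : ((-1 : ℚ) ^ j) * ((-1) ^ j) = 1 := by rw [← mul_pow]; norm_num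
    calc pairing ops Z D j z z = ((-1 : ℚ) ^ j * ((-1) ^ j)) * pairing ops Z D j z z := by
          rw [h8, one_mul]
      _ = (-1) ^ j * ∑ i, r i * r i * ((-1) ^ j * s i) := by rw [h6, mul_assoc]
      _ = ∑ i, ((-1 : ℚ) ^ j * ((-1) ^ j)) * (r i * r i * s i) := by
          rw [Finset.mul_sum]
          apply Finset.sum_congr rfl
          intro i _
          ring
      _ = _ := by simp only [h8, one_mul]
  change 0 < pairing ops Z D j z z
  rw [h7]
  have hnn : ∀ i ∈ univ, 0 ≤ r i * r i * s i := fun i _ =>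
    mul_nonneg (mul_self_nonneg _) (hpos i).le
  refine lt_of_le_of_ne (Finset.sum_nonneg hnn) ?_
  intro h0
  apply hne
  rw [← he]
  apply Finset.sum_eq_zero
  intro i hi
  have h9 := (Finset.sum_eq_zero_iff_of_nonneg hnn).1 h0.symm i hi
  have h10 := (mul_eq_zero.1 h9).resolve_right (hpos i).ne'
  rw [hr, mul_self_eq_zero.1 h10, Rat.cast_zero, zero_smul]

end Pool.Agent.K1H12.SL
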