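import Pool.Agent.H447R3.DegB
import Pool.Agent.TH132.A.HLf
import Pool.Agent.K1H12.SL.Mid
import Pool.Agent.K1H12.SL.Law

/-!
# The squares on the powers of a variety, without the conjecture B
-/

open CategoryTheory AlgebraicGeometry Finset Filter Topology

universe u v

namespace Pool.Agent.K1H12.SL

section DB

open Pool.Agent.H914 VarClass Obj WeilCohomology Pool.Agent.H447

variable {k : Type u} [Field k] {𝒱 : VarClass k} {ops : CycleOps 𝒱}
  {W : WeilCohomology.{u, v} ops} {X : 𝒱.Obj}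

/-- If homological and numerical equivalence coincide on `X × X` then the conjecture B holds
for `X`. -/
theorem b_of_d {D : X.Cycles} (hD : X.IsCyc 1 D) (hHL : HardLefschetz W X D)
    (hnum : HomEqNum W (X.prod X)) : LefschetzB W X D := by
  apply lefschetzB_of_homEqNumIn hD hHL
  intro z hz h0
  by_cases hn : X.dim = 0
  · have h1 := W.cl_mem hz
    rw [W.gr_eq_bot (X.prod X) _ (by rw [dim_prod]; omega)] at h1
    exact (Submodule.mem_bot _).1 h1
  · exact hnum (X.dim + 1) (by rw [dim_prod]; omega) z hz h0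

end DB

open Pool.Agent.H914 Pool.Agent.H914.VarClass Pool.Agent.H914.VarClass.Obj
  Pool.Agent.H914.WeilCohomology Pool.Agent.H281R3.HT Pool.Agent.W552 Pool.Agent.W539.Ker
open Pool.Agent.Y163 (pw sq Big)
open Pool.Agent.H447 (SignStd)
open Pool.Agent.W534 (numRank)
open Pool.Agent.R940 (algRank LogTimes d_law)

variable {k : Type u} [Field k] {𝒱 : VarClass k} {ops : CycleOps 𝒱}
  {W : WeilCohomology.{u, v} ops} {X : 𝒱.Obj} {D : X.Cycles}

/-- The hard Lefschetz theorem for products. -/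
theorem hl_prod {X Y : 𝒱.Obj} {D : X.Cycles} {E : Y.Cycles} (hD : X.IsCyc 1 D)
    (hE : Y.IsCyc 1 E) (h1 : HardLefschetz W X D) (h2 : HardLefschetz W Y E) :
    HardLefschetz W (X.prod Y) (ops.pull (fst X Y) D + ops.pull (snd X Y) E) := by
  obtain ⟨f, tf⟩ := TH132.A.exists_low hD h1
  obtain ⟨g, tg⟩ := TH132.A.exists_low hE h2
  have t := TH132.A.low_prod hE tf tg
  refine TH132.A.hardLefschetz_of_inj (SmVar.IsCyc.add (ops.pull_mem _ hD) (ops.pull_mem _ hE))
    fun i hi a ha h0 => ?_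
  by_contra ha0
  refine Sl2.e_pow_inj t (x := a) (M := (X.prod Y).dim - i) ?_ ha0 le_rfl h0
  rw [wt, scal_apply _ _ ha, node]
  congr 1
  rw [Nat.cast_sub hi]
  push_cast
  ring

lemma dpw_mem (hD : X.IsCyc 1 D) (n : ℕ) : (pw X n).IsCyc 1 (dpw ops X D n) := by
  induction n with
  | zero => exact hD
  | succ n ih => exact SmVar.IsCyc.add (ops.pull_mem _ hD) (ops.pull_mem _ ih)

lemma dsq_mem (hD : X.IsCyc 1 D) (n : ℕ) : (sq X n).IsCyc 1 (dsq ops X D n) :=
  SmVar.IsCyc.add (ops.pull_mem _ (dpw_mem hD n)) (ops.pull_mem _ (dpw_mem hD n))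

lemma hl_pw (hD : X.IsCyc 1 D) (hHL : HardLefschetz W X D) (n : ℕ) :
    HardLefschetz W (pw X n) (dpw ops X D n) := by
  induction n with
  | zero => exact hHL
  | succ n ih => exact hl_prod hD (dpw_mem hD n) hHL ih

lemma hl_sq (hD : X.IsCyc 1 D) (hHL : HardLefschetz W X D) (n : ℕ) :
    HardLefschetz W (sq X n) (dsq ops X D n) :=
  hl_prod (dpw_mem hD n) (dpw_mem hD n) (hl_pw hD hHL n) (hl_pw hD hHL n)

/-- The squares when homological and numerical equivalence differ on some power. -/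
theorem log_of_not_hom (hS : SignStd W X) (hD : X.IsCyc 1 D) (hbig : Big ops X D) {κ : ℕ}
    (hκ : ¬ HomEqNum W (pw X κ)) (n : ℕ) :
    Real.log ((n : ℝ) + 2) * ((posTot W (sq X n) (dsq ops X D n) : ℝ) +
      negTot W (sq X n) (dsq ops X D n)) ≤
      32 * ((κ : ℝ) + 1) * (1 + Real.log ((R940.betti W X : ℝ) + 1)) *
        algRank W (sq X n) ((n + 1) * X.dim) := by
  obtain ⟨hd1, hd2⟩ := d_law hS hD hbig
  have h1 := ((hd2 κ).resolve_left hκ).2
  have hlb : (0 : ℝ) ≤ Real.log (R940.betti W X + 1) := Real.log_nonneg (by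
    have : (0 : ℝ) ≤ R940.betti W X := Nat.cast_nonneg _
    linarith)
  have h3 := h1 n
  have hlog : 0 < Real.log ((n : ℝ) + 2) := Real.log_pos (by
    have : (0 : ℝ) ≤ n := Nat.cast_nonneg _
    linarith)
  have h4 : Real.log (n + 2) / (32 * ((κ + 1 : ℕ) : ℝ) * (1 + Real.log (R940.betti W X + 1))) *
      (numRank ops (sq X n) ((n + 1) * X.dim) : ℝ) ≤
      algRank W (sq X n) ((n + 1) * X.dim) := h3
  rw [div_mul_eq_mul_div, div_le_iff₀ (by positivity)] at h4
  have h5 : ((posTot W (sq X n) (dsq ops X D n) + negTot W (sq X n) (dsq ops X D n) : ℕ) : ℝ) ≤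
      (numRank ops (sq X n) ((n + 1) * X.dim) : ℝ) := by
    exact_mod_cast squares_le_numRank W (dsq_mem hD n) (dim_sq X n)
  have h6 := mul_le_mul_of_nonneg_left h5 hlog.le
  push_cast at h4 h6
  calc _ ≤ _ := h6
    _ ≤ _ := h4
    _ = _ := by ring

lemma tendsto_of_log {s a : ℕ → ℝ} {C : ℝ} (hs : ∀ n, 0 ≤ s n) (ha : ∀ n, 0 < a n)
    (h : ∀ n : ℕ, Real.log ((n : ℝ) + 2) * s n ≤ C * a n) :
    Tendsto (fun n => s n / a n) atTop (𝓝 0) := by
  have h2 : Tendsto (fun n : ℕ => C / Real.log ((n : ℝ) + 2)) atTop (𝓝 0) := by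
    apply Tendsto.div_atTop tendsto_const_nhds
    apply Real.tendsto_log_atTop.comp
    exact tendsto_atTop_add_const_right _ _ tendsto_natCast_atTop_atTop
  refine squeeze_zero (fun n => div_nonneg (hs n) (ha n).le) (fun n => ?_) h2
  have hlog : 0 < Real.log ((n : ℝ) + 2) := Real.log_pos (by
    have : (0 : ℝ) ≤ n := Nat.cast_nonneg _
    linarith)
  rw [div_le_div_iff₀ (ha n) hlog, mul_comm]
  exact h n

/-- **The squares on the powers of a variety.** -/
theorem law2 (hD : X.IsCyc 1 D) (hHL : HardLefschetz W X D) (hS : SignStd W X)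
    (hpos : 0 < X.V.degCycle (divPow ops D X.dim X.V.fundCycle)) :
    let b := R940.betti W X
    let p := fun n => posTot W (sq X n) (dsq ops X D n)
    let q := fun n => negTot W (sq X n) (dsq ops X D n)
    let a := fun n => algRank W (sq X n) ((n + 1) * X.dim)
    (∀ n, 0 < a n ∧ p n + q n ≤ a n ∧ (p n = a n → HodgeType W (sq X n) (dsq ops X D n))) ∧
    (((∀ m, LefschetzB W (pw X m) (dpw ops X D m) ∧ HomEqNum W (pw X m) ∧
        HodgeType W (pw X m) (dpw ops X D m)) ∧ ∀ n, p n = a n) ∨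
      ((∀ m, LefschetzB W (pw X m) (dpw ops X D m) ∧ HomEqNum W (pw X m)) ∧
        (∀ n, p n + q n = a n) ∧ (∃ κ, NegClass W (pw X κ) (dpw ops X D κ)) ∧
        (∀ κ, NegClass W (pw X κ) (dpw ops X D κ) → ∀ n : ℕ,
          |(p n : ℝ) - q n| ≤ ((n : ℝ) + 2) ^ (b ^ 2) *
            (1 - 2 / (b : ℝ) ^ (κ + 1)) ^ ((2 * n + 1) / (κ + 1)) * a n) ∧
        Tendsto (fun n => (p n : ℝ) / a n) atTop (𝓝 (1 / 2))) ∨
      ((∃ κ, ¬ HomEqNum W (pw X κ)) ∧
        (∀ κ, ¬ HomEqNum W (pw X κ) → ∀ n : ℕ, Real.log ((n : ℝ) + 2) * ((p n : ℝ) + q n) ≤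
          32 * ((κ : ℝ) + 1) * (1 + Real.log ((b : ℝ) + 1)) * a n) ∧
        Tendsto (fun n => ((p n : ℝ) + q n) / a n) atTop (𝓝 0))) := by
  intro b p q a
  have hbig : Big ops X D := hpos.ne'
  obtain ⟨hd1, -⟩ := d_law hS hD hbig
  have hA : ∀ n, 0 < a n ∧ p n + q n ≤ a n ∧
      (p n = a n → HodgeType W (sq X n) (dsq ops X D n)) := fun n =>
    ⟨lt_of_lt_of_le (hd1 n).1 (hd1 n).2.1,
      (squares_le_numRank W (dsq_mem hD n) (dim_sq X n)).trans (hd1 n).2.1,
      fun h => hodge_of_posTot (dsq_mem hD n) (hl_sq hD hHL n) (dim_sq X n) (hd1 n).2.1 h⟩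
  refine ⟨hA, ?_⟩
  by_cases hhom : ∀ m, HomEqNum W (pw X m)
  swap
  · right; right
    push Not at hhom
    obtain ⟨κ, hκ⟩ := hhom
    refine ⟨⟨κ, hκ⟩, fun κ hκ n => log_of_not_hom hS hD hbig hκ n, ?_⟩
    have hlb : (0 : ℝ) ≤ Real.log ((R940.betti W X : ℝ) + 1) := Real.log_nonneg (by
      have : (0 : ℝ) ≤ R940.betti W X := Nat.cast_nonneg _
      linarith)
    exact tendsto_of_log (fun n => by positivity)
      (fun n => by exact_mod_cast (hA n).1) (fun n => log_of_not_hom hS hD hbig hκ n)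
  have hsq : ∀ m, LefschetzB W (pw X m) (dpw ops X D m) := by
    have hB : LefschetzB W X D := b_of_d hD hHL (hhom 1)
    obtain ⟨f, G⟩ := exists_gd hD hHL hB
    have F : Po W X D f := po_of_gd G
    intro m
    exact b_of_d (dpw_mem hD m) (hl_pw hD hHL m) ((iso_add F m m).num (hhom (m + m + 1)))
  obtain ⟨-, h2, -, h4⟩ := law hD hHL (hsq 0) hpos
  rcases h4 with ⟨h5, h6⟩ | ⟨h5, h6, ⟨κ, j, hj, hneg⟩, h8⟩ | ⟨⟨m, hm⟩, -⟩
  · exact Or.inl ⟨fun m => ⟨hsq m, hhom m, h5 m⟩, h6⟩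
  · refine Or.inr (Or.inl ⟨fun m => ⟨hsq m, h5 m⟩, h6, ⟨κ, neg_of_hasFamily hj hneg⟩, ?_, h8⟩)
    intro κ hκ n
    obtain ⟨j, hj, hneg⟩ := hasFamily_of_neg hκ
    have h9 := (h2 κ j hj hneg).2 n
    have h10 : ((p n : ℝ) + q n) = a n := by exact_mod_cast h6 n
    rw [← h10]
    exact h9
  · exact absurd (hhom m) hm

/-- **The test.** -/
theorem law2_test (hD : X.IsCyc 1 D) (hHL : HardLefschetz W X D) (hS : SignStd W X)
    (hpos : 0 < X.V.degCycle (divPow ops D X.dim X.V.fundCycle)) :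
    (∀ m, LefschetzB W (pw X m) (dpw ops X D m) ∧ HomEqNum W (pw X m) ∧
        HodgeType W (pw X m) (dpw ops X D m)) ↔
      ∃ ε : ℝ, 0 < ε ∧ ∃ᶠ n in atTop, (1 / 2 + ε) * (algRank W (sq X n) ((n + 1) * X.dim) : ℝ) ≤
        posTot W (sq X n) (dsq ops X D n) := by
  obtain ⟨hA, h1 | ⟨h2, h3, ⟨κ, hκ⟩, h4, h5⟩ | ⟨⟨κ, hκ⟩, h3, h4⟩⟩ := law2 hD hHL hS hpos
  · refine ⟨fun _ => ⟨1 / 2, by norm_num, Filter.Frequently.of_forall fun n => ?_⟩, fun _ => h1.1⟩
    have h2 := h1.2 n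
    have h3 : (algRank W (sq X n) ((n + 1) * X.dim) : ℝ) =
      posTot W (sq X n) (dsq ops X D n) := by exact_mod_cast h2.symm
    rw [h3]
    linarith
  · constructor
    · intro h6
      obtain ⟨j, hj, z, hz, hneg⟩ := hκ
      exfalso
      have h7 := (h6 κ).2.2 j hj z hz.1 hz.2
      by_cases h8 : W.cl _ z = 0
      · have h9 := pairing_cast (W := W) (dpw_mem (ops := ops) hD κ) hj hz.1 hz.1
        rw [h8, zero_mul, map_zero, mul_zero] at h9
        have : pairing ops (pw X κ) (dpw ops X D κ) j z z = 0 := by exact_mod_cast h9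
        rw [this] at hneg
        exact lt_irrefl _ hneg
      · exact absurd (h7 h8) (not_lt.2 hneg.le)
    · rintro ⟨ε, hε, hf⟩
      exfalso
      have h6 : ∀ᶠ n in atTop, (posTot W (sq X n) (dsq ops X D n) : ℝ) /
          algRank W (sq X n) ((n + 1) * X.dim) < 1 / 2 + ε :=
        h5.eventually_lt_const (by linarith)
      obtain ⟨n, hn1, hn2⟩ := (hf.and_eventually h6).exists
      have ha : (0 : ℝ) < algRank W (sq X n) ((n + 1) * X.dim) := by exact_mod_cast (hA n).1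
      rw [div_lt_iff₀ ha] at hn2
      linarith
  · constructor
    · intro h6
      exact absurd (h6 κ).2.1 hκ
    · rintro ⟨ε, hε, hf⟩
      exfalso
      have h6 := h4.eventually_lt_const (show (0 : ℝ) < 1 / 2 + ε by linarith)
      obtain ⟨n, hn1, hn2⟩ := (hf.and_eventually h6).exists
      have ha : (0 : ℝ) < algRank W (sq X n) ((n + 1) * X.dim) := by exact_mod_cast (hA n).1
      rw [div_lt_iff₀ ha] at hn2
      have hq : (0 : ℝ) ≤ negTot W (sq X n) (dsq ops X D n) := Nat.cast_nonneg _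
      linarith

end Pool.Agent.K1H12.SL
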