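import Pool.Agent.W539.Ker.Defs
import Pool.Agent.R940.DDefs

/-!
# The numbers of positive and of negative primitive classes on the powers of a variety
-/

open CategoryTheory AlgebraicGeometry Finset

universe u v

namespace Pool.Agent.K1H12.SL

open Pool.Agent.H914 Pool.Agent.H914.VarClass Pool.Agent.H914.VarClass.Obj
  Pool.Agent.H914.WeilCohomology Pool.Agent.W539.Ker
open Pool.Agent.Y163 (pw sq)

variable {k : Type u} [Field k] {𝒱 : VarClass k} {ops : CycleOps 𝒱}

/-- The divisor on the power `X × (X × ⋯ × X)` with `n + 1` factors which is the sum of the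
pull-backs of the divisor `D` under the `n + 1` projections. -/
noncomputable def dpw (ops : CycleOps 𝒱) (X : 𝒱.Obj) (D : X.Cycles) : ∀ n, (pw X n).Cycles
  | 0 => D
  | n + 1 => ops.pull (fst X (pw X n)) D + ops.pull (snd X (pw X n)) (dpw ops X D n)

/-- The sum of the pull-backs of the divisor `D` on the square of the power of `X` with `n + 1`
factors, so on the product of `2 n + 2` copies of `X`. -/
noncomputable def dsq (ops : CycleOps 𝒱) (X : 𝒱.Obj) (D : X.Cycles) (n : ℕ) :
    (sq X n).Cycles :=
  ops.pull (fst (pw X n) (pw X n)) (dpw ops X D n) +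
    ops.pull (snd (pw X n) (pw X n)) (dpw ops X D n)

/-- The sum over the codimensions `n ≤ dim Z / 2` of the largest number of pairwise orthogonal
primitive cycles of codimension `n` on `Z` with positive square, for the pairing
`⟨z, w⟩ = (-1) ^ n deg (z · D ^ (dim Z - 2 n) · w)`. -/
noncomputable def posTot (W : WeilCohomology.{u, v} ops) (Z : 𝒱.Obj) (D : Z.Cycles) : ℕ :=
  ∑ n ∈ range (Z.dim / 2 + 1), sSup {r | HasFamily W Z D n 1 r}

/-- The sum over the codimensions `n ≤ dim Z / 2` of the largest number of pairwise orthogonal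
primitive cycles of codimension `n` on `Z` with negative square, for the pairing
`⟨z, w⟩ = (-1) ^ n deg (z · D ^ (dim Z - 2 n) · w)`. -/
noncomputable def negTot (W : WeilCohomology.{u, v} ops) (Z : 𝒱.Obj) (D : Z.Cycles) : ℕ :=
  ∑ n ∈ range (Z.dim / 2 + 1), sSup {r | HasFamily W Z D n (-1) r}

/-- There is a primitive cycle `z` on `Z`, of some codimension `n ≤ dim Z / 2`, with
`(-1) ^ n deg (z · D ^ (dim Z - 2 n) · z) < 0`: the standard conjecture of Hodge type fails for
`Z` and `D` modulo numerical equivalence. -/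
def NegClass (W : WeilCohomology.{u, v} ops) (Z : 𝒱.Obj) (D : Z.Cycles) : Prop :=
  ∃ n, 2 * n ≤ Z.dim ∧ ∃ z, Primitive W Z D n z ∧ pairing ops Z D n z z < 0

end Pool.Agent.K1H12.SL
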