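import Pool.Agent.K1H12.SL.Chain

/-!
# The hard Lefschetz theorem from the lowering operator
-/

open CategoryTheory AlgebraicGeometry Finset

universe u v

namespace Pool.Agent.K1H12.SL

open Pool.Agent.H914 Pool.Agent.H914.VarClass Pool.Agent.H914.VarClass.Obj
  Pool.Agent.H914.WeilCohomology Pool.Agent.H281R3.HT Pool.Agent.W552 Pool.Agent.W539.Ker

variable {k : Type u} [Field k] {𝒱 : VarClass k} {ops : CycleOps 𝒱}
  {W : WeilCohomology.{u, v} ops} {X Y : 𝒱.Obj} {D : X.Cycles} {f : Module.End W.K (W.H X)}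

section

variable (F : Fr W X D f)

include F

lemma surj_L {i : ℕ} (hi : i ≤ X.dim) {b : W.H X} (hb : b ∈ W.gr X (2 * X.dim - i)) :
    ∃ a ∈ W.gr X i, ((LinearMap.mulLeft W.K (W.cl X D)) ^ (X.dim - i)) a = b := by
  set P : ℤ → W.H X → Prop := fun d x => x = 0 ∨
    ∃ c : ℕ, (c : ℤ) = X.dim + d ∧ x ∈ W.gr X c with hP
  obtain ⟨a, ha, hab⟩ := exists_preimage' F.sl2 (P := P) (fun d => Or.inl rfl)
    (by
      rintro d x y (rfl | ⟨c, hc, hx⟩) (rfl | ⟨c', hc', hy⟩)
      · exact Or.inl (add_zero 0)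
      · rw [zero_add]; exact Or.inr ⟨c', hc', hy⟩
      · rw [add_zero]; exact Or.inr ⟨c, hc, hx⟩
      · obtain rfl : c = c' := by omega
        exact Or.inr ⟨c, hc, Submodule.add_mem _ hx hy⟩)
    (by
      rintro q d x (rfl | ⟨c, hc, hx⟩)
      · exact Or.inl (smul_zero _)
      · exact Or.inr ⟨c, hc, Submodule.smul_mem _ _ hx⟩)
    (by
      rintro d x (rfl | ⟨c, hc, hx⟩)
      · exact Or.inl (map_zero _)
      · exact Or.inr ⟨c + 2, by push_cast; omega, F.e_gr hx⟩)
    (by
      rintro d x (rfl | ⟨c, hc, hx⟩)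
      · exact Or.inl (map_zero _)
      · have h1 := F.f_gr hx
        by_cases h0 : c < 2
        · exact Or.inl (h1.2 h0)
        · exact Or.inr ⟨c - 2, by omega, h1.1 (c - 2) (by omega)⟩)
    (by
      rintro d x (rfl | ⟨c, hc, hx⟩)
      · rw [map_zero, smul_zero]
      · rw [Fr.wt_gr hx]
        congr 1
        have : ((c : ℤ) : W.K) = ((X.dim + d : ℤ) : W.K) := by rw [hc]
        push_cast at this ⊢
        linear_combination this)
    (X.dim - i) (y := b) (Or.inr ⟨2 * X.dim - i, by omega, hb⟩)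
  rcases ha with rfl | ⟨c, hc, ha⟩
  · exact ⟨0, Submodule.zero_mem _, hab⟩
  · obtain rfl : c = i := by omega
    exact ⟨a, ha, hab⟩

/-- **The hard Lefschetz theorem.** -/
theorem hardLef : HardLefschetz W X D := by
  intro i hi
  refine ⟨?_, fun b hb => surj_L F hi hb⟩
  intro a ha h0
  apply W.nondeg
  intro b
  refine gr_induction (W.isInternal X) (p := fun b => W.tr X (a * b) = 0) ?_ ?_ b
  swap
  · intro b b' hb hb'
    rw [mul_add, map_add, hb, hb', add_zero]
  intro l b hb
  by_cases hl : i + l = 2 * X.dim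
  · obtain rfl : l = 2 * X.dim - i := by omega
    obtain ⟨c, hc, rfl⟩ := surj_L F hi hb
    rw [← L_pow_self F.hD, h0, zero_mul, map_zero]
  · exact W.tr_eq_zero (W.mul_mem ha hb) hl

lemma lefStr : LefStr (W.isInternal X) X.dim (LinearMap.mulLeft W.K (W.cl X D)) f :=
  ⟨mulLeft_isHom F.hD, W_hbd, hardLef F, F.sl2⟩

lemma st_st (x : W.H X) : st W X D f (st W X D f x) = x := by
  exact congrArg (fun G => G x) (lefStr F).star_star

end

/-- The sum of the numbers `σ n` over the codimensions `n` of primitive classes contributing in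
weight `m`, on a variety of dimension `d`. -/
def wcnt (d : ℕ) (σ : ℕ → ℕ) (m : ℤ) : ℕ :=
  ∑ n ∈ range (d / 2 + 1), if |m| ≤ (d : ℤ) - 2 * n ∧ (2 : ℤ) ∣ d + m then σ n else 0

/-- The largest number of pairwise orthogonal primitive cycles of codimension `n` with positive
square. -/
noncomputable def posN (W : WeilCohomology.{u, v} ops) (X : 𝒱.Obj) (D : X.Cycles) (n : ℕ) : ℕ :=
  sSup {r | HasFamily W X D n 1 r}

/-- The largest number of pairwise orthogonal primitive cycles of codimension `n` with negative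
square. -/
noncomputable def negN (W : WeilCohomology.{u, v} ops) (X : 𝒱.Obj) (D : X.Cycles) (n : ℕ) : ℕ :=
  sSup {r | HasFamily W X D n (-1) r}

lemma posN_eq (hD : X.IsCyc 1 D) {n : ℕ} (hn : 2 * n ≤ X.dim) {ι : Type} [Fintype ι]
    {x : ι → PM W X D n} (h : OM (BP W hD n hn) x) :
    posN W X D n = (univ.filter (fun i =>
      0 < pairing ops X D n (x i : X.Cycles) (x i : X.Cycles))).card := by
  have h1 := h.posIdx_eq (BP_symm hD hn)
  rw [posIdx] at h1
  have h2 : {r | HasFamily W X D n 1 r} = {r | PosFam (fun x y => (BP W hD n hn) x y) r} := by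
    ext r; exact hasFamily_one hD hn r
  rw [posN, h2, h1]
  rfl

lemma negN_eq (hD : X.IsCyc 1 D) {n : ℕ} (hn : 2 * n ≤ X.dim) {ι : Type} [Fintype ι]
    {x : ι → PM W X D n} (h : OM (BP W hD n hn) x) :
    negN W X D n = (univ.filter (fun i =>
      pairing ops X D n (x i : X.Cycles) (x i : X.Cycles) < 0)).card := by
  have h1 := h.neg.posIdx_eq (fun x y => by
    rw [LinearMap.neg_apply, LinearMap.neg_apply, LinearMap.neg_apply, LinearMap.neg_apply,
      BP_symm])
  rw [posIdx] at h1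
  rw [negN]
  have h2 : {r | HasFamily W X D n (-1) r} = {r | PosFam (fun x y => (-BP W hD n hn) x y) r} := by
    ext r; exact hasFamily_neg hD hn r
  rw [h2, h1]
  congr 1
  ext i
  simp only [mem_filter, mem_univ, true_and, LinearMap.neg_apply, BP_apply, Left.neg_pos_iff]

/-- **The inertia of the form on the algebraic classes of weight `m`.** -/
theorem hasIn_wt (F : Fr W X D f) (m : ℤ) :
    HasIn (MM W X 1 m) (bf W X D f) (wcnt X.dim (posN W X D) m) (wcnt X.dim (negN W X D) m) := by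
  classical
  have hle : ∀ n : Fin (X.dim / 2 + 1), 2 * (n : ℕ) ≤ X.dim := fun n => by omega
  choose M x hx using fun n : Fin (X.dim / 2 + 1) => exists_prim W F.hD (hle n)
  set L := LinearMap.mulLeft W.K (W.cl X D) with hL
  let C : Fin (X.dim / 2 + 1) → Prop := fun n => |m| ≤ (X.dim : ℤ) - 2 * (n : ℕ) ∧
    (2 : ℤ) ∣ X.dim + m
  let j : Fin (X.dim / 2 + 1) → ℕ := fun n => ((m + X.dim - 2 * (n : ℕ)) / 2).toNat
  have hj : ∀ n, C n → (2 * (j n : ℤ) = m + X.dim - 2 * (n : ℕ)) ∧ j n ≤ X.dim - 2 * (n : ℕ) := by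
    rintro n ⟨h1, h2⟩
    have h3 := abs_le.1 h1
    have h4 := hle n
    have h5 : (2 * (j n : ℤ) = m + X.dim - 2 * (n : ℕ)) := by
      change 2 * (((m + X.dim - 2 * (n : ℕ)) / 2).toNat : ℤ) = _
      omega
    exact ⟨h5, by omega⟩
  have hpm : ∀ (n : Fin (X.dim / 2 + 1)) (t : Fin (M n)),
      Primitive W X D n (x n t : X.Cycles) := fun n t => (x n t).2
  have hpne : ∀ (n : Fin (X.dim / 2 + 1)) (t : Fin (M n)),
      pairing ops X D n (x n t : X.Cycles) (x n t : X.Cycles) ≠ 0 := by
    intro n t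
    have := (hx n).ne t
    rwa [BP_apply] at this
  have hgr : ∀ n : Fin (X.dim / 2 + 1), C n → ∀ z : X.Cycles, Primitive W X D n z →
      (L ^ (j n)) (W.cl X z) ∈ algClasses W X (n + j n) := fun n _ z hz =>
    (ap_alg F).map_L_pow (j n) ⟨z, hz.1, rfl⟩
  have hc : ∀ n, (0 : ℚ) < (j n).factorial * ((X.dim - 2 * (n : ℕ) - j n).factorial : ℚ)⁻¹ := by
    intro n; positivity
  refine ⟨Σ n : {n : Fin (X.dim / 2 + 1) // C n}, Fin (M n.1), inferInstance,
    fun p => (L ^ (j p.1.1)) (W.cl X (x p.1.1 p.2 : X.Cycles)),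
    fun p => (j p.1.1).factorial * ((X.dim - 2 * (p.1.1 : ℕ) - j p.1.1).factorial : ℚ)⁻¹ *
      pairing ops X D p.1.1 (x p.1.1 p.2 : X.Cycles) (x p.1.1 p.2 : X.Cycles),
    ⟨?_, ?_, ?_, ?_, ?_⟩, ?_, ?_⟩
  · rintro ⟨⟨n, hn⟩, t⟩
    refine ⟨AS.of (hgr n hn _ (hpm n t)), rfl, ?_⟩
    have h1 := alg_gr (hgr n hn _ (hpm n t))
    rw [Fr.wt_gr h1]
    congr 1
    have h2 := (hj n hn).1
    have h3 : ((2 * (j n : ℤ) : ℤ) : W.K) = ((m + X.dim - 2 * (n : ℕ) : ℤ) : W.K) := by rw [h2]
    push_cast at h3 ⊢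
    linear_combination h3
  · rintro ⟨⟨n, hn⟩, t⟩
    exact mul_ne_zero (hc n).ne' (hpne n t)
  · rintro ⟨⟨n, hn⟩, t⟩
    exact bf_same F (hle n) (hpm n t) (hpm n t) (hj n hn).2
  · rintro ⟨⟨n, hn⟩, t⟩ ⟨⟨n', hn'⟩, t'⟩ hne
    by_cases hnn : n = n'
    · subst hnn
      have htt : t ≠ t' := by rintro rfl; exact hne rfl
      have h1 := bf_same F (hle n) (hpm n t) (hpm n t') (hj n hn).2
      have h2 : pairing ops X D n (x n t : X.Cycles) (x n t' : X.Cycles) = 0 := by
        have := (hx n).orth t t' htt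
        rwa [BP_apply] at this
      rw [h2, mul_zero, Rat.cast_zero] at h1
      exact h1
    · refine bf_cross F (hle n) (hle n') (fun h => hnn (Fin.ext h)) (hpm n t) (hpm n' t') ?_
        (hj n' hn').2
      have h1 := (hj n hn).1
      have h2 := (hj n' hn').1
      change (n : ℕ) + j n = (n' : ℕ) + j n'
      omega
  · rintro w ⟨hw, -, hwm⟩ hwy
    rcases AS_wt hw hwm with rfl | ⟨l, hl, hwl⟩
    · simp
    obtain ⟨v, hv, hs⟩ := (ap_alg F).decomp (mulLeft_isHom F.hD) W_hbd hwl
    rw [← hL] at hv hs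
    -- the primitive components
    have key : ∀ b ∈ range (l + 1), (L ^ b) (v b) = 0 ∨ ∃ n : Fin (X.dim / 2 + 1),
        (n : ℕ) = l - b ∧ C n ∧ j n = b ∧ ∃ z, Primitive W X D n z ∧ v b = W.cl X z := by
      intro b hb
      rw [Finset.mem_range] at hb
      obtain ⟨h1, h2, h3⟩ := hv b (by omega)
      by_cases h0 : (L ^ b) (v b) = 0
      · exact Or.inl h0
      right
      have hv0 : v b ≠ 0 := by rintro h; apply h0; rw [h, map_zero]
      have h4 := h2 hv0
      have h5 : b ≤ X.dim - 2 * (l - b) := by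
        by_contra h6
        exact h0 (L_pow_gt (n := X.dim) (i := 2 * (l - b)) h3 (by omega))
      obtain ⟨z, hz, hz'⟩ := h1
      have hC : C ⟨l - b, by omega⟩ := by
        refine ⟨abs_le.2 ⟨?_, ?_⟩, ?_⟩
        · change -((X.dim : ℤ) - 2 * ((l - b : ℕ) : ℤ)) ≤ m
          omega
        · change m ≤ (X.dim : ℤ) - 2 * ((l - b : ℕ) : ℤ)
          omega
        · omega
      refine ⟨⟨l - b, by omega⟩, rfl, hC, ?_, z, ⟨hz, ?_⟩, hz'.symm⟩
      · have h6 := (hj _ hC).1
        change 2 * (j ⟨l - b, _⟩ : ℤ) = m + X.dim - 2 * ((l - b : ℕ) : ℤ) at h6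
        omega
      · rw [cl_divPow, hz']; exact h3
    -- orthogonality of the components
    have hcross : ∀ b ∈ range (l + 1), ∀ b' ∈ range (l + 1), b ≠ b' →
        bf W X D f ((L ^ b) (v b)) ((L ^ b') (v b')) = 0 := by
      intro b hb b' hb' hne
      rcases key b hb with h0 | ⟨n, hn, hC, hjn, z, hz, hvz⟩
      · rw [h0, map_zero, LinearMap.zero_apply]
      rcases key b' hb' with h0 | ⟨n', hn', hC', hjn', z', hz', hvz'⟩
      · rw [h0, map_zero]
      rw [hvz, hvz']
      rw [Finset.mem_range] at hb hb'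
      refine bf_cross F (hle n) (hle n') (by omega) hz hz' (by omega) ?_
      rw [← hjn']
      exact (hj n' hC').2
    have hdiag : ∀ b ∈ range (l + 1), bf W X D f ((L ^ b) (v b)) ((L ^ b) (v b)) = 0 := by
      intro b hb
      rcases key b hb with h0 | ⟨n, hn, hC, hjn, z, hz, hvz⟩
      · rw [h0, map_zero]
      have hbj : b ≤ X.dim - 2 * (n : ℕ) := by rw [← hjn]; exact (hj n hC).2
      have h1 : ∀ t, BP W F.hD n (hle n) ⟨z, hz⟩ (x n t) = 0 := by
        intro t
        have h2 := hwy ⟨⟨n, hC⟩, t⟩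
        change bf W X D f w ((L ^ (j n)) (W.cl X (x n t : X.Cycles))) = 0 at h2
        have h3 : bf W X D f w ((L ^ (j n)) (W.cl X (x n t : X.Cycles))) =
            bf W X D f ((L ^ b) (v b)) ((L ^ (j n)) (W.cl X (x n t : X.Cycles))) := by
          rw [hs, map_sum (bf W X D f), LinearMap.sum_apply, Finset.sum_eq_single b]
          · intro b' hb' hne
            rcases key b' hb' with h0 | ⟨n', hn', hC', hjn', z', hz', hvz'⟩
            · rw [h0, map_zero, LinearMap.zero_apply]
            rw [hvz']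
            rw [Finset.mem_range] at hb hb'
            exact bf_cross F (hle n') (hle n) (by omega) hz' (hpm n t) (by omega) (hj n hC).2
          · intro h0; exact absurd hb h0
        rw [h2, hjn, hvz, bf_same F (hle n) hz (hpm n t) hbj] at h3
        have h4 : (0 : ℚ) = b.factorial * ((X.dim - 2 * (n : ℕ) - b).factorial : ℚ)⁻¹ *
            pairing ops X D n z (x n t : X.Cycles) := by exact_mod_cast h3
        rw [← hjn] at h4
        rcases mul_eq_zero.1 h4.symm with h5 | h5
        · exact absurd h5 (hc n).ne'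
        · rw [BP_apply]; exact h5
      have h2 : pairing ops X D n z z = 0 := by
        have := (hx n).max ⟨z, hz⟩ h1
        rwa [BP_apply] at this
      rw [hvz, bf_same F (hle n) hz hz hbj, h2, mul_zero, Rat.cast_zero]
    have h1 : bf W X D f w w = ∑ b ∈ range (l + 1), ∑ b' ∈ range (l + 1),
        bf W X D f ((L ^ b) (v b)) ((L ^ b') (v b')) := by
      conv_lhs => rw [hs]
      rw [map_sum (bf W X D f), LinearMap.sum_apply]
      apply Finset.sum_congr rfl
      intro b _
      rw [map_sum]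
    rw [h1]
    apply Finset.sum_eq_zero
    intro b hb
    apply Finset.sum_eq_zero
    intro b' hb'
    by_cases hbb : b = b'
    · subst hbb; exact hdiag b hb
    · exact hcross b hb b' hb' hbb
  · have hsg : ∀ (n : Fin (X.dim / 2 + 1)) (t : Fin (M n)),
        (0 < ((j n).factorial * ((X.dim - 2 * (n : ℕ) - j n).factorial : ℚ)⁻¹ *
          pairing ops X D n (x n t : X.Cycles) (x n t : X.Cycles) : ℚ)) ↔
        0 < pairing ops X D n (x n t : X.Cycles) (x n t : X.Cycles) := fun n t =>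
      mul_pos_iff_of_pos_left (hc n)
    have h1 : (univ.filter (fun i : Σ n : {n : Fin (X.dim / 2 + 1) // C n}, Fin (M n.1) =>
        0 < ((j i.1.1).factorial * ((X.dim - 2 * (i.1.1 : ℕ) - j i.1.1).factorial : ℚ)⁻¹ *
          pairing ops X D i.1.1 (x i.1.1 i.2 : X.Cycles) (x i.1.1 i.2 : X.Cycles) : ℚ))).card =
        ∑ n : {n : Fin (X.dim / 2 + 1) // C n}, posN W X D n.1 := by
      rw [Finset.card_filter, Fintype.sum_sigma]
      apply Finset.sum_congr rfl
      intro n _
      rw [posN_eq F.hD (hle n.1) (hx n.1), Finset.card_filter]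
      apply Finset.sum_congr rfl
      intro t _
      simp only [hsg]
    rw [h1, wcnt, Finset.sum_range, ← Finset.sum_filter]
    exact (Finset.sum_subtype (univ.filter C) (by simp) (fun n => posN W X D n)).symm
  · have hsg : ∀ (n : Fin (X.dim / 2 + 1)) (t : Fin (M n)),
        (((j n).factorial * ((X.dim - 2 * (n : ℕ) - j n).factorial : ℚ)⁻¹ *
          pairing ops X D n (x n t : X.Cycles) (x n t : X.Cycles) : ℚ) < 0) ↔
        pairing ops X D n (x n t : X.Cycles) (x n t : X.Cycles) < 0 := by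
      intro n t
      constructor
      · intro h0
        by_contra h2
        exact absurd h0 (not_lt.2 (mul_nonneg (hc n).le (not_lt.1 h2)))
      · exact fun h0 => mul_neg_of_pos_of_neg (hc n) h0
    have h1 : (univ.filter (fun i : Σ n : {n : Fin (X.dim / 2 + 1) // C n}, Fin (M n.1) =>
        ((j i.1.1).factorial * ((X.dim - 2 * (i.1.1 : ℕ) - j i.1.1).factorial : ℚ)⁻¹ *
          pairing ops X D i.1.1 (x i.1.1 i.2 : X.Cycles) (x i.1.1 i.2 : X.Cycles) : ℚ) < 0)).card =
        ∑ n : {n : Fin (X.dim / 2 + 1) // C n}, negN W X D n.1 := by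
      rw [Finset.card_filter, Fintype.sum_sigma]
      apply Finset.sum_congr rfl
      intro n _
      rw [negN_eq F.hD (hle n.1) (hx n.1), Finset.card_filter]
      apply Finset.sum_congr rfl
      intro t _
      simp only [hsg]
    rw [h1, wcnt, Finset.sum_range, ← Finset.sum_filter]
    exact (Finset.sum_subtype (univ.filter C) (by simp) (fun n => negN W X D n)).symm

end Pool.Agent.K1H12.SL
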