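import Pool.Agent.W539.Ker.Inertia
import Pool.Agent.W552.RatBasis

/-!
# Inertia of rational structures with a rational form
-/

open Finset

namespace Pool.Agent.K1H12.SL

open Pool.Agent.W539.Ker
open Pool.Agent.W552 (RatSub)

set_option linter.unusedSectionVars false

section Abs

variable {K : Type*} [Field K] [CharZero K] {V : Type*} [AddCommGroup V] [Module K V]

/-- A maximal orthogonal family of vectors with nonzero rational squares in the rational
structure `P`. -/
structure Fam (P : V → Prop) (B : V →ₗ[K] V →ₗ[K] K) {ι : Type} (x : ι → V) (q : ι → ℚ) :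
    Prop where
  mem : ∀ i, P (x i)
  ne : ∀ i, q i ≠ 0
  sq : ∀ i, B (x i) (x i) = (q i : K)
  orth : ∀ i j, i ≠ j → B (x i) (x j) = 0
  max : ∀ u, P u → (∀ i, B u (x i) = 0) → B u u = 0

/-- The form has the inertia indices `p` and `n` on the rational structure `P`. -/
def HasIn (P : V → Prop) (B : V →ₗ[K] V →ₗ[K] K) (p n : ℕ) : Prop :=
  ∃ (ι : Type) (_ : Fintype ι) (x : ι → V) (q : ι → ℚ), Fam P B x q ∧
    (univ.filter (fun i => 0 < q i)).card = p ∧ (univ.filter (fun i => q i < 0)).card = n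

/-- The form is rational and symmetric on the rational structure `P`. -/
structure RatForm (P : V → Prop) (B : V →ₗ[K] V →ₗ[K] K) : Prop where
  sub : RatSub K P
  rat : ∀ x y, P x → P y → ∃ q : ℚ, B x y = (q : K)
  symm : ∀ x y, P x → P y → B x y = B y x

variable {P : V → Prop} {B : V →ₗ[K] V →ₗ[K] K}

lemma card_split {ι : Type} [Fintype ι] {q : ι → ℚ} (h : ∀ i, q i ≠ 0) :
    (univ.filter (fun i => 0 < q i)).card + (univ.filter (fun i => q i < 0)).card =
      Fintype.card ι := by
  classical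
  rw [← Finset.card_union_of_disjoint]
  · rw [← Finset.card_univ]
    congr 1
    ext i
    simp only [mem_union, mem_filter, mem_univ, true_and, iff_true]
    exact (lt_or_gt_of_ne (h i)).symm
  · rw [Finset.disjoint_filter]
    intro i _ h1 h2
    exact absurd h1 (not_lt.2 h2.le)

/-- An orthogonal family with nonzero squares is linearly independent. -/
lemma linInd {ι : Type*} [Fintype ι] {x : ι → V} (h1 : ∀ i, B (x i) (x i) ≠ 0)
    (h2 : ∀ i j, i ≠ j → B (x i) (x j) = 0) : LinearIndependent K x := by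
  classical
  rw [Fintype.linearIndependent_iff]
  intro g hg i
  have h3 := congrArg (fun a => B a (x i)) hg
  simp only [map_sum, LinearMap.sum_apply, map_smul, LinearMap.smul_apply, map_zero,
    LinearMap.zero_apply, smul_eq_mul] at h3
  rw [Finset.sum_eq_single i] at h3
  · exact (mul_eq_zero.1 h3).resolve_right (h1 i)
  · intro j _ hj
    rw [h2 j i hj, mul_zero]
  · intro h; exact absurd (Finset.mem_univ _) h

/-- Existence of the inertia indices. -/
theorem exists_in [Module.Finite K V] (hP : RatForm P B) : ∃ p n, HasIn P B p n := by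
  classical
  let Q : ℕ → Prop := fun m => ∃ y : Fin m → V, (∀ i, P (y i)) ∧ (∀ i, B (y i) (y i) ≠ 0) ∧
    ∀ i j, i ≠ j → B (y i) (y j) = 0
  have hQ0 : Q 0 := ⟨Fin.elim0, fun i => i.elim0, fun i => i.elim0, fun i => i.elim0⟩
  obtain ⟨m, hm, hm'⟩ : ∃ m, Q m ∧ ¬ Q (m + 1) := by
    by_contra hno
    push Not at hno
    have hall : ∀ m, Q m := by
      intro m
      induction m with
      | zero => exact hQ0
      | succ m ih => exact hno m ih
    obtain ⟨y, -, h1, h2⟩ := hall (Module.finrank K V + 1)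
    have := (linInd h1 h2).fintype_card_le_finrank
    rw [Fintype.card_fin] at this
    omega
  obtain ⟨y, hy0, hy1, hy2⟩ := hm
  choose q hq using fun i => hP.rat _ _ (hy0 i) (hy0 i)
  refine ⟨_, _, Fin m, inferInstance, y, q, ⟨hy0, fun i h => hy1 i ?_, hq, hy2, ?_⟩, rfl, rfl⟩
  · rw [hq, h, Rat.cast_zero]
  intro u hu hux
  by_contra hne
  apply hm'
  refine ⟨Fin.cons u y, ?_, ?_, ?_⟩
  · intro i
    refine Fin.cases ?_ (fun i => ?_) i
    · exact hu
    · exact hy0 i
  · intro i
    refine Fin.cases ?_ (fun i => ?_) i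
    · exact hne
    · exact hy1 i
  · intro i j
    refine Fin.cases ?_ (fun i => ?_) i <;> refine Fin.cases ?_ (fun j => ?_) j
    · intro hij; exact absurd rfl hij
    · intro _; exact hux j
    · intro _
      change B (y i) u = 0
      rw [hP.symm _ _ (hy0 i) hu]; exact hux i
    · intro hij
      exact hy2 i j (fun h => hij (by rw [h]))

/-- The sum of the inertia indices is at most the dimension of a space containing the rational
structure. -/
theorem in_le [Module.Finite K V] {p n : ℕ} (h : HasIn P B p n) (U : Submodule K V)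
    (hU : ∀ x, P x → x ∈ U) : p + n ≤ Module.finrank K U := by
  obtain ⟨ι, _, x, q, hF, rfl, rfl⟩ := h
  rw [card_split hF.ne]
  have h1 : LinearIndependent K x := linInd (fun i => by
    rw [hF.sq]; exact_mod_cast hF.ne i) hF.orth
  have h2 : LinearIndependent K (fun i => (⟨x i, hU _ (hF.mem i)⟩ : U)) := by
    apply LinearIndependent.of_comp U.subtype
    exact h1
  exact h2.fintype_card_le_finrank

/-- **Sylvester's law of inertia.** -/
theorem sylv (hP : RatForm P B) {ι : Type} [Fintype ι] {x : ι → V} {q : ι → ℚ}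
    (hF : Fam P B x q) {r : ℕ} {z : Fin r → V} {t : Fin r → ℚ} (hz : ∀ i, P (z i))
    (ht : ∀ i, B (z i) (z i) = (t i : K)) (ht0 : ∀ i, 0 < t i)
    (hz0 : ∀ i j, i ≠ j → B (z i) (z j) = 0) :
    r ≤ (univ.filter (fun i => 0 < q i)).card := by
  classical
  let _ : Module ℚ V := Module.compHom V (algebraMap ℚ K)
  have hs : ∀ (c : ℚ) (v : V), c • v = (c : K) • v := fun c v => rfl
  let S : Submodule ℚ V :=
    { carrier := {x | P x}
      add_mem' := fun {a b} ha hb => hP.sub.add ha hb
      zero_mem' := hP.sub.zero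
      smul_mem' := fun c {x} hx => hP.sub.smul c hx }
  choose β hβ using fun (a b : S) => hP.rat a.1 b.1 a.2 b.2
  let B' : S →ₗ[ℚ] S →ₗ[ℚ] ℚ := LinearMap.mk₂ ℚ β
    (fun a a' b => by
      have : ((β (a + a') b : ℚ) : K) = ((β a b + β a' b : ℚ) : K) := by
        rw [← hβ, Rat.cast_add, ← hβ, ← hβ, Submodule.coe_add, map_add, LinearMap.add_apply]
      exact_mod_cast this)
    (fun c a b => by
      have : ((β (c • a) b : ℚ) : K) = ((c * β a b : ℚ) : K) := by
        rw [← hβ, Rat.cast_mul, ← hβ, Submodule.coe_smul, hs, map_smul, LinearMap.smul_apply,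
          smul_eq_mul]
      exact_mod_cast this)
    (fun a b b' => by
      have : ((β a (b + b') : ℚ) : K) = ((β a b + β a b' : ℚ) : K) := by
        rw [← hβ, Rat.cast_add, ← hβ, ← hβ, Submodule.coe_add, map_add]
      exact_mod_cast this)
    (fun c a b => by
      have : ((β a (c • b) : ℚ) : K) = ((c * β a b : ℚ) : K) := by
        rw [← hβ, Rat.cast_mul, ← hβ, Submodule.coe_smul, hs, map_smul, smul_eq_mul]
      exact_mod_cast this)
  have hB' : ∀ a b : S, ((B' a b : ℚ) : K) = B a.1 b.1 := fun a b => (hβ a b).symm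
  have hx : ∀ i, B' ⟨x i, hF.mem i⟩ ⟨x i, hF.mem i⟩ = q i := by
    intro i
    have := hB' ⟨x i, hF.mem i⟩ ⟨x i, hF.mem i⟩
    rw [hF.sq] at this
    exact_mod_cast this
  have hOM : OM B' (fun i => (⟨x i, hF.mem i⟩ : S)) := by
    refine ⟨fun i => ?_, fun i j hij => ?_, fun u hu => ?_⟩
    · rw [hx]; exact hF.ne i
    · have := hB' ⟨x i, hF.mem i⟩ ⟨x j, hF.mem j⟩
      rw [hF.orth i j hij] at this
      exact_mod_cast this
    · have h1 := hF.max u.1 u.2 (fun i => by
        have := hB' u ⟨x i, hF.mem i⟩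
        rw [hu i, Rat.cast_zero] at this
        exact this.symm)
      rw [← hB'] at h1
      exact_mod_cast h1
  have h1 := hOM.sylvester (fun a b => by
      have : ((B' a b : ℚ) : K) = ((B' b a : ℚ) : K) := by
        rw [hB', hB', hP.symm _ _ a.2 b.2]
      exact_mod_cast this) (z := fun i => (⟨z i, hz i⟩ : S)) (fun i => by
        have := hB' ⟨z i, hz i⟩ ⟨z i, hz i⟩
        rw [ht] at this
        have h2 : B' ⟨z i, hz i⟩ ⟨z i, hz i⟩ = t i := by exact_mod_cast this
        rw [h2]; exact ht0 i) (fun i j hij => by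
        have := hB' ⟨z i, hz i⟩ ⟨z j, hz j⟩
        rw [hz0 i j hij] at this
        exact_mod_cast this)
  refine h1.trans (le_of_eq ?_)
  congr 1
  ext i
  rw [mem_filter, mem_filter, hx]

lemma Fam.neg {ι : Type} {x : ι → V} {q : ι → ℚ} (h : Fam P B x q) :
    Fam P (-B) x (fun i => -q i) where
  mem := h.mem
  ne i := neg_ne_zero.2 (h.ne i)
  sq i := by rw [LinearMap.neg_apply, LinearMap.neg_apply, h.sq, Rat.cast_neg]
  orth i j hij := by rw [LinearMap.neg_apply, LinearMap.neg_apply, h.orth i j hij, neg_zero]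
  max u hu hux := by
    rw [LinearMap.neg_apply, LinearMap.neg_apply, h.max u hu (fun i => ?_), neg_zero]
    have := hux i
    rwa [LinearMap.neg_apply, LinearMap.neg_apply, neg_eq_zero] at this

lemma RatForm.neg (h : RatForm P B) : RatForm P (-B) where
  sub := h.sub
  rat x y hx hy := by
    obtain ⟨q, hq⟩ := h.rat x y hx hy
    exact ⟨-q, by rw [LinearMap.neg_apply, LinearMap.neg_apply, hq, Rat.cast_neg]⟩
  symm x y hx hy := by
    rw [LinearMap.neg_apply, LinearMap.neg_apply, LinearMap.neg_apply, LinearMap.neg_apply,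
      h.symm x y hx hy]

lemma HasIn.neg {p n : ℕ} (h : HasIn P B p n) : HasIn P (-B) n p := by
  obtain ⟨ι, hι, x, q, hF, h1, h2⟩ := h
  refine ⟨ι, hι, x, fun i => -q i, hF.neg, ?_, ?_⟩
  · rw [← h2]
    congr 1
    ext i
    simp only [mem_filter, mem_univ, true_and, neg_pos]
  · rw [← h1]
    congr 1
    ext i
    simp only [mem_filter, mem_univ, true_and, neg_neg_iff_pos]

/-- Orthogonal families are bounded by the inertia index. -/
theorem HasIn.bound (hP : RatForm P B) {p n : ℕ} (h : HasIn P B p n) {r : ℕ} {z : Fin r → V}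
    {t : Fin r → ℚ} (hz : ∀ i, P (z i)) (ht : ∀ i, B (z i) (z i) = (t i : K))
    (ht0 : ∀ i, 0 < t i) (hz0 : ∀ i j, i ≠ j → B (z i) (z j) = 0) : r ≤ p := by
  obtain ⟨ι, hι, x, q, hF, h1, h2⟩ := h
  rw [← h1]
  exact sylv hP hF hz ht ht0 hz0

/-- The inertia index is attained. -/
theorem HasIn.attain {p n : ℕ} (h : HasIn P B p n) : ∃ (z : Fin p → V) (t : Fin p → ℚ),
    (∀ i, P (z i)) ∧ (∀ i, B (z i) (z i) = (t i : K)) ∧ (∀ i, 0 < t i) ∧
      ∀ i j, i ≠ j → B (z i) (z j) = 0 := by
  classical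
  obtain ⟨ι, hι, x, q, hF, h1, h2⟩ := h
  let e := Fintype.equivFinOfCardEq (α := {i // 0 < q i}) (n := p)
    (by rw [Fintype.card_subtype]; exact h1)
  exact ⟨fun i => x (e.symm i).1, fun i => q (e.symm i).1, fun i => hF.mem _,
    fun i => hF.sq _, fun i => (e.symm i).2,
    fun i j hij => hF.orth _ _ (fun h0 => hij (e.symm.injective (Subtype.ext h0)))⟩

theorem HasIn.pos_unique (hP : RatForm P B) {p n p' n' : ℕ} (h : HasIn P B p n)
    (h' : HasIn P B p' n') : p = p' := by
  apply le_antisymm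
  · obtain ⟨z, t, h1, h2, h3, h4⟩ := h.attain
    exact h'.bound hP h1 h2 h3 h4
  · obtain ⟨z, t, h1, h2, h3, h4⟩ := h'.attain
    exact h.bound hP h1 h2 h3 h4

/-- The inertia indices are unique. -/
theorem HasIn.unique (hP : RatForm P B) {p n p' n' : ℕ} (h : HasIn P B p n)
    (h' : HasIn P B p' n') : p = p' ∧ n = n' :=
  ⟨h.pos_unique hP h', h.neg.pos_unique hP.neg h'.neg⟩

/-- Transport of the inertia indices. -/
theorem HasIn.transport {V' : Type*} [AddCommGroup V'] [Module K V'] {P' : V' → Prop}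
    {B' : V' →ₗ[K] V' →ₗ[K] K} (φ : V →ₗ[K] V') (hφ : ∀ x, P x → P' (φ x))
    (hφ' : ∀ y, P' y → ∃ x, P x ∧ φ x = y) (hB : ∀ x y, P x → P y → B' (φ x) (φ y) = B x y)
    {p n : ℕ} (h : HasIn P B p n) : HasIn P' B' p n := by
  obtain ⟨ι, hι, x, q, hF, h1, h2⟩ := h
  refine ⟨ι, hι, fun i => φ (x i), q, ⟨fun i => hφ _ (hF.mem i), hF.ne, fun i => ?_,
    fun i j hij => ?_, ?_⟩, h1, h2⟩
  · rw [hB _ _ (hF.mem i) (hF.mem i), hF.sq]
  · rw [hB _ _ (hF.mem i) (hF.mem j), hF.orth i j hij]
  · intro u hu hux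
    obtain ⟨v, hv, rfl⟩ := hφ' u hu
    rw [hB _ _ hv hv]
    apply hF.max v hv
    intro i
    rw [← hB _ _ hv (hF.mem i)]
    exact hux i

end Abs

end Pool.Agent.K1H12.SL
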