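import Pool.Agent.K1H12.SL.Count

/-!
# Negative classes on a power and signatures of higher powers
-/

open CategoryTheory AlgebraicGeometry Finset

universe u v

namespace Pool.Agent.K1H12.SL

open Pool.Agent.H914 Pool.Agent.H914.VarClass Pool.Agent.H914.VarClass.Obj
  Pool.Agent.H914.WeilCohomology Pool.Agent.H281R3.HT Pool.Agent.W552 Pool.Agent.W539.Ker
open Pool.Agent.Y163 (pw sq)
open Module (finrank)

variable {k : Type u} [Field k] {𝒱 : VarClass k} {ops : CycleOps 𝒱}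
  {W : WeilCohomology.{u, v} ops} {X Y Z Z₁ Z₂ Z₃ : 𝒱.Obj}

/-- There is an isomorphism compatible with the forms. -/
def Iso (W : WeilCohomology.{u, v} ops) {Z₁ Z₂ : 𝒱.Obj} (D₁ : Z₁.Cycles)
    (f₁ : Module.End W.K (W.H Z₁)) (D₂ : Z₂.Cycles) (f₂ : Module.End W.K (W.H Z₂)) : Prop :=
  ∃ (φ : Z₁ ⟶ Z₂) (ψ : Z₂ ⟶ Z₁), Tr W D₁ f₁ D₂ f₂ φ ψ

lemma Iso.symm {D₁ : Z₁.Cycles} {f₁ : Module.End W.K (W.H Z₁)} {D₂ : Z₂.Cycles}
    {f₂ : Module.End W.K (W.H Z₂)} (h : Iso W D₁ f₁ D₂ f₂) : Iso W D₂ f₂ D₁ f₁ := by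
  obtain ⟨φ, ψ, h⟩ := h
  exact ⟨ψ, φ, h.symm⟩

lemma Iso.trans {D₁ : Z₁.Cycles} {f₁ : Module.End W.K (W.H Z₁)} {D₂ : Z₂.Cycles}
    {f₂ : Module.End W.K (W.H Z₂)} {D₃ : Z₃.Cycles} {f₃ : Module.End W.K (W.H Z₃)}
    (h : Iso W D₁ f₁ D₂ f₂) (h' : Iso W D₂ f₂ D₃ f₃) : Iso W D₁ f₁ D₃ f₃ := by
  obtain ⟨φ, ψ, h⟩ := h
  obtain ⟨φ', ψ', h'⟩ := h'
  exact ⟨_, _, h.trans h'⟩

lemma Iso.hasIn {D₁ : Z₁.Cycles} {f₁ : Module.End W.K (W.H Z₁)} {D₂ : Z₂.Cycles}
    {f₂ : Module.End W.K (W.H Z₂)} (h : Iso W D₁ f₁ D₂ f₂) {w : ℤ} {p q : ℕ}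
    (hin : HasIn (MM W Z₂ 1 w) (bf W Z₂ D₂ f₂) p q) :
    HasIn (MM W Z₁ 1 w) (bf W Z₁ D₁ f₁) p q := by
  obtain ⟨φ, ψ, h⟩ := h
  exact h.hasIn (fun x => rfl) hin

lemma Iso.num {D₁ : Z₁.Cycles} {f₁ : Module.End W.K (W.H Z₁)} {D₂ : Z₂.Cycles}
    {f₂ : Module.End W.K (W.H Z₂)} (h : Iso W D₁ f₁ D₂ f₂) (h1 : HomEqNum W Z₁) :
    HomEqNum W Z₂ := by
  obtain ⟨φ, ψ, h⟩ := h
  intro j hj z hz hnum
  have h2 := h1 j (by rw [h.dim]; exact hj) (ops.pull φ z) (ops.pull_mem φ hz) (by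
    intro w hw
    have h3 : ((Z₁.V.degCycle (ops.mul (ops.pull φ z) w) : ℚ) : W.K) = 0 := by
      have h4 := ops.mul_mem (ops.pull_mem φ hz) hw
      rw [show j + (Z₁.dim - j) = Z₁.dim by rw [h.dim]; omega] at h4
      rw [← W.tr_cl h4, W.cl_mul, W.cl_pull]
      have h5 : W.cl Z₁ w = W.map φ (W.cl Z₂ (ops.pull ψ w)) := by rw [W.cl_pull, h.l]
      have h6 : Z₂.IsCyc (Z₂.dim - j) (ops.pull ψ w) := by
        have := ops.pull_mem ψ hw
        rwa [h.dim] at this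
      have h7 := ops.mul_mem hz h6
      rw [show j + (Z₂.dim - j) = Z₂.dim by omega] at h7
      rw [h5, ← map_mul, h.tr, ← W.cl_mul, W.tr_cl h7, hnum _ h6, Rat.cast_zero]
    exact_mod_cast h3)
  rw [W.cl_pull] at h2
  rw [← h.r (W.cl Z₂ z), h2, map_zero]

section Pow

variable {D : X.Cycles} {f : Module.End W.K (W.H X)} (F : Po W X D f)

include F

/-- `X ^ (n + m + 2) = X ^ (m + 1) × X ^ (n + 1)`. -/
lemma iso_add (m n : ℕ) : Iso W (dpw ops X D (n + m + 1)) (fpw W X f (n + m + 1))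
    (ops.pull (fst (pw X m) (pw X n)) (dpw ops X D m) +
      ops.pull (snd (pw X m) (pw X n)) (dpw ops X D n))
    (extSum W (fpw W X f m) (fpw W X f n)) := by
  induction m with
  | zero => exact ⟨_, _, Tr.refl _ _⟩
  | succ m ih =>
    obtain ⟨φ, ψ, h⟩ := ih
    have h1 := Tr.congr F.fr (po_pw F (n + m + 1)).fr ((po_pw F m).prod (po_pw F n)).fr h
    have h2 := tr_asc F.fr (po_pw F m).fr (po_pw F n).fr
    exact ⟨_, _, h1.trans h2.symm⟩

/-- The number of factors, minus one, of the power with the exponent `t + 1` of the power with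
the exponent `κ + 1`. -/
def NN (κ : ℕ) : ℕ → ℕ
  | 0 => κ
  | t + 1 => NN κ t + κ + 1

omit F in
lemma NN_eq (κ t : ℕ) : NN κ t + 1 = (κ + 1) * (t + 1) := by
  induction t with
  | zero => rw [NN]; ring
  | succ t ih =>
    rw [NN]
    calc NN κ t + κ + 1 + 1 = (NN κ t + 1) + (κ + 1) := by ring
      _ = _ := by rw [ih]; ring

/-- The power of a power. -/
lemma iso_pow (κ t : ℕ) : Iso W (dpw ops (pw X κ) (dpw ops X D κ) t)
    (fpw W (pw X κ) (fpw W X f κ) t) (dpw ops X D (NN κ t)) (fpw W X f (NN κ t)) := by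
  induction t with
  | zero => exact ⟨_, _, Tr.refl _ _⟩
  | succ t ih =>
    obtain ⟨φ, ψ, h⟩ := ih
    have FK := po_pw F κ
    have h1 := Tr.congr FK.fr (po_pw FK t).fr (po_pw F (NN κ t)).fr h
    exact Iso.trans ⟨_, _, h1⟩ (iso_add F κ (NN κ t)).symm

/-- The decomposition of a power into blocks. -/
lemma iso_blocks (κ t i : ℕ) : Iso W
    (ops.pull (fst (pw (pw X κ) t) (pw X i)) (dpw ops (pw X κ) (dpw ops X D κ) t) +
      ops.pull (snd (pw (pw X κ) t) (pw X i)) (dpw ops X D i))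
    (extSum W (fpw W (pw X κ) (fpw W X f κ) t) (fpw W X f i))
    (dpw ops X D (i + NN κ t + 1)) (fpw W X f (i + NN κ t + 1)) := by
  obtain ⟨φ, ψ, h⟩ := iso_pow F κ t
  have FK := po_pw F κ
  have h1 := Tr.congr_left (po_pw F i).fr (po_pw FK t).fr (po_pw F (NN κ t)).fr h
  exact Iso.trans ⟨_, _, h1⟩ (iso_add F (NN κ t) i).symm

/-- The value of the form at the fundamental class. -/
lemma bf_one_pw {s : ℚ} (hs : bf W X D f 1 1 = (s : W.K)) (n : ℕ) :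
    bf W (pw X n) (dpw ops X D n) (fpw W X f n) 1 1 = ((s ^ (n + 1) : ℚ) : W.K) := by
  induction n with
  | zero => rw [zero_add, pow_one]; exact hs
  | succ n ih =>
    have h1 := F.fr.bf_ext (po_pw F n).fr 1 1 1 1
    rw [ih, hs] at h1
    have h2 : H281R3.HT.ext W (1 : W.H X) (1 : W.H (pw X n)) = 1 := by
      rw [ext_def, map_one, map_one, mul_one]
    rw [h2] at h1
    rw [pow_succ' _ (n + 1), Rat.cast_mul]
    exact h1

end Pow

section Neg

variable {D : Z.Cycles} {f : Module.End W.K (W.H Z)} (F : Po W Z D f)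

include F

lemma fund_prim : Primitive W Z D 0 Z.V.fundCycle := by
  refine ⟨Z.V.fundCycle_mem, ?_⟩
  rw [cl_divPow, W.cl_fund]
  exact L_pow_gt (n := Z.dim) (i := 0) (by
    have h1 := pow_L_mem (mulLeft_isHom F.fr.hD) (W.one_mem Z) (Z.dim + 1)
    rw [W.gr_eq_bot Z _ (by omega)] at h1
    simpa using (Submodule.mem_bot _).1 h1) (by omega)

/-- A negative class gives a pair of classes of opposite sign. -/
theorem exists_pair {s : ℚ} (hs : bf W Z D f 1 1 = (s : W.K)) (hs0 : 0 < s) {j : ℕ}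
    (hj : 2 * j ≤ Z.dim) (hneg : HasFamily W Z D j (-1) 1) :
    ∃ (v : ℤ) (y₁ y₂ : W.H Z) (s₁ s₂ : ℚ), Pair W Z D f v y₁ y₂ s₁ s₂ := by
  obtain ⟨z', h1, h2, -⟩ := hneg
  set z := z' 0 with hz
  have hz1 : Primitive W Z D j z := h1 0
  have hz2 : pairing ops Z D j z z < 0 := by have := h2 0; linarith
  set L := LinearMap.mulLeft W.K (W.cl Z D) with hL
  have hfund := fund_prim F
  have hsf := bf_same F.fr (Nat.zero_le _) hfund hfund (j := 0) (Nat.zero_le _)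
  rw [pow_zero, Module.End.one_apply, W.cl_fund, hs] at hsf
  have hsf' : s = Nat.factorial 0 * ((Z.dim - 2 * 0 - 0).factorial : ℚ)⁻¹ *
      pairing ops Z D 0 Z.V.fundCycle Z.V.fundCycle := by exact_mod_cast hsf
  have hpf : 0 < pairing ops Z D 0 Z.V.fundCycle Z.V.fundCycle := by
    rw [hsf'] at hs0
    refine (mul_pos_iff_of_pos_left ?_).1 hs0
    positivity
  have hj0 : j ≠ 0 := by
    rintro rfl
    have h3 : W.cl Z z ∈ W.gr Z 0 := W.cl_mem hz1.1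
    rw [W.gr_zero] at h3
    obtain ⟨c, hc⟩ := Submodule.mem_span_singleton.1 h3
    have h4 := bf_same F.fr (Nat.zero_le _) hfund hz1 (j := 0) (Nat.zero_le _)
    have h5 := bf_same F.fr (Nat.zero_le _) hz1 hz1 (j := 0) (Nat.zero_le _)
    rw [pow_zero, Module.End.one_apply, Module.End.one_apply, W.cl_fund, ← hc, map_smul,
      hs] at h4
    rw [pow_zero, Module.End.one_apply, ← hc, map_smul, map_smul, LinearMap.smul_apply, hs,
      smul_eq_mul, smul_eq_mul] at h5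
    rw [smul_eq_mul] at h4
    set r : ℚ := Nat.factorial 0 * ((Z.dim - 2 * 0 - 0).factorial : ℚ)⁻¹ *
      pairing ops Z D 0 Z.V.fundCycle z with hr
    have h6 : c = ((r / s : ℚ) : W.K) := by
      have : (s : W.K) ≠ 0 := by exact_mod_cast hs0.ne'
      rw [Rat.cast_div, ← h4]
      field_simp
    rw [h6] at h5
    have h7 : (r / s) * ((r / s) * s) = Nat.factorial 0 *
        ((Z.dim - 2 * 0 - 0).factorial : ℚ)⁻¹ * pairing ops Z D 0 z z := by
      exact_mod_cast h5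
    have h8 : 0 ≤ (r / s) * ((r / s) * s) := by
      rw [← mul_assoc]; exact mul_nonneg (mul_self_nonneg _) hs0.le
    rw [h7] at h8
    have h9 : (Nat.factorial 0 : ℚ) * ((Z.dim - 2 * 0 - 0).factorial : ℚ)⁻¹ *
        pairing ops Z D 0 z z < 0 := mul_neg_of_pos_of_neg (by positivity) hz2
    linarith
  have hc1 : (0 : ℚ) < j.factorial * ((Z.dim - 2 * 0 - j).factorial : ℚ)⁻¹ := by positivity
  have hc2 : (0 : ℚ) < Nat.factorial 0 * ((Z.dim - 2 * j - 0).factorial : ℚ)⁻¹ := by positivity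
  have hm1 : (L ^ j) (W.cl Z Z.V.fundCycle) ∈ algClasses W Z j := by
    have := (ap_alg F.fr).map_L_pow j (l := 0) ⟨_, hfund.1, rfl⟩
    rwa [zero_add] at this
  have hm2 : W.cl Z z ∈ algClasses W Z j := ⟨z, hz1.1, rfl⟩
  have hw1 := mem_wt (w := 2 * j - Z.dim) rfl hm1
  have hw2 := mem_wt (w := 2 * j - Z.dim) rfl hm2
  have ho12 : bf W Z D f ((L ^ j) (W.cl Z Z.V.fundCycle)) (W.cl Z z) = 0 := by
    have := bf_cross F.fr (Nat.zero_le _) hj (Ne.symm hj0) hfund hz1 (j := j) (j' := 0)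
      (by omega) (Nat.zero_le _)
    rwa [pow_zero, Module.End.one_apply] at this
  refine ⟨2 * j - Z.dim, (L ^ j) (W.cl Z Z.V.fundCycle), W.cl Z z,
    j.factorial * ((Z.dim - 2 * 0 - j).factorial : ℚ)⁻¹ *
      pairing ops Z D 0 Z.V.fundCycle Z.V.fundCycle,
    Nat.factorial 0 * ((Z.dim - 2 * j - 0).factorial : ℚ)⁻¹ * pairing ops Z D j z z,
    hw1.1, hw2.1, hw1.2.2, hw2.2.2, ?_, ?_, ho12, ?_, mul_pos hc1 hpf,
    mul_neg_of_pos_of_neg hc2 hz2⟩
  · exact bf_same F.fr (Nat.zero_le _) hfund hfund (by omega)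
  · have := bf_same F.fr hj hz1 hz1 (j := 0) (Nat.zero_le _)
    rwa [pow_zero, Module.End.one_apply] at this
  · rw [(F.rat 1 _).symm _ _ hw2 hw1]
    exact ho12

end Neg

end Pool.Agent.K1H12.SL
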