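import Pool.Agent.K1H12.SL.Inert
import Pool.Agent.W539.Ker.Ops

/-!
# Removing a hyperbolic plane from the first factor
-/

open CategoryTheory AlgebraicGeometry Finset

universe u v

namespace Pool.Agent.K1H12.SL

open Pool.Agent.H914 Pool.Agent.H914.VarClass Pool.Agent.H914.VarClass.Obj
  Pool.Agent.H914.WeilCohomology Pool.Agent.H281R3.HT Pool.Agent.W552 Pool.Agent.W539.Ker

variable {k : Type u} [Field k] {𝒱 : VarClass k} {ops : CycleOps 𝒱}
  {W : WeilCohomology.{u, v} ops} {X Y Z A : 𝒱.Obj}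

/-- A variety with a frame whose form is symmetric. -/
structure Po (W : WeilCohomology.{u, v} ops) (A : 𝒱.Obj) (E : A.Cycles)
    (g : Module.End W.K (W.H A)) : Prop where
  fr : Fr W A E g
  sy : Sy W A E g

lemma Po.prod {D : X.Cycles} {f : Module.End W.K (W.H X)} {E : Y.Cycles}
    {g : Module.End W.K (W.H Y)} (F : Po W X D f) (G : Po W Y E g) :
    Po W (X.prod Y) (ops.pull (fst X Y) D + ops.pull (snd X Y) E) (extSum W f g) :=
  ⟨F.fr.prod G.fr, Sy.prod F.fr G.fr F.sy G.sy⟩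

lemma po_of_gd {D : X.Cycles} {f : Module.End W.K (W.H X)} (G : Gd W X D f) : Po W X D f :=
  ⟨G.fr, G.sy⟩

/-- The sums of algebraic classes of weight `w` fixed by an operator. -/
def MM (W : WeilCohomology.{u, v} ops) (A : 𝒱.Obj) (e : Module.End W.K (W.H A)) (w : ℤ)
    (x : W.H A) : Prop :=
  AS W A x ∧ e x = x ∧ wt (W.isInternal A) A.dim x = (w : W.K) • x

lemma par_AS {x : W.H A} (hx : AS W A x) : par (W.isInternal A) x = x := by
  refine AS.ind (p := fun x => par (W.isInternal A) x = x) ?_ ?_ hx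
  · intro j x hx
    rw [par, scal_apply _ _ (alg_gr hx)]
    simp
  · intro a b ha hb
    rw [map_add, ha, hb]

lemma MM.ratSub (e : Module.End W.K (W.H A)) (w : ℤ) : RatSub W.K (MM W A e w) where
  zero := ⟨AS.zero, map_zero _, by rw [map_zero, smul_zero]⟩
  add {x y} hx hy := ⟨hx.1.add hy.1, by rw [map_add, hx.2.1, hy.2.1],
    by rw [map_add, hx.2.2, hy.2.2, smul_add]⟩
  smul q x hx := ⟨hx.1.smul q, by rw [map_smul, hx.2.1], by rw [map_smul, hx.2.2, smul_comm]⟩

lemma Po.rat {E : A.Cycles} {g : Module.End W.K (W.H A)} (F : Po W A E g)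
    (e : Module.End W.K (W.H A)) (w : ℤ) : RatForm (MM W A e w) (bf W A E g) where
  sub := MM.ratSub e w
  rat x y hx hy := F.fr.bf_rat hx.1 hy.1
  symm x y hx hy := by rw [F.sy x y, par_AS hy.1]

lemma ext_def (a : W.H X) (b : W.H Y) :
    H281R3.HT.ext W a b = W.map (fst X Y) a * W.map (snd X Y) b := rfl

lemma wt_ext (a : W.H X) (b : W.H Y) : wt (W.isInternal (X.prod Y)) (X.prod Y).dim
    (H281R3.HT.ext W a b) = H281R3.HT.ext W (wt (W.isInternal X) X.dim a) b +
      H281R3.HT.ext W a (wt (W.isInternal Y) Y.dim b) := by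
  rw [wt_prod, ext_def, extSum_tmul]
  rfl

lemma ext_smul_left (c : W.K) (a : W.H X) (b : W.H Y) :
    H281R3.HT.ext W (c • a) b = c • H281R3.HT.ext W a b := by
  rw [ext_def, ext_def, map_smul, smul_mul_assoc]

lemma ext_smul_right (c : W.K) (a : W.H X) (b : W.H Y) :
    H281R3.HT.ext W a (c • b) = c • H281R3.HT.ext W a b := by
  rw [ext_def, ext_def, map_smul, mul_smul_comm]

lemma extOp_ext (φ : Module.End W.K (W.H X)) (ψ : Module.End W.K (W.H Y)) (a : W.H X)
    (b : W.H Y) : extOp W φ ψ (H281R3.HT.ext W a b) = H281R3.HT.ext W (φ a) (ψ b) :=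
  extOp_tmul φ ψ a b

section Con

variable {D : X.Cycles} {f : Module.End W.K (W.H X)} {E : A.Cycles}
  {g : Module.End W.K (W.H A)}

/-- The contraction with a class on the first factor. -/
noncomputable def con (W : WeilCohomology.{u, v} ops) {X : 𝒱.Obj} (A : 𝒱.Obj) (D : X.Cycles)
    (f : Module.End W.K (W.H X)) (y : W.H X) : W.H (X.prod A) →ₗ[W.K] W.H A :=
  W.push (snd X A) ∘ₗ LinearMap.mulRight W.K (W.map (fst X A) (st W X D f y))

lemma con_apply (y : W.H X) (x : W.H (X.prod A)) : con W A D f y x =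
    W.push (snd X A) (x * W.map (fst X A) (st W X D f y)) := rfl

variable (F : Fr W X D f)

include F

lemma con_ext {y : W.H X} (hy : AS W X y) (b : W.H X) (a : W.H A) :
    con W A D f y (H281R3.HT.ext W b a) = bf W X D f b y • a := by
  have h1 := (F.st_AS hy).map (fst X A)
  rw [con_apply, ext_def, mul_assoc, ← h1.comm, ← mul_assoc, ← map_mul, push_snd, bf_apply]

lemma con_AS {y : W.H X} (hy : AS W X y) {x : W.H (X.prod A)} (hx : AS W _ x) :
    AS W A (con W A D f y x) :=
  (hx.mul ((F.st_AS hy).map _)).push _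

/-- The contraction is adjoint to the insertion. -/
lemma con_adj (G : Fr W A E g) {y : W.H X} (hy : AS W X y) (x : W.H (X.prod A)) (a : W.H A) :
    bf W (X.prod A) (ops.pull (fst X A) D + ops.pull (snd X A) E) (extSum W f g) x
      (H281R3.HT.ext W y a) = bf W A E g (con W A D f y x) a := by
  refine W.kunneth_induction (p := fun x => bf W (X.prod A)
    (ops.pull (fst X A) D + ops.pull (snd X A) E) (extSum W f g) x
      (H281R3.HT.ext W y a) = bf W A E g (con W A D f y x) a) ?_ ?_ x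
  · intro x x' hx hx'
    rw [map_add, LinearMap.add_apply, hx, hx', map_add, map_add, LinearMap.add_apply]
  · intro i j b _ c _
    rw [← ext_def, F.bf_ext G, con_ext F hy, map_smul, LinearMap.smul_apply, smul_eq_mul]

/-- The contraction and operators on the second factor. -/
lemma con_extOp {y : W.H X} (hy : AS W X y) (e : Module.End W.K (W.H A)) (x : W.H (X.prod A)) :
    con W A D f y (extOp W 1 e x) = e (con W A D f y x) := by
  refine W.kunneth_induction (p := fun x => con W A D f y (extOp W 1 e x) =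
    e (con W A D f y x)) ?_ ?_ x
  · intro x x' hx hx'
    rw [map_add, map_add, hx, hx', map_add, map_add]
  · intro i j b _ c _
    rw [← ext_def, extOp_ext, con_ext F hy, con_ext F hy, map_smul, Module.End.one_apply]

/-- The contraction and the weight. -/
lemma con_wt {y : W.H X} (hy : AS W X y) {v : ℤ}
    (hv : wt (W.isInternal X) X.dim y = (v : W.K) • y)
    (hself : ∀ b, bf W X D f (wt (W.isInternal X) X.dim b) y =
      bf W X D f b (wt (W.isInternal X) X.dim y)) (x : W.H (X.prod A)) :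
    con W A D f y (wt (W.isInternal (X.prod A)) (X.prod A).dim x) =
      (v : W.K) • con W A D f y x + wt (W.isInternal A) A.dim (con W A D f y x) := by
  refine W.kunneth_induction (p := fun x =>
    con W A D f y (wt (W.isInternal (X.prod A)) (X.prod A).dim x) =
      (v : W.K) • con W A D f y x + wt (W.isInternal A) A.dim (con W A D f y x)) ?_ ?_ x
  · intro x x' hx hx'
    simp only [map_add, hx, hx', smul_add]
    abel
  · intro i j b _ c _
    rw [← ext_def, wt_ext, map_add, con_ext F hy, con_ext F hy, con_ext F hy, hself, hv,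
      map_smul, map_smul, smul_eq_mul, mul_smul]

end Con

/-- A pair of orthogonal classes of the same weight and of opposite sign. -/
structure Pair (W : WeilCohomology.{u, v} ops) (X : 𝒱.Obj) (D : X.Cycles)
    (f : Module.End W.K (W.H X)) (v : ℤ) (y₁ y₂ : W.H X) (s₁ s₂ : ℚ) : Prop where
  as₁ : AS W X y₁
  as₂ : AS W X y₂
  wt₁ : wt (W.isInternal X) X.dim y₁ = (v : W.K) • y₁
  wt₂ : wt (W.isInternal X) X.dim y₂ = (v : W.K) • y₂
  sq₁ : bf W X D f y₁ y₁ = (s₁ : W.K)
  sq₂ : bf W X D f y₂ y₂ = (s₂ : W.K)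
  o12 : bf W X D f y₁ y₂ = 0
  o21 : bf W X D f y₂ y₁ = 0
  pos : 0 < s₁
  neg : s₂ < 0

/-- The projector onto the orthogonal complement of the pair. -/
noncomputable def RR (W : WeilCohomology.{u, v} ops) (X : 𝒱.Obj) (D : X.Cycles)
    (f : Module.End W.K (W.H X)) (y₁ y₂ : W.H X) (s₁ s₂ : ℚ) : Module.End W.K (W.H X) :=
  1 - ((s₁⁻¹ : ℚ) : W.K) • ((bf W X D f).flip y₁).smulRight y₁ -
    ((s₂⁻¹ : ℚ) : W.K) • ((bf W X D f).flip y₂).smulRight y₂

lemma RR_apply (D : X.Cycles) (f : Module.End W.K (W.H X)) (y₁ y₂ : W.H X) (s₁ s₂ : ℚ)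
    (x : W.H X) : RR W X D f y₁ y₂ s₁ s₂ x = x - ((s₁⁻¹ : ℚ) : W.K) • (bf W X D f x y₁ • y₁) -
      ((s₂⁻¹ : ℚ) : W.K) • (bf W X D f x y₂ • y₂) := rfl

namespace Pair

variable {D : X.Cycles} {f : Module.End W.K (W.H X)} {E : A.Cycles}
  {g : Module.End W.K (W.H A)} {v : ℤ} {y₁ y₂ : W.H X} {s₁ s₂ : ℚ}
  (P : Pair W X D f v y₁ y₂ s₁ s₂)

include P

lemma bf_R₁ (x : W.H X) : bf W X D f (RR W X D f y₁ y₂ s₁ s₂ x) y₁ = 0 := by
  have h1 : (s₁ : W.K) ≠ 0 := by exact_mod_cast P.pos.ne'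
  rw [RR_apply, map_sub, map_sub, LinearMap.sub_apply, LinearMap.sub_apply, map_smul, map_smul,
    map_smul, map_smul, LinearMap.smul_apply, LinearMap.smul_apply, LinearMap.smul_apply,
    LinearMap.smul_apply, P.o21, P.sq₁]
  simp only [smul_eq_mul, mul_zero, sub_zero, Rat.cast_inv]
  field_simp
  ring

lemma bf_R₂ (x : W.H X) : bf W X D f (RR W X D f y₁ y₂ s₁ s₂ x) y₂ = 0 := by
  have h1 : (s₂ : W.K) ≠ 0 := by exact_mod_cast P.neg.ne
  rw [RR_apply, map_sub, map_sub, LinearMap.sub_apply, LinearMap.sub_apply, map_smul, map_smul,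
    map_smul, map_smul, LinearMap.smul_apply, LinearMap.smul_apply, LinearMap.smul_apply,
    LinearMap.smul_apply, P.o12, P.sq₂]
  simp only [smul_eq_mul, mul_zero, sub_zero, Rat.cast_inv]
  field_simp
  ring

lemma R_idem : RR W X D f y₁ y₂ s₁ s₂ * RR W X D f y₁ y₂ s₁ s₂ = RR W X D f y₁ y₂ s₁ s₂ := by
  apply LinearMap.ext
  intro x
  rw [Module.End.mul_apply, RR_apply D f y₁ y₂ s₁ s₂ (RR W X D f y₁ y₂ s₁ s₂ x), P.bf_R₁,
    P.bf_R₂, zero_smul, zero_smul, smul_zero, smul_zero, sub_zero, sub_zero]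

/-- The decomposition of a class on the product. -/
lemma decomp (F : Fr W X D f) (x : W.H (X.prod A)) :
    x = extOp W (RR W X D f y₁ y₂ s₁ s₂) 1 x +
      (((s₁⁻¹ : ℚ) : W.K) • H281R3.HT.ext W y₁ (con W A D f y₁ x) +
        ((s₂⁻¹ : ℚ) : W.K) • H281R3.HT.ext W y₂ (con W A D f y₂ x)) := by
  refine W.kunneth_induction (p := fun x => x = extOp W (RR W X D f y₁ y₂ s₁ s₂) 1 x +
      (((s₁⁻¹ : ℚ) : W.K) • H281R3.HT.ext W y₁ (con W A D f y₁ x) +
        ((s₂⁻¹ : ℚ) : W.K) • H281R3.HT.ext W y₂ (con W A D f y₂ x))) ?_ ?_ x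
  · intro a b ha hb
    conv_lhs => rw [ha, hb]
    simp only [ext_def, map_add, mul_add, smul_add]
    abel
  · intro i j b _ c _
    rw [← ext_def, extOp_ext, con_ext F P.as₁, con_ext F P.as₂, RR_apply, Module.End.one_apply,
      ext_smul_right, ext_smul_right]
    simp only [ext_def, map_sub, map_smul, sub_mul, smul_mul_assoc]
    abel

lemma con_R₁ (F : Fr W X D f) (e : Module.End W.K (W.H A)) (x : W.H (X.prod A)) :
    con W A D f y₁ (extOp W (RR W X D f y₁ y₂ s₁ s₂) e x) = 0 := by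
  refine W.kunneth_induction (p := fun x =>
    con W A D f y₁ (extOp W (RR W X D f y₁ y₂ s₁ s₂) e x) = 0) ?_ ?_ x
  · intro x x' hx hx'
    rw [map_add, map_add, hx, hx', add_zero]
  · intro i j b _ c _
    rw [← ext_def, extOp_ext, con_ext F P.as₁, P.bf_R₁, zero_smul]

lemma con_R₂ (F : Fr W X D f) (e : Module.End W.K (W.H A)) (x : W.H (X.prod A)) :
    con W A D f y₂ (extOp W (RR W X D f y₁ y₂ s₁ s₂) e x) = 0 := by
  refine W.kunneth_induction (p := fun x =>
    con W A D f y₂ (extOp W (RR W X D f y₁ y₂ s₁ s₂) e x) = 0) ?_ ?_ x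
  · intro x x' hx hx'
    rw [map_add, map_add, hx, hx', add_zero]
  · intro i j b _ c _
    rw [← ext_def, extOp_ext, con_ext F P.as₂, P.bf_R₂, zero_smul]

end Pair

section Slot

variable {D : X.Cycles} {f : Module.End W.K (W.H X)} {E : A.Cycles}
  {g : Module.End W.K (W.H A)} {v : ℤ} {y₁ y₂ : W.H X} {s₁ s₂ : ℚ}

lemma ins_MM {y : W.H X} (hy : AS W X y) (hv : wt (W.isInternal X) X.dim y = (v : W.K) • y)
    {e : Module.End W.K (W.H A)} {w : ℤ} {a : W.H A} (ha : MM W A e (w - v) a) :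
    MM W (X.prod A) (extOp W 1 e) w (H281R3.HT.ext W y a) := by
  refine ⟨hy.ext ha.1, by rw [extOp_ext, ha.2.1, Module.End.one_apply], ?_⟩
  rw [wt_ext, hv, ha.2.2, ext_smul_left, ext_smul_right, ← add_smul]
  congr 1
  push_cast
  ring

/-- The weight operator is self-adjoint. -/
lemma wt_self (F : Fr W X D f) (a b : W.H X) :
    bf W X D f (wt (W.isInternal X) X.dim a) b = bf W X D f a (wt (W.isInternal X) X.dim b) := by
  refine gr_induction (W.isInternal X) (p := fun a => bf W X D f (wt (W.isInternal X) X.dim a) b =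
    bf W X D f a (wt (W.isInternal X) X.dim b)) ?_ ?_ a
  swap
  · intro a a' ha ha'
    rw [map_add, map_add, LinearMap.add_apply, ha, ha', map_add, LinearMap.add_apply]
  intro i a ha
  refine gr_induction (W.isInternal X) (p := fun b => bf W X D f (wt (W.isInternal X) X.dim a) b =
    bf W X D f a (wt (W.isInternal X) X.dim b)) ?_ ?_ b
  swap
  · intro b b' hb hb'
    rw [map_add, hb, hb', map_add, map_add]
  intro j b hb
  rw [Fr.wt_gr ha, Fr.wt_gr hb, map_smul, LinearMap.smul_apply, map_smul]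
  by_cases hij : i = j
  · rw [hij]
  · rw [F.bf_deg ha hb hij, smul_zero, smul_zero]

lemma con_MM (G : Po W X D f) {y : W.H X} (hy : AS W X y)
    (hv : wt (W.isInternal X) X.dim y = (v : W.K) • y) {e : Module.End W.K (W.H A)} {w : ℤ}
    {x : W.H (X.prod A)} (hx : MM W (X.prod A) (extOp W 1 e) w x) :
    MM W A e (w - v) (con W A D f y x) := by
  refine ⟨con_AS G.fr hy hx.1, by rw [← con_extOp G.fr hy, hx.2.1], ?_⟩
  have h1 := con_wt (A := A) G.fr hy hv (fun b => wt_self G.fr b y) x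
  rw [hx.2.2, map_smul] at h1
  rw [← sub_eq_iff_eq_add'] at h1
  rw [← h1, ← sub_smul]
  congr 1
  push_cast
  ring

/-- **The first slot.** -/
theorem first_slot (G : Po W X D f) (P : Pair W X D f v y₁ y₂ s₁ s₂) (F : Po W A E g)
    {e : Module.End W.K (W.H A)} (he : e * e = e) {w : ℤ} {p n : ℕ}
    (h : HasIn (MM W (X.prod A) (extOp W (RR W X D f y₁ y₂ s₁ s₂) e) w)
      (bf W (X.prod A) (ops.pull (fst X A) D + ops.pull (snd X A) E) (extSum W f g)) p n) :
    ∃ m, HasIn (MM W (X.prod A) (extOp W 1 e) w)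
      (bf W (X.prod A) (ops.pull (fst X A) D + ops.pull (snd X A) E) (extSum W f g))
        (p + m) (n + m) := by
  classical
  set B := bf W (X.prod A) (ops.pull (fst X A) D + ops.pull (snd X A) E) (extSum W f g) with hB
  set R := RR W X D f y₁ y₂ s₁ s₂ with hR
  have Fr' : Po W (X.prod A) (ops.pull (fst X A) D + ops.pull (snd X A) E) (extSum W f g) :=
    G.prod F
  obtain ⟨p₀, n₀, I, hI, z, t, hz, hp₀, hn₀⟩ := exists_in (F.rat e (w - v))
  obtain ⟨J, hJ, x, q, hx, hp, hn⟩ := h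
  have hsub : ∀ u, MM W (X.prod A) (extOp W R e) w u →
      MM W (X.prod A) (extOp W 1 e) w u ∧ extOp W R 1 u = u := by
    intro u hu
    have h1 : extOp W 1 e * extOp W R e = extOp W R e := by rw [extOp_mul, he, one_mul]
    have h2 : extOp W R 1 * extOp W R e = extOp W R e := by rw [extOp_mul, P.R_idem, one_mul]
    refine ⟨⟨hu.1, ?_, hu.2.2⟩, ?_⟩
    · conv_lhs => rw [← hu.2.1]
      rw [← Module.End.mul_apply, h1, hu.2.1]
    · conv_lhs => rw [← hu.2.1]
      rw [← Module.End.mul_apply, h2, hu.2.1]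
  have hcon₁ : ∀ u, extOp W R 1 u = u → con W A D f y₁ u = 0 := by
    intro u hu
    rw [← hu]; exact P.con_R₁ G.fr 1 u
  have hcon₂ : ∀ u, extOp W R 1 u = u → con W A D f y₂ u = 0 := by
    intro u hu
    rw [← hu]; exact P.con_R₂ G.fr 1 u
  have hins₁ : ∀ a, MM W A e (w - v) a → MM W (X.prod A) (extOp W 1 e) w (H281R3.HT.ext W y₁ a) :=
    fun a ha => ins_MM P.as₁ P.wt₁ ha
  have hins₂ : ∀ a, MM W A e (w - v) a → MM W (X.prod A) (extOp W 1 e) w (H281R3.HT.ext W y₂ a) :=
    fun a ha => ins_MM P.as₂ P.wt₂ ha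
  have hbx₁ : ∀ u a, extOp W R 1 u = u → B u (H281R3.HT.ext W y₁ a) = 0 := by
    intro u a hu
    rw [hB, con_adj G.fr F.fr P.as₁, hcon₁ u hu, map_zero, LinearMap.zero_apply]
  have hbx₂ : ∀ u a, extOp W R 1 u = u → B u (H281R3.HT.ext W y₂ a) = 0 := by
    intro u a hu
    rw [hB, con_adj G.fr F.fr P.as₂, hcon₂ u hu, map_zero, LinearMap.zero_apply]
  have hsy := (Fr'.rat (extOp W 1 e) w).symm
  refine ⟨p₀ + n₀, (I ⊕ I) ⊕ J, inferInstance,
    Sum.elim (Sum.elim (fun i => H281R3.HT.ext W y₁ (z i)) (fun i => H281R3.HT.ext W y₂ (z i))) x,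
    Sum.elim (Sum.elim (fun i => s₁ * t i) (fun i => s₂ * t i)) q, ?_, ?_, ?_⟩
  · constructor
    · rintro ((i | i) | j)
      · exact hins₁ _ (hz.mem i)
      · exact hins₂ _ (hz.mem i)
      · exact (hsub _ (hx.mem j)).1
    · rintro ((i | i) | j)
      · exact mul_ne_zero P.pos.ne' (hz.ne i)
      · exact mul_ne_zero P.neg.ne (hz.ne i)
      · exact hx.ne j
    · rintro ((i | i) | j)
      · simp only [Sum.elim_inl, hB]
        rw [G.fr.bf_ext F.fr, P.sq₁, hz.sq, Rat.cast_mul]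
      · simp only [Sum.elim_inl, Sum.elim_inr, hB]
        rw [G.fr.bf_ext F.fr, P.sq₂, hz.sq, Rat.cast_mul]
      · exact hx.sq j
    · rintro ((i | i) | i) ((j | j) | j) hij
      · simp only [Sum.elim_inl, hB]
        rw [G.fr.bf_ext F.fr, hz.orth i j (fun h0 => hij (by rw [h0])), mul_zero]
      · simp only [Sum.elim_inl, Sum.elim_inr, hB]
        rw [G.fr.bf_ext F.fr, P.o12, zero_mul]
      · simp only [Sum.elim_inl, Sum.elim_inr]
        rw [hsy _ _ (hins₁ _ (hz.mem i)) (hsub _ (hx.mem j)).1]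
        exact hbx₁ _ _ (hsub _ (hx.mem j)).2
      · simp only [Sum.elim_inl, Sum.elim_inr, hB]
        rw [G.fr.bf_ext F.fr, P.o21, zero_mul]
      · simp only [Sum.elim_inl, Sum.elim_inr, hB]
        rw [G.fr.bf_ext F.fr, hz.orth i j (fun h0 => hij (by rw [h0])), mul_zero]
      · simp only [Sum.elim_inl, Sum.elim_inr]
        rw [hsy _ _ (hins₂ _ (hz.mem i)) (hsub _ (hx.mem j)).1]
        exact hbx₂ _ _ (hsub _ (hx.mem j)).2
      · simp only [Sum.elim_inl, Sum.elim_inr]
        exact hbx₁ _ _ (hsub _ (hx.mem i)).2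
      · simp only [Sum.elim_inl, Sum.elim_inr]
        exact hbx₂ _ _ (hsub _ (hx.mem i)).2
      · exact hx.orth i j (fun h0 => hij (by rw [h0]))
    · intro u hu hux
      set k₁ := con W A D f y₁ u with hk₁
      set k₂ := con W A D f y₂ u with hk₂
      have hm₁ : MM W A e (w - v) k₁ := con_MM G P.as₁ P.wt₁ hu
      have hm₂ : MM W A e (w - v) k₂ := con_MM G P.as₂ P.wt₂ hu
      have hz₁ : bf W A E g k₁ k₁ = 0 := by
        apply hz.max _ hm₁
        intro i
        have h1 := hux (Sum.inl (Sum.inl i))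
        simp only [Sum.elim_inl, hB] at h1
        rwa [con_adj G.fr F.fr P.as₁] at h1
      have hz₂ : bf W A E g k₂ k₂ = 0 := by
        apply hz.max _ hm₂
        intro i
        have h1 := hux (Sum.inl (Sum.inr i))
        simp only [Sum.elim_inl, Sum.elim_inr, hB] at h1
        rwa [con_adj G.fr F.fr P.as₂] at h1
      set u' := extOp W R 1 u with hu'
      have hdec : u = u' + (((s₁⁻¹ : ℚ) : W.K) • H281R3.HT.ext W y₁ k₁ +
        ((s₂⁻¹ : ℚ) : W.K) • H281R3.HT.ext W y₂ k₂) := P.decomp G.fr u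
      have hR' : extOp W R 1 u' = u' := by
        rw [hu', ← Module.End.mul_apply, extOp_mul, P.R_idem, one_mul]
      have hu'1 : MM W (X.prod A) (extOp W 1 e) w u' := by
        have h2 : u' = u + ((-s₁⁻¹ : ℚ) : W.K) • H281R3.HT.ext W y₁ k₁ +
            ((-s₂⁻¹ : ℚ) : W.K) • H281R3.HT.ext W y₂ k₂ := by
          conv_rhs => rw [hdec]
          push_cast
          module
        rw [h2]
        have rs := MM.ratSub (W := W) (A := X.prod A) (extOp W 1 e) w
        exact rs.add (rs.add hu (rs.smul _ (hins₁ _ hm₁))) (rs.smul _ (hins₂ _ hm₂))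
      have hu'2 : MM W (X.prod A) (extOp W R e) w u' := by
        refine ⟨hu'1.1, ?_, hu'1.2.2⟩
        have h3 : extOp W R e = extOp W R 1 * extOp W 1 e := by
          rw [extOp_mul, mul_one, one_mul]
        rw [h3, Module.End.mul_apply, hu'1.2.1, hR']
      have hi₁ := hbx₁ u' k₁ hR'
      have hi₂ := hbx₂ u' k₂ hR'
      have hi₁' : B (H281R3.HT.ext W y₁ k₁) u' = 0 := by
        rw [hsy _ _ (hins₁ _ hm₁) hu'1]; exact hi₁
      have hi₂' : B (H281R3.HT.ext W y₂ k₂) u' = 0 := by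
        rw [hsy _ _ (hins₂ _ hm₂) hu'1]; exact hi₂
      have h0 : B u' u' = 0 := by
        apply hx.max _ hu'2
        intro j
        have h4 := hux (Sum.inr j)
        simp only [Sum.elim_inr] at h4
        have h5 : B (H281R3.HT.ext W y₁ k₁) (x j) = 0 := by
          rw [hsy _ _ (hins₁ _ hm₁) (hsub _ (hx.mem j)).1]
          exact hbx₁ _ _ (hsub _ (hx.mem j)).2
        have h6 : B (H281R3.HT.ext W y₂ k₂) (x j) = 0 := by
          rw [hsy _ _ (hins₂ _ hm₂) (hsub _ (hx.mem j)).1]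
          exact hbx₂ _ _ (hsub _ (hx.mem j)).2
        rw [hdec, map_add, map_add, map_smul, map_smul, LinearMap.add_apply,
          LinearMap.add_apply, LinearMap.smul_apply, LinearMap.smul_apply, h5, h6, smul_zero,
          smul_zero, add_zero, add_zero] at h4
        exact h4
      have h11 : B (H281R3.HT.ext W y₁ k₁) (H281R3.HT.ext W y₁ k₁) = 0 := by
        rw [hB, G.fr.bf_ext F.fr, hz₁, mul_zero]
      have h22 : B (H281R3.HT.ext W y₂ k₂) (H281R3.HT.ext W y₂ k₂) = 0 := by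
        rw [hB, G.fr.bf_ext F.fr, hz₂, mul_zero]
      have h12 : B (H281R3.HT.ext W y₁ k₁) (H281R3.HT.ext W y₂ k₂) = 0 := by
        rw [hB, G.fr.bf_ext F.fr, P.o12, zero_mul]
      have h21 : B (H281R3.HT.ext W y₂ k₂) (H281R3.HT.ext W y₁ k₁) = 0 := by
        rw [hB, G.fr.bf_ext F.fr, P.o21, zero_mul]
      rw [hdec]
      simp only [map_add, map_smul, LinearMap.add_apply, LinearMap.smul_apply, h0, h11, h22,
        h12, h21, hi₁, hi₂, hi₁', hi₂', smul_zero, add_zero]
  · have hs1 : ∀ i, (0 < s₁ * t i) ↔ 0 < t i := fun i => mul_pos_iff_of_pos_left P.pos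
    have hs2 : ∀ i, (0 < s₂ * t i) ↔ t i < 0 := by
      intro i
      constructor
      · intro h0
        by_contra h1
        exact absurd h0 (not_lt.2 (mul_nonpos_of_nonpos_of_nonneg P.neg.le (not_lt.1 h1)))
      · exact fun h0 => mul_pos_of_neg_of_neg P.neg h0
    rw [← hp, ← hp₀, ← hn₀, ← Fintype.card_subtype, ← Fintype.card_subtype,
      ← Fintype.card_subtype, ← Fintype.card_subtype, Fintype.card_congr (Equiv.subtypeSum),
      Fintype.card_sum, Fintype.card_congr (Equiv.subtypeSum), Fintype.card_sum, add_comm]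
    simp only [Sum.elim_inl, Sum.elim_inr, hs1, hs2]
    congr!
  · have hs1 : ∀ i, (s₁ * t i < 0) ↔ t i < 0 := by
      intro i
      constructor
      · intro h0
        by_contra h1
        exact absurd h0 (not_lt.2 (mul_nonneg P.pos.le (not_lt.1 h1)))
      · exact fun h0 => mul_neg_of_pos_of_neg P.pos h0
    have hs2 : ∀ i, (s₂ * t i < 0) ↔ 0 < t i := by
      intro i
      constructor
      · intro h0
        by_contra h1
        exact absurd h0 (not_lt.2 (mul_nonneg_of_nonpos_of_nonpos P.neg.le (not_lt.1 h1)))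
      · exact fun h0 => mul_neg_of_neg_of_pos P.neg h0
    rw [← hn, ← hp₀, ← hn₀, ← Fintype.card_subtype, ← Fintype.card_subtype,
      ← Fintype.card_subtype, ← Fintype.card_subtype, Fintype.card_congr (Equiv.subtypeSum),
      Fintype.card_sum, Fintype.card_congr (Equiv.subtypeSum), Fintype.card_sum, add_comm]
    simp only [Sum.elim_inl, Sum.elim_inr, hs1, hs2]
    rw [add_comm (Fintype.card {i // 0 < t i})]
    congr!

end Slot

end Pool.Agent.K1H12.SL
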