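import Pool.Agent.K1H12.SL.Law

/-!
# The signatures of the products of a power with another variety
-/

open CategoryTheory AlgebraicGeometry Finset Filter Topology

universe u v

namespace Pool.Agent.K1H12.SL

open Pool.Agent.H914 Pool.Agent.H914.VarClass Pool.Agent.H914.VarClass.Obj
  Pool.Agent.H914.WeilCohomology Pool.Agent.H281R3.HT Pool.Agent.W552 Pool.Agent.W539.Ker
open Pool.Agent.Y163 (pw sq Big finrank_pw)
open Pool.Agent.H447 (SignStd)
open Pool.Agent.W534 (numRank)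
open Pool.Agent.R940 (algRank ManyTimes LogTimes d_law growth_any par_of_sign)
open Module (finrank)

section Abs

variable {K : Type*} [Field K] [CharZero K] {V : Type*} [AddCommGroup V] [Module K V]
  {P : V → Prop} {B : V →ₗ[K] V →ₗ[K] K}

/-- An orthogonal family with nonzero squares has at most `p + n` elements. -/
theorem HasIn.total (hP : RatForm P B) {p n : ℕ} (h : HasIn P B p n) {ι : Type} [Fintype ι]
    {z : ι → V} {t : ι → ℚ} (hz : ∀ i, P (z i)) (ht : ∀ i, B (z i) (z i) = (t i : K))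
    (ht0 : ∀ i, t i ≠ 0) (hz0 : ∀ i j, i ≠ j → B (z i) (z j) = 0) : Fintype.card ι ≤ p + n := by
  classical
  rw [← card_split ht0]
  apply add_le_add
  · let e := Fintype.equivFinOfCardEq (α := {i // 0 < t i}) (n := (univ.filter fun i => 0 < t i).card)
      (by rw [Fintype.card_subtype])
    exact h.bound hP (z := fun i => z (e.symm i).1) (t := fun i => t (e.symm i).1)
      (fun i => hz _) (fun i => ht _) (fun i => (e.symm i).2)
      (fun i j hij => hz0 _ _ (fun h0 => hij (e.symm.injective (Subtype.ext h0))))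
  · let e := Fintype.equivFinOfCardEq (α := {i // t i < 0}) (n := (univ.filter fun i => t i < 0).card)
      (by rw [Fintype.card_subtype])
    exact h.neg.bound hP.neg (z := fun i => z (e.symm i).1) (t := fun i => -t (e.symm i).1)
      (fun i => hz _) (fun i => by
        rw [LinearMap.neg_apply, LinearMap.neg_apply, ht, Rat.cast_neg])
      (fun i => neg_pos.2 (e.symm i).2)
      (fun i j hij => by
        rw [LinearMap.neg_apply, LinearMap.neg_apply,
          hz0 _ _ (fun h0 => hij (e.symm.injective (Subtype.ext h0))), neg_zero])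

end Abs

variable {k : Type u} [Field k] {𝒱 : VarClass k} {ops : CycleOps 𝒱}
  {W : WeilCohomology.{u, v} ops} {X Z A : 𝒱.Obj}

lemma wcnt_par (d : ℕ) (σ : ℕ → ℕ) : wcnt d σ ((d % 2 : ℕ) : ℤ) = ∑ n ∈ range (d / 2 + 1), σ n := by
  rw [wcnt]
  apply Finset.sum_congr rfl
  intro n hn
  rw [Finset.mem_range] at hn
  rw [if_pos]
  refine ⟨?_, ?_⟩
  · rw [abs_of_nonneg (by positivity)]; omega
  · omega

lemma in_tot {D : Z.Cycles} {f : Module.End W.K (W.H Z)} (F : Fr W Z D f) :
    HasIn (MM W Z 1 ((Z.dim % 2 : ℕ) : ℤ)) (bf W Z D f) (posTot W Z D) (negTot W Z D) := by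
  have h1 := hasIn_wt F ((Z.dim % 2 : ℕ) : ℤ)
  rw [wcnt_par, wcnt_par] at h1
  exact h1

/-- The total rank does not decrease under multiplication by another variety. -/
lemma tot_mono {D : Z.Cycles} {f : Module.End W.K (W.H Z)} (F : Po W Z D f) {E : A.Cycles}
    {g : Module.End W.K (W.H A)} (G : Po W A E g) {s : ℚ} (hs : bf W A E g 1 1 = (s : W.K))
    (hs0 : 0 < s) (hZ : Even Z.dim) : posTot W Z D + negTot W Z D ≤
      posTot W (Z.prod A) (ops.pull (fst Z A) D + ops.pull (snd Z A) E) +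
        negTot W (Z.prod A) (ops.pull (fst Z A) D + ops.pull (snd Z A) E) := by
  classical
  have h1 := in_tot F.fr
  have h2 := in_tot (F.prod G).fr
  obtain ⟨ι, _, x, t, hF, hp, hq⟩ := h1
  rw [← hp, ← hq, card_split hF.ne]
  set L := LinearMap.mulLeft W.K (W.cl A E) with hL
  have hfund := fund_prim G
  set l := (A.dim + 1) / 2 with hl
  have hlA : l ≤ A.dim - 2 * 0 := by omega
  set c := (L ^ l) (W.cl A A.V.fundCycle) with hc
  have hc1 : c ∈ algClasses W A l := by
    have := (ap_alg G.fr).map_L_pow l (l := 0) ⟨_, hfund.1, rfl⟩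
    rwa [zero_add] at this
  have hcc := bf_same G.fr (Nat.zero_le _) hfund hfund hlA
  have hsf := bf_same G.fr (Nat.zero_le _) hfund hfund (j := 0) (Nat.zero_le _)
  rw [pow_zero, Module.End.one_apply, W.cl_fund, hs] at hsf
  have hsf' : s = Nat.factorial 0 * ((A.dim - 2 * 0 - 0).factorial : ℚ)⁻¹ *
      pairing ops A E 0 A.V.fundCycle A.V.fundCycle := by exact_mod_cast hsf
  have hpf : 0 < pairing ops A E 0 A.V.fundCycle A.V.fundCycle := by
    rw [hsf'] at hs0
    refine (mul_pos_iff_of_pos_left ?_).1 hs0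
    positivity
  set r : ℚ := l.factorial * ((A.dim - 2 * 0 - l).factorial : ℚ)⁻¹ *
    pairing ops A E 0 A.V.fundCycle A.V.fundCycle with hr
  have hr0 : r ≠ 0 := (mul_pos (by positivity) hpf).ne'
  have hcw : MM W A 1 (2 * l - A.dim : ℤ) c := mem_wt rfl hc1
  have hmem : ∀ i, MM W (Z.prod A) 1 (((Z.prod A).dim % 2 : ℕ) : ℤ)
      (H281R3.HT.ext W (x i) c) := by
    intro i
    refine ⟨(hF.mem i).1.ext hcw.1, rfl, ?_⟩
    rw [wt_ext, (hF.mem i).2.2, hcw.2.2, ext_smul_left, ext_smul_right, ← add_smul]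
    congr 1
    have h3 : ((Z.dim % 2 : ℕ) : ℤ) + (2 * l - A.dim : ℤ) = (((Z.prod A).dim % 2 : ℕ) : ℤ) := by
      have h4 : (Z.prod A).dim = Z.dim + A.dim := dim_prod _ _
      obtain ⟨e, he⟩ := hZ
      omega
    rw [← h3]
    push_cast
    ring
  refine h2.total ((F.prod G).rat 1 _) (z := fun i => H281R3.HT.ext W (x i) c)
    (t := fun i => t i * r) hmem ?_ (fun i => mul_ne_zero (hF.ne i) hr0) ?_
  · intro i
    rw [F.fr.bf_ext G.fr, hF.sq, Rat.cast_mul (t i) r, ← hcc]
  · intro i j hij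
    rw [F.fr.bf_ext G.fr, hF.orth i j hij, zero_mul]

section

variable {D : X.Cycles} {f : Module.End W.K (W.H X)} {E : A.Cycles}
  {g : Module.End W.K (W.H A)}

/-- **The signatures of the products of the powers with another variety.** -/
theorem law_tw (F : Po W X D f) (G : Po W A E g) {s : ℚ} (hs : bf W X D f 1 1 = (s : W.K))
    (hs0 : 0 < s) {κ j : ℕ} (hj : 2 * j ≤ (pw X κ).dim)
    (hneg : HasFamily W (pw X κ) (dpw ops X D κ) j (-1) 1) (n : ℕ) :
    |(posTot W ((sq X n).prod A) (ops.pull (fst (sq X n) A) (dsq ops X D n) +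
        ops.pull (snd (sq X n) A) E) : ℝ) -
      negTot W ((sq X n).prod A) (ops.pull (fst (sq X n) A) (dsq ops X D n) +
        ops.pull (snd (sq X n) A) E)| ≤
      (R940.betti W X : ℝ) ^ (2 * n + 2) * R940.betti W A *
        (1 - 2 / (R940.betti W X : ℝ) ^ (κ + 1)) ^ ((2 * n + 1) / (κ + 1)) := by
  obtain ⟨v, y₁, y₂, s₁, s₂, P⟩ := exists_pair (po_pw F κ) (bf_one_pw F hs κ) (pow_pos hs0 _)
    hj hneg
  set b := R940.betti W X with hb
  have hbr := P.rank
  rw [finrank_pw] at hbr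
  have hb2 : 2 ≤ b ^ (κ + 1) := by rw [hb, R940.betti]; omega
  have hb2' : (2 : ℝ) ≤ (b : ℝ) ^ (κ + 1) := by exact_mod_cast hb2
  have hin := in_tot ((po_sq F n).prod G).fr
  set p := posTot W ((sq X n).prod A) (ops.pull (fst (sq X n) A) (dsq ops X D n) +
        ops.pull (snd (sq X n) A) E) with hp
  set q := negTot W ((sq X n).prod A) (ops.pull (fst (sq X n) A) (dsq ops X D n) +
        ops.pull (snd (sq X n) A) E) with hq
  by_cases hT : (2 * n + 1) / (κ + 1) = 0
  · rw [hT, pow_zero, mul_one]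
    have h1 := in_le hin ⊤ (fun _ _ => Submodule.mem_top)
    have h0 : finrank W.K (W.H ((sq X n).prod A)) = b ^ (2 * n + 2) * R940.betti W A := by
      rw [← (kappa W (sq X n) A).finrank_eq, Module.finrank_tensorProduct, finrank_sq]
      rfl
    rw [finrank_top, h0] at h1
    have h2 : (p : ℝ) + q ≤ (b : ℝ) ^ (2 * n + 2) * R940.betti W A := by exact_mod_cast h1
    have h3 : (0 : ℝ) ≤ p := Nat.cast_nonneg _
    have h4 : (0 : ℝ) ≤ q := Nat.cast_nonneg _
    rw [abs_le]
    constructor <;> linarith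
  · obtain ⟨t, ht⟩ := Nat.exists_eq_succ_of_ne_zero hT
    rw [Nat.succ_eq_add_one] at ht
    have h1 : (κ + 1) * (t + 1) ≤ 2 * n + 1 := by
      rw [← ht]; exact Nat.mul_div_le _ _
    have h2 := NN_eq κ t
    obtain ⟨i, hi⟩ : ∃ i, i + NN κ t + 1 = n + n + 1 := ⟨2 * n - NN κ t, by omega⟩
    have h3 := iso_blocks F κ t i
    rw [hi] at h3
    obtain ⟨φ, ψ, h4⟩ := h3.trans (iso_add F n n)
    have FK := po_pw F κ
    have h41 := Tr.congr_left G.fr ((po_pw FK t).prod (po_pw F i)).fr (po_sq F n).fr h4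
    have h42 := tr_asc (po_pw FK t).fr (po_pw F i).fr G.fr
    have h43 : HasIn (MM W _ 1 _) (bf W _ _ _) p q := Iso.hasIn ⟨_, _, h42.symm.trans h41⟩ hin
    have h5 := sig_bound (po_pw F κ) P t ((po_pw F i).prod G) h43
    have h0 : finrank W.K (W.H ((pw X i).prod A)) = finrank W.K (W.H X) ^ (i + 1) *
        R940.betti W A := by
      rw [← (kappa W (pw X i) A).finrank_eq, Module.finrank_tensorProduct, finrank_pw]
      rfl
    rw [finrank_pw, h0] at h5
    have h6 : |(p : ℝ) - q| ≤ (((finrank W.K (W.H X) ^ (κ + 1) - 2) ^ (t + 1) *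
        (finrank W.K (W.H X) ^ (i + 1) * R940.betti W A) : ℕ) : ℝ) := by exact_mod_cast h5
    refine h6.trans (le_of_eq ?_)
    rw [ht]
    push_cast
    rw [Nat.cast_sub (by rw [hb, R940.betti] at hb2; exact hb2)]
    push_cast
    have h7 : (b : ℝ) ^ (2 * n + 2) = ((b : ℝ) ^ (κ + 1)) ^ (t + 1) * (b : ℝ) ^ (i + 1) := by
      rw [← pow_mul, ← pow_add]
      congr 1
      omega
    rw [h7]
    have h8 : (b : ℝ) ^ (κ + 1) * (1 - 2 / (b : ℝ) ^ (κ + 1)) = (b : ℝ) ^ (κ + 1) - 2 := by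
      have : (b : ℝ) ^ (κ + 1) ≠ 0 := by positivity
      field_simp
    calc ((finrank W.K (W.H X) : ℝ) ^ (κ + 1) - 2) ^ (t + 1) *
          ((finrank W.K (W.H X) : ℝ) ^ (i + 1) * R940.betti W A)
        = ((b : ℝ) ^ (κ + 1) * (1 - 2 / (b : ℝ) ^ (κ + 1))) ^ (t + 1) *
            ((b : ℝ) ^ (i + 1) * R940.betti W A) := by
          rw [h8]; rfl
      _ = _ := by rw [mul_pow]; ring

end

/-- **The proportion of the positive classes on the products with another variety.** -/
theorem law_tw_lim {D : X.Cycles} (hD : X.IsCyc 1 D) (hHL : HardLefschetz W X D)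
    (hB : LefschetzB W X D) (hpos : 0 < X.V.degCycle (divPow ops D X.dim X.V.fundCycle))
    {E : A.Cycles} (hE : A.IsCyc 1 E) (hHL' : HardLefschetz W A E) (hB' : LefschetzB W A E)
    (hpos' : 0 < A.V.degCycle (divPow ops E A.dim A.V.fundCycle))
    {κ j : ℕ} (hj : 2 * j ≤ (pw X κ).dim)
    (hneg : HasFamily W (pw X κ) (dpw ops X D κ) j (-1) 1) :
    let p := fun n => posTot W ((sq X n).prod A) (ops.pull (fst (sq X n) A) (dsq ops X D n) +
        ops.pull (snd (sq X n) A) E)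
    let q := fun n => negTot W ((sq X n).prod A) (ops.pull (fst (sq X n) A) (dsq ops X D n) +
        ops.pull (snd (sq X n) A) E)
    (∀ n, 0 < p n + q n) ∧ (∀ n : ℕ, |(p n : ℝ) - q n| ≤ R940.betti W A *
      ((n : ℝ) + 2) ^ (R940.betti W X ^ 2) *
        (1 - 2 / (R940.betti W X : ℝ) ^ (κ + 1)) ^ ((2 * n + 1) / (κ + 1)) * (p n + q n)) ∧
    Tendsto (fun n => (p n : ℝ) / (p n + q n)) atTop (𝓝 (1 / 2)) := by
  intro p q
  obtain ⟨f, G⟩ := exists_gd hD hHL hB
  have F : Po W X D f := po_of_gd G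
  obtain ⟨s, hs0, hs⟩ := exists_one F.fr hpos
  obtain ⟨f', G'⟩ := exists_gd hE hHL' hB'
  have F' : Po W A E f' := po_of_gd G'
  obtain ⟨s', hs0', hs'⟩ := exists_one F'.fr hpos'
  have hsign := signStd_of_B hD hHL hB
  obtain ⟨hd1, -⟩ := d_law hsign hD (hpos.ne' : Big ops X D)
  have hnum : ∀ n, numRank ops (sq X n) ((n + 1) * X.dim) ≤ p n + q n := by
    intro n
    rw [numRank_sq_eq F]
    refine tot_mono (po_sq F n) F' hs' hs0' ?_
    rw [dim_sq]; exact even_two_mul _
  have hgrow : ∀ n : ℕ, (R940.betti W X : ℝ) ^ (2 * n + 2) ≤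
      ((n : ℝ) + 2) ^ (R940.betti W X ^ 2) * (p n + q n) := by
    intro n
    have h1 := growth_any (W := W) (par_of_sign hsign) n
    have h2 : (R940.betti W X) ^ (2 * n + 2) ≤ (p n + q n) * (n + 2) ^ (R940.betti W X ^ 2) := by
      refine le_trans (le_trans (le_of_eq ?_) h1) (Nat.mul_le_mul_right _ (hnum n))
      rw [R940.betti]; ring
    rw [mul_comm (((n : ℝ) + 2) ^ (R940.betti W X ^ 2))]
    exact_mod_cast h2
  obtain ⟨hb2, -⟩ := law_neg F hs hs0 hj hneg 0
  have hb2' : (2 : ℝ) ≤ (R940.betti W X : ℝ) ^ (κ + 1) := by exact_mod_cast hb2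
  have hth0 : (0 : ℝ) ≤ 1 - 2 / (R940.betti W X : ℝ) ^ (κ + 1) := by
    rw [sub_nonneg, div_le_one (by positivity)]; exact hb2'
  have hth1 : 1 - 2 / (R940.betti W X : ℝ) ^ (κ + 1) < 1 := by
    rw [sub_lt_self_iff]; positivity
  have hpq : ∀ n, 0 < p n + q n := fun n => lt_of_lt_of_le (hd1 n).1 (hnum n)
  have hmain : ∀ n : ℕ, |(p n : ℝ) - q n| ≤ R940.betti W A *
      ((n : ℝ) + 2) ^ (R940.betti W X ^ 2) *
        (1 - 2 / (R940.betti W X : ℝ) ^ (κ + 1)) ^ ((2 * n + 1) / (κ + 1)) * (p n + q n) := by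
    intro n
    refine (law_tw F F' hs hs0 hj hneg n).trans ?_
    calc _ = ((R940.betti W X : ℝ) ^ (2 * n + 2)) * (R940.betti W A *
          (1 - 2 / (R940.betti W X : ℝ) ^ (κ + 1)) ^ ((2 * n + 1) / (κ + 1))) := by ring
      _ ≤ (((n : ℝ) + 2) ^ (R940.betti W X ^ 2) * (p n + q n)) * (R940.betti W A *
          (1 - 2 / (R940.betti W X : ℝ) ^ (κ + 1)) ^ ((2 * n + 1) / (κ + 1))) :=
          mul_le_mul_of_nonneg_right (hgrow n)
            (mul_nonneg (Nat.cast_nonneg _) (pow_nonneg hth0 _))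
      _ = _ := by ring
  refine ⟨hpq, hmain, ?_⟩
  have h2 := tendsto_floor hth0 hth1 (R940.betti W X ^ 2) (κ + 1) (Nat.succ_pos κ)
  have h3 : Tendsto (fun n => (p n : ℝ) / (p n + q n) - 1 / 2) atTop (𝓝 0) := by
    have h2' := (h2.const_mul (R940.betti W A : ℝ)).div_const 2
    rw [mul_zero, zero_div] at h2'
    refine squeeze_zero_norm (fun n => ?_) h2'
    have ha : (0 : ℝ) < p n + q n := by exact_mod_cast hpq n
    have h4 := hmain n
    have h5 : (p n : ℝ) / (p n + q n) - 1 / 2 = ((p n : ℝ) - q n) / (2 * (p n + q n)) := by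
      field_simp
      ring
    rw [h5, Real.norm_eq_abs, abs_div, abs_of_pos (by positivity : (0 : ℝ) < 2 * (p n + q n)),
      div_le_div_iff₀ (by positivity) (by norm_num)]
    nlinarith
  have := h3.add_const (1 / 2 : ℝ)
  simpa using this

end Pool.Agent.K1H12.SL
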